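import Pool.Agent.H18.PB.Skel2
import Pool.Agent.H65.OVN.Defs
import Pool.Agent.H99.FLF.EXL

/-!
# Interfaces of the lossy step on the side of the families
-/

set_option autoImplicit false

namespace Pool.FLF

open Finset Real
open Pool.Agent.H49.Ent Pool.Agent.H32.Dense Pool.STK Pool.KA Pool.KSAT Pool.K2S Pool.PB

variable {m J : ℕ}

/-- The label `(G, H)` of class `K` holds on `A`: `Lab` with given polynomials. -/
def LabW (F : Fam m J) (i₁ : Fin m) (r K a w P : ℕ)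
    (G : (Fin m → ℤ) × (ℕ × F.ζ) → MvPolynomial (Fin m) ℝ)
    (H : ((Fin m → ℝ) × (Fin m → ℝ)) × F.ζ × ℕ → MvPolynomial (Fin m) ℝ) (A : F.Ω → Prop) :
    Prop :=
  (∀ y, (G y).totalDegree ≤ K) ∧ (∀ s, (H s).totalDegree ≤ K) ∧ ∀ ω, A ω →
    |F.x ω i₁ - MvPolynomial.eval (bp F i₁ ω) (G (ptr F r ω))| ≤ 1 / 2 ^ P ∧
    ∀ b : Fin m → ℝ, (∀ j, |b j - bp F i₁ ω j| ≤ 1 / 2 ^ a) →
      (∀ j, |MvPolynomial.eval b (MvPolynomial.pderiv j (G (ptr F r ω)))| ≤ 2 * m) ∧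
      |MvPolynomial.eval b (G (ptr F r ω)) - MvPolynomial.eval b (H (slam F w ω))| ≤ 1 / 2 ^ P

theorem lab_iff {F : Fam m J} {i₁ : Fin m} {r K a w P : ℕ} {A : F.Ω → Prop} :
    Lab F i₁ r K a w P A ↔ ∃ G H, LabW F i₁ r K a w P G H A := by
  constructor
  · rintro ⟨G, H, h1, h2, h3⟩
    exact ⟨G, H, h1, h2, h3⟩
  · rintro ⟨G, H, h1, h2, h3⟩
    exact ⟨G, H, h1, h2, h3⟩

theorem LabW.sub {F : Fam m J} {i₁ : Fin m} {r K a w P : ℕ}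
    {G : (Fin m → ℤ) × (ℕ × F.ζ) → MvPolynomial (Fin m) ℝ}
    {H : ((Fin m → ℝ) × (Fin m → ℝ)) × F.ζ × ℕ → MvPolynomial (Fin m) ℝ} {A B : F.Ω → Prop}
    (hB : Sub B A) (h : LabW F i₁ r K a w P G H A) : LabW F i₁ r K a w P G H B :=
  ⟨h.1, h.2.1, fun ω hω => h.2.2 ω (hB ω hω)⟩

/-- The cell of the base point. -/
noncomputable def bcel (F : Fam m J) (i₁ : Fin m) (a : ℕ) (ω : F.Ω) : Fin m → ℤ :=
  fl a (bp F i₁ ω)

/-- **(OVF)** Own-visibility of the ball labels: if the rows `(P₁, P₂]` are not full, then the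
label, on the cell of the window and up to `2 ^ (-P₁)`, has small entropy given the point of
resolution `P₂`. -/
def OVF (S : FCl m) : Prop :=
  ∀ (K : ℕ) (c h₁ x ε : ℝ), 0 < c → 0 < h₁ → 0 < x → 0 < ε → ∀ i₁ : Fin m,
    Clg S (fun J F A => Ch F i₁ ⌊h₁ * J⌋₊ A →
      ∀ (r w P P₁ P₂ : ℕ) (G : (Fin m → ℤ) × (ℕ × F.ζ) → MvPolynomial (Fin m) ℝ)
        (H : ((Fin m → ℝ) × (Fin m → ℝ)) × F.ζ × ℕ → MvPolynomial (Fin m) ℝ),
        LabW F i₁ r K w w P G H A → w ≤ P₁ → P₁ + x * J ≤ P₂ → P₂ ≤ P → P ≤ r → r ≤ J →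
        Zm F c P₁ P₂ A →
        CH (Pool.Agent.H49.Ent.cond F.p A True)
          (fun ω => Pool.OVN.hz P₁ (Pool.OVN.pul w (bcel F i₁ w ω) (G (ptr F r ω))))
          (ptr F P₂) ≤ ε * J)

/-- **(M2C)** From a closed label (one sheet) to a polynomial label: the window and the precision
change by the proportion `1 / E`, and the class is large, depending on `E`. -/
def M2C (S : FCl m) : Prop :=
  ∀ (h₁ X : ℝ) (E : ℕ), 0 < h₁ → 0 < X → 0 < E → ∃ K₀ : ℕ, ∀ K ≥ K₀, ∃ N₁ : ℕ, ∀ N ≥ N₁,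
    ∀ d : ℕ, N = E * d → ∀ (i₁ : Fin m) (i p ρ : ℕ), i + 4 * d ≤ p → p < ρ → (ρ : ℝ) + X * N ≤ N →
    ∀ κ : ℝ, 0 < κ →
    Clg S (fun J F A => Ch F i₁ ⌊h₁ * J⌋₊ A →
      Cls F i₁ (ρ * (J / N)) 1 (i * (J / N)) (p * (J / N)) A →
      ∃ A' : F.Ω → Prop, Sub A' A ∧ Real.exp (-(κ * J)) * Pe F.p A ≤ Pe F.p A' ∧
        Bl F i₁ N K ρ (i + d) (p - d) A')

end Pool.FLF
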