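import Pool.Agent.H99.LST.STEPC

/-!
# The lossy step (STP) in all classes of families
-/

set_option autoImplicit false

namespace Pool.FLF

open Finset Real
open Pool.Agent.H49.Ent Pool.Agent.H32.Dense Pool.STK Pool.KA Pool.KSAT Pool.K2S Pool.KS3
open Pool.KAL Pool.PB Pool.KST Pool.KA.TRC Pool.K2S.Rows Pool.OVN Pool.KAF
open Pool.KJ hiding Pe

/-- The number of the monomials. -/
theorem exists_deg (m : ℕ) : ∃ D : ℕ,
    (6 * m * D + m).choose m < (D + m + 1).choose (m + 1) := by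
  refine ⟨(6 * m + 1) ^ m * (m + 1).factorial, ?_⟩
  obtain ⟨D, hD⟩ : ∃ D, D = (6 * m + 1) ^ m * (m + 1).factorial := ⟨_, rfl⟩
  rw [← hD]
  have h1 : (6 * m * D + m).choose m ≤ (6 * m * D + m) ^ m := Nat.choose_le_pow _ _
  have h2 : (6 * m * D + m) ^ m ≤ ((6 * m + 1) * (D + 1)) ^ m :=
    Nat.pow_le_pow_left (by nlinarith) _
  have h3 : (D + m + 1 + 1 - (m + 1)) ^ (m + 1) ≤
      (m + 1).factorial * (D + m + 1).choose (m + 1) := by
    have := Nat.pow_le_choose (m + 1) (D + m + 1) (α := ℚ)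
    rw [div_le_iff₀ (by positivity)] at this
    rw [Nat.mul_comm]
    exact_mod_cast this
  have e1 : D + m + 1 + 1 - (m + 1) = D + 1 := by omega
  rw [e1, pow_succ] at h3
  have h4 : (m + 1).factorial * ((6 * m + 1) * (D + 1)) ^ m < (D + 1) ^ m * (D + 1) := by
    have e2 : (m + 1).factorial * ((6 * m + 1) * (D + 1)) ^ m = (D + 1) ^ m * D := by
      rw [mul_pow]
      nth_rewrite 3 [hD]
      ring
    rw [e2]
    exact Nat.mul_lt_mul_of_pos_left (Nat.lt_succ_self D) (by positivity)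
  have h5 : (m + 1).factorial * (6 * m * D + m).choose m <
      (m + 1).factorial * (D + m + 1).choose (m + 1) :=
    lt_of_le_of_lt (Nat.mul_le_mul_left _ (h1.trans h2)) (lt_of_lt_of_le h4 h3)
  exact lt_of_mul_lt_mul_left' h5

variable {m J : ℕ}

theorem rows_mono' (F : Fam m J) {q : F.Ω → ℝ} (h0 : ∀ ω, 0 ≤ q ω) {a b c d : ℕ} (h1 : a ≤ b)
    (h3 : c ≤ d) :
    CH q (F.X c) (fun ω => (F.X b ω, F.W ω)) ≤ CH q (F.X d) (fun ω => (F.X a ω, F.W ω)) := by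
  have e1 : CH q (F.X c) (fun ω => (F.X b ω, F.W ω)) ≤
      CH q (F.X c) (fun ω => (F.X a ω, F.W ω)) := by
    refine CH_mono_cond h0 ?_
    intro ω ω' _ _ hh
    have h4 := Prod.ext_iff.mp hh
    refine Prod.ext ?_ h4.2
    funext j
    exact X_coarse F h1 (congrFun h4.1 j)
  refine e1.trans (CH_mono_left h0 ?_)
  intro ω ω' _ _ hh
  funext j
  exact X_coarse F h3 (congrFun (Prod.ext_iff.mp hh).1 j)

/-- The mean rate of the last rows. -/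
theorem rate_of_zr {F : Fam m J} {A : F.Ω → Prop} (hA : 0 < Pe F.p A) {c c' : ℝ} {N Cs Cr d ρ : ℕ}
    (hm : 1 ≤ m) (hcc : c' ≤ c) (hd : 1 ≤ d) (hCs : Cr + 1 ≤ Cs) (hρ : Cs * d ≤ ρ)
    (hrate : 2 * m * ((Cs : ℝ) - Cr) ≤ c' * Cr)
    (h : Zr F c N (ρ - Cs * d) ρ A) :
    CH (Pool.Agent.H49.Ent.cond F.p A True) (F.X ((ρ - 1) * (J / N)))
      (fun ω => (F.X ((ρ - 1 - Cr * d) * (J / N)) ω, F.W ω)) ≤
        (m - 2 * (c' / 4)) * (Cr * ((d * (J / N) : ℕ) : ℝ) * Real.log 2) := by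
  obtain ⟨u, hu⟩ : ∃ u, u = J / N := ⟨_, rfl⟩
  unfold Zr Zm at h
  rw [← hu] at h ⊢
  have hmr : (1 : ℝ) ≤ m := by exact_mod_cast hm
  have h1 : (Cr + 1) * d ≤ Cs * d := Nat.mul_le_mul_right _ hCs
  have h2 : (Cr + 1) * d = Cr * d + d := by ring
  have h3 := rows_mono' F (isLaw_cond F.isLaw hA).nonneg
    (a := (ρ - Cs * d) * u) (b := (ρ - 1 - Cr * d) * u) (c := (ρ - 1) * u) (d := ρ * u)
    (Nat.mul_le_mul_right _ (by omega)) (Nat.mul_le_mul_right _ (by omega))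
  refine h3.trans (h.trans ?_)
  have e1 : ((ρ * u : ℕ) : ℝ) - (((ρ - Cs * d) * u : ℕ) : ℝ) = Cs * (d * u) := by
    rw [Nat.sub_mul, Nat.cast_sub (Nat.mul_le_mul_right _ hρ)]
    push_cast
    ring
  rw [e1]
  have hT : (0 : ℝ) ≤ (d * u) * Real.log 2 := by
    have : 0 ≤ Real.log 2 := Real.log_nonneg (by norm_num)
    positivity
  have hCsr : (Cr : ℝ) ≤ Cs := by
    have : Cr ≤ Cs := by omega
    exact_mod_cast this
  have hCs0 : (0 : ℝ) ≤ Cs := Nat.cast_nonneg _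
  have key : (m - c) * (Cs : ℝ) ≤ (m - 2 * (c' / 4)) * Cr := by
    have k1 : (m - c) * (Cs : ℝ) ≤ (m - c') * Cs := mul_le_mul_of_nonneg_right (by linarith) hCs0
    have k2 : ((m : ℝ) - c') * (Cs - Cr) ≤ m * (Cs - Cr) ∨ c' < 0 := by
      rcases lt_or_ge c' 0 with h | h
      · exact Or.inr h
      · exact Or.inl (mul_le_mul_of_nonneg_right (by linarith) (by linarith))
    rcases k2 with k2 | k2
    · nlinarith
    · exfalso
      have : (1 : ℝ) ≤ Cs - Cr := by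
        have : (Cr : ℝ) + 1 ≤ Cs := by exact_mod_cast hCs
        linarith
      have k3 : c' * (Cr : ℝ) ≤ 0 := mul_nonpos_of_nonpos_of_nonneg k2.le (Nat.cast_nonneg _)
      nlinarith
  push_cast
  calc (m - c) * ((Cs : ℝ) * (d * u) * Real.log 2) = (m - c) * Cs * (d * u * Real.log 2) := by ring
    _ ≤ (m - 2 * (c' / 4)) * Cr * (d * u * Real.log 2) := mul_le_mul_of_nonneg_right key hT
    _ = _ := by ring

/-- **The lossy step**, from the linear step, the own-visibility and the passage to polynomial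
labels. -/
theorem stp_of (hJS : JSTEPStmt) (hm : 1 ≤ m) (S : FCl m) (hS : SPS S (m - 2)) (hOV : OVF S)
    (hM2 : M2C S) : STP S := by
  classical
  intro c h₁ X hc hh₁ hX
  have hmr : (1 : ℝ) ≤ m := by exact_mod_cast hm
  obtain ⟨D, hD⟩ := exists_deg m
  obtain ⟨j, hj⟩ : ∃ j, j = 6 * m * D := ⟨_, rfl⟩
  rw [← hj] at hD
  obtain ⟨c', hc'⟩ : ∃ c', c' = min c 1 := ⟨_, rfl⟩
  have hc'0 : 0 < c' := by rw [hc']; exact lt_min hc one_pos
  have hc'1 : c' ≤ 1 := by rw [hc']; exact min_le_right _ _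
  have hc'c : c' ≤ c := by rw [hc']; exact min_le_left _ _
  obtain ⟨w₀, hw₀⟩ := jsi_of hJS m D (j + 1) (3 + 2 * m + 2 * m ^ 2) (c' / 4) hm
    (by nlinarith) (by linarith) (by linarith)
  obtain ⟨w, hw⟩ : ∃ w, w = max w₀ 2 := ⟨_, rfl⟩
  obtain ⟨Cj, Cr₀, Cc, hCr₀, hJC⟩ := hw₀ w (by rw [hw]; exact le_max_left _ _)
  obtain ⟨n₁, hn₁⟩ := exists_nat_ge (2 * m * ((Cj : ℝ) + 8) / c')
  obtain ⟨Cr, hCr⟩ : ∃ Cr, Cr = Cr₀ + (j + 1) + n₁ := ⟨_, rfl⟩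
  obtain ⟨Cs, hCs⟩ : ∃ Cs, Cs = Cr + Cj + 8 := ⟨_, rfl⟩
  rw [div_le_iff₀ hc'0] at hn₁
  have hrate : 2 * m * ((Cs : ℝ) - Cr) ≤ c' * Cr := by
    rw [hCs]
    push_cast
    have h1 : (n₁ : ℝ) ≤ Cr := by
      have : n₁ ≤ Cr := by omega
      exact_mod_cast this
    have h2 : (n₁ : ℝ) * c' ≤ Cr * c' := mul_le_mul_of_nonneg_right h1 hc'0.le
    have h3 : 2 * m * ((Cr : ℝ) + Cj + 8 - Cr) = 2 * m * (Cj + 8) := by ring
    rw [h3]
    linarith
  refine ⟨Cs, 1, by omega, fun E _ hE => ?_⟩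
  obtain ⟨K₀, hK₀⟩ := hM2 h₁ X E hh₁ hX hE
  refine ⟨K₀, fun K hK => ?_⟩
  obtain ⟨N₁, hN₁⟩ := hK₀ K hK
  obtain ⟨M₀, hM₀⟩ := hJC Cr (by omega) K E hE
  refine ⟨N₁ + E * (M₀ + 1), ?_⟩
  intro N hN d hNd i₁ i ρ h2d hiρ hCsρ hρX
  have hd : M₀ + 1 ≤ d := by
    have : E * (M₀ + 1) ≤ E * d := by
      rw [← hNd]
      omega
    exact Nat.le_of_mul_le_mul_left this hE
  have hN0 : 0 < N := by
    rw [hNd]
    exact Nat.mul_pos hE (by omega)
  have hNr : (0 : ℝ) < N := by exact_mod_cast hN0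
  have hρN : ρ ≤ N := by
    have h1 : 0 ≤ X * N := by positivity
    have h2 : (ρ : ℝ) ≤ N := by linarith
    exact_mod_cast h2
  obtain ⟨η₁, κ₀, N₀, m₀, hη₁, hκ₀, hJSI⟩ := hM₀ d (by omega)
  have hCd : Cs * d = Cr * d + Cj * d + 8 * d := by rw [hCs]; ring
  by_cases htr : ρ - Cs * d < i - d
  · refine Clg.mono (J₂ := N) (Clg.of (S := S) (τ := 1) one_pos 0 (Φ := fun _ _ _ => True)
      (fun _ _ _ _ _ => True.intro)) ?_
    intro J hJ F A _ _ _ _ _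
    exact Bl.trivial hN0 hJ htr (by omega) (by omega)
  have hgap : i - d ≤ ρ - Cs * d := by omega
  have hCC : (Cr + Cj) * d = Cr * d + Cj * d := by ring
  refine Clg.step ⟨1, fun _ F _ => Bl F i₁ N K ρ (i - d) (ρ - Cs * d),
    fun _ F _ => Bl.hered F i₁ N K ρ (i - d) (ρ - Cs * d)⟩ fun κ hκ => ?_
  obtain ⟨cM, hcM, J₁, hwin⟩ := (hN₁ N (by omega) d hNd i₁ (i - 2 * d) (ρ - 1 - (Cr + Cj) * d) ρ
    (by omega) (by omega) hρX (κ / 4) (by positivity)).win (κ / 4) (by positivity)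
  obtain ⟨κ₁, hκ₁⟩ : ∃ κ₁, κ₁ = min (κ / 4) (cM / 2) := ⟨_, rfl⟩
  have hκ₁0 : 0 < κ₁ := by rw [hκ₁]; exact lt_min (by positivity) (by positivity)
  have hκ₁1 : κ₁ ≤ κ / 4 := by rw [hκ₁]; exact min_le_left _ _
  have hκ₁2 : κ₁ ≤ cM / 2 := by rw [hκ₁]; exact min_le_right _ _
  have hstep := step_clg (D := D) (j := j) (w := w) (Cj := Cj) (Cr := Cr) (Cc := Cc) (K := K)
    (E := E) (M := d) (c := c' / 4) (η₁ := η₁) (κ₀ := κ₀) (N₀ := N₀) (m₀ := m₀) hm hD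
    (by omega) (by rw [hw]; exact le_trans (by norm_num) (le_max_right _ _)) (by omega) hE
    (by omega) (by linarith) hη₁ hκ₀ hJSI hS hOV hh₁ (N := N) (i := i) (ρ := ρ) hN0 h2d
    (by omega) hρN (by omega) i₁ hκ₁0
  refine Clg.mono (J₂ := J₁) (hstep.and (Clg.of (S := S) (τ := cM / 2) (by positivity) 0
    (Φ := fun J F A => S.St (cM / 2) F A) (fun _ _ _ _ h => h))) ?_
  rintro J hJ F A ⟨hst, hSt⟩ hSb hCh - hZr hBl
  have hJ0 : (0 : ℝ) ≤ J := Nat.cast_nonneg J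
  have hA0 : 0 < Pe F.p A := lt_of_lt_of_le (Real.exp_pos _) hSt.2
  obtain ⟨A₂, hA2, hP2, hCls⟩ := hst hCh
    (rate_of_zr hA0 hm hc'c (by omega) (by omega) hCsρ hrate hZr) hBl
  have hSt2 : S.St cM F A₂ := by
    refine ⟨S.mono (by linarith) hSt.1, ?_⟩
    refine le_trans ?_ ((mul_le_mul_of_nonneg_left hSt.2 (Real.exp_pos _).le).trans hP2)
    rw [← Real.exp_add]
    refine Real.exp_le_exp.2 ?_
    have : κ₁ * J ≤ cM / 2 * J := mul_le_mul_of_nonneg_right hκ₁2 hJ0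
    linarith
  obtain ⟨A₃, hA3, hP3, hΦ⟩ := hwin J hJ F A₂ hSt2
  obtain ⟨A₄, hA4, hP4, hB4⟩ := hΦ (Ch.hered F i₁ _ A A₃ (hA3.trans hA2) hCh)
    (Cls.hered F i₁ _ _ _ _ A₂ A₃ hA3 hCls)
  have hB5 : Bl F i₁ N K ρ (i - d) (ρ - Cs * d) A₄ :=
    Bl.mono le_rfl le_rfl (by omega) (by omega) (by omega) hB4
  rcases hSb 0 with h | h
  · exact h
  · refine absurd hB5 (h A₄ ((hA4.trans hA3).trans hA2) ?_)
    have k1 : Real.exp (-(κ / 4 * J)) * (Real.exp (-(κ / 4 * J)) * (Real.exp (-(κ₁ * J)) *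
        Pe F.p A)) ≤ Pe F.p A₄ := by
      refine le_trans (mul_le_mul_of_nonneg_left ?_ (Real.exp_pos _).le) hP4
      refine le_trans (mul_le_mul_of_nonneg_left ?_ (Real.exp_pos _).le) hP3
      exact hP2
    refine le_trans ?_ k1
    rw [← mul_assoc, ← mul_assoc, ← Real.exp_add, ← Real.exp_add]
    refine mul_le_mul_of_nonneg_right (Real.exp_le_exp.2 ?_) (Pe_nonneg F.isLaw A)
    have h5 : κ₁ * J ≤ κ / 4 * J := mul_le_mul_of_nonneg_right hκ₁1 hJ0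
    have h6 : 0 ≤ κ * J := by positivity
    linarith

end Pool.FLF
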