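import Pool.Agent.H99.LST.NUM

/-!
# The core of the lossy step, for one event
-/

set_option autoImplicit false

namespace Pool.FLF

open Finset Real
open Pool.Agent.H49.Ent Pool.Agent.H32.Dense Pool.STK Pool.KA Pool.KSAT Pool.K2S Pool.KS3
open Pool.KAL Pool.PB Pool.KST Pool.KA.TRC Pool.K2S.Rows Pool.OVN Pool.KAF

variable {m J : ℕ}

/-- The rows of the position are superadditive. -/
theorem rows_mono (F : Fam m J) {a b c d : ℕ} (h1 : a ≤ b) (h3 : c ≤ d) :
    CH F.p (F.X c) (fun ω => (F.X b ω, F.W ω)) ≤ CH F.p (F.X d) (fun ω => (F.X a ω, F.W ω)) := by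
  have h0 := F.isLaw.nonneg
  have e1 : CH F.p (F.X c) (fun ω => (F.X b ω, F.W ω)) ≤
      CH F.p (F.X c) (fun ω => (F.X a ω, F.W ω)) := by
    refine CH_mono_cond h0 ?_
    intro ω ω' _ _ hh
    have h4 := Prod.ext_iff.mp hh
    refine Prod.ext ?_ h4.2
    funext j
    exact X_coarse F h1 (congrFun h4.1 j)
  refine e1.trans (CH_mono_left h0 ?_)
  intro ω ω' _ _ hh
  funext j
  exact X_coarse F h3 (congrFun (Prod.ext_iff.mp hh).1 j)

/-- **The core of the lossy step.** All small quantities are measured in units of the mesh `u`. -/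
theorem core_ev (m D j w Cj Cr Cc K E M : ℕ) (c η₁ : ℝ) (κ₀ N₀ m₀ : ℕ) (hm : 1 ≤ m)
    (hcho : (j + m).choose m < (D + m + 1).choose (m + 1)) (hj : 6 * m * D ≤ j) (hw : 1 ≤ w)
    (hCr : j + 1 ≤ Cr) (hE : 1 ≤ E) (hM : 1 ≤ M) (hc : 0 < c) (hη₁ : 0 < η₁) (hκ₀ : 1 ≤ κ₀)
    (hJ : JSI m D (j + 1) w (3 + 2 * m + 2 * m ^ 2) c Cj Cr Cc K E M η₁ κ₀ N₀ m₀) :
    ∃ (s₀ : ℕ) (η U : ℝ), 0 < η ∧ ∀ (J : ℕ) (F : Fam m J) (i₁ : Fin m) (u e₀ w' L' r : ℕ)
      (A B₁ : F.Ω → Prop) (h γ : ℕ) (ψ g δ e e' s θ ξ : ℝ)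
      (G₀ : (Fin m → ℤ) × (ℕ × F.ζ) → MvPolynomial (Fin m) ℝ),
      -- the numbers
      U ≤ u → m₀ ≤ u → e₀ = M * u → u ∣ w' → u ∣ L' → (Cr + Cj) * e₀ ≤ L' → L' ≤ E * e₀ →
      r = Pp w' e₀ L' + u → r ≤ J →
      -- the family
      F.Tr → F.Tm e' → F.Rb e → Ch F i₁ h A → 0 < ψ → Sp F (m - 2) ψ g A → 0 < Pe F.p A →
      0 < δ → δ < 1 / 2 → 1 / 2 ^ h + 2 * m * δ ≤ 1 / 2 ^ ⌊g * J⌋₊ →
      m.factorial * (6 * (3 + 2 * (m : ℝ) + 2 * m ^ 2)) ^ m ≤ δ ^ m * 2 ^ γ →
      -- the event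
      Sub B₁ A → Real.exp (-(ψ / 2 * J)) * Pe F.p A ≤ 3 / 4 * Pe F.p B₁ →
      θ * Pe F.p A ≤ 3 / 4 * Pe F.p B₁ → θ ≤ 1 → Real.exp (-s) ≤ 3 / 4 * Pe F.p B₁ →
      0 ≤ 4 * e + e' + s →
      -- the label
      (∀ y, (G₀ y).totalDegree ≤ K) →
      XLE F i₁ r w' (w' + 2 * e₀) (w' + 2 * e₀ + e₀) (Pp w' e₀ L') K (3 + 2 * m + 2 * m ^ 2) G₀
        B₁ →
      -- small quantities
      4 * e + e' + s ≤ η * u → γ ≤ η * u → 2 * Real.exp (-(ψ / 4 * J)) ≤ η → ξ ≤ η * u →
      -- stable entropies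
      (∀ a b, a ≤ b → b * u ≤ r →
        StE F.p θ ξ (F.X (b * u)) (fun ω => (F.X (a * u) ω, F.W ω)) A ∧
        StE F.p θ ξ (rf F i₁ (b * u)) (rg F i₁ (a * u) (b * u)) A) →
      -- own-visibility
      (∀ k, u * (k + 1) ≤ L' →
        (∃ Φ : (Fin m → ℤ) × (ℕ × F.ζ) → (Fin m →₀ ℕ) → ℤ, ∀ ω, B₁ ω →
          kod F i₁ r (w' + 2 * e₀) (w' + 2 * e₀ + e₀ + u * k + s₀) G₀ ω =
            Φ (ptr F (w' + 2 * e₀ + e₀ + u * (k + 1)) ω)) ∨
        ¬ Zm F (1 / (2 * w)) (w' + 2 * e₀ + e₀ + u * k + s₀)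
          (w' + 2 * e₀ + e₀ + u * (k + 1)) A) →
      -- the mean rate
      CH (Pool.Agent.H49.Ent.cond F.p A True) (F.X (Pp w' e₀ L'))
        (fun ω => (F.X (Pp w' e₀ L' - Cr * e₀) ω, F.W ω)) ≤
          (m - 2 * c) * (Cr * e₀ * Real.log 2) →
      ∃ A' : F.Ω → Prop, Sub A' B₁ ∧ 3 / 4 * Pe F.p B₁ ≤ 4 * Cc * Pe F.p A' ∧
        Cls F i₁ r 1 w' (Pp w' e₀ L' - (Cr + Cj) * e₀) A' := by
  classical
  obtain ⟨C₀, hC₀⟩ : ∃ C₀ : ℝ, C₀ = 3 + 2 * m + 2 * m ^ 2 := ⟨_, rfl⟩
  have hmr : (1 : ℝ) ≤ m := by exact_mod_cast hm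
  have hC₀1 : 1 ≤ C₀ := by rw [hC₀]; nlinarith only [hmr]
  have hC₀2 : 2 ≤ C₀ := by rw [hC₀]; nlinarith only [hmr]
  have hMr : (1 : ℝ) ≤ M := by exact_mod_cast hM
  have hEr : (1 : ℝ) ≤ E := by exact_mod_cast hE
  have hwr : (1 : ℝ) ≤ w := by exact_mod_cast hw
  have hCrr : (1 : ℝ) ≤ Cr := by
    have : 1 ≤ Cr := by omega
    exact_mod_cast this
  have hl2 : (1 / 2 : ℝ) ≤ Real.log 2 := by
    have := Real.log_two_gt_d9
    linarith only [this]
  have hl1 : Real.log 2 ≤ 1 := by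
    have := Real.log_two_lt_d9
    linarith only [this]
  have hl3 : 0 ≤ Real.log (2 * C₀ + 1) := Real.log_nonneg (by linarith only [hC₀2])
  rw [← hC₀] at hJ
  obtain ⟨Cu, hCu, hfull⟩ := gf_full m C₀ hC₀1
  obtain ⟨Cb, hCb, hbadn⟩ := gf_bad m D j K C₀ hcho hj hC₀1
  obtain ⟨s₀, Co, hCo, hov⟩ := OV_fam m K
  obtain ⟨κb, Nb, ηb, Ub, hκb, hηb, hUb, hRR⟩ := RR_small m hm (E + 1) Cb (1 / 8) (by linarith only [hEr])
    hCb (by norm_num)
  obtain ⟨κf, ηf, Uf, hκf, hηf, hUf, hFS⟩ := ful_small m (E + 1) Cu (c / 8) (by linarith only [hEr]) hCu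
    (by linarith only [hc])
  obtain ⟨eN, heN⟩ : ∃ eN : ℝ, eN = Real.log (2 * ((m + 1) * C₀ + 1) + 1) := ⟨_, rfl⟩
  have heN0 : 0 ≤ eN := by
    rw [heN]
    refine Real.log_nonneg ?_
    have : 0 ≤ (m + 1) * C₀ := by positivity
    linarith only [this]
  exact by
   have hcc : (0 : ℝ) ≤ cc m := by
     unfold cc
     have : (0 : ℝ) ≤ Real.log 100 := Real.log_nonneg (by norm_num)
     positivity
   -- the smallness
   obtain ⟨η, hη⟩ : ∃ η, η = min (min (min ηb ηf) (min (η₁ / 4) (c / 32))) (1 / (16 * w)) :=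
     ⟨_, rfl⟩
   have hη0 : 0 < η := by
     rw [hη]
     exact lt_min (lt_min (lt_min hηb hηf) (lt_min (by linarith only [hη₁]) (by linarith only [hc])))
       (by positivity)
   have hη1 : η ≤ ηb := by
     rw [hη]
     exact (min_le_left _ _).trans ((min_le_left _ _).trans (min_le_left _ _))
   have hη2 : η ≤ ηf := by
     rw [hη]
     exact (min_le_left _ _).trans ((min_le_left _ _).trans (min_le_right _ _))
   have hη3 : η ≤ η₁ / 4 := by
     rw [hη]
     exact (min_le_left _ _).trans ((min_le_right _ _).trans (min_le_left _ _))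
   have hη4 : η ≤ c / 32 := by
     rw [hη]
     exact (min_le_left _ _).trans ((min_le_right _ _).trans (min_le_right _ _))
   have hη5 : η ≤ 1 / (16 * w) := by rw [hη]; exact min_le_right _ _
   obtain ⟨U, hU⟩ : ∃ U : ℝ, U = 1 + Ub + Uf + Real.log (2 * C₀ + 1) / η + (cc m + Co) / η +
       s₀ + m * s₀ / η + (eN + 2 * cc m) / η := ⟨_, rfl⟩
   refine ⟨s₀, η, U, hη0, ?_⟩
   intro J F i₁ u e₀ w' L' r A B₁ h γ ψ g δ e e' s θ ξ G₀ hUu hm₀ he₀ huw huL hCCL hLE hr hrJ
     hTr hTm hRb hCh hψ hSp hA0 hδ hδ2 hδg hγ hBA hPψ hPθ hθ1 hPs hes hG₀ hxle hes2 hγ2 hε2 hξ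
     hst hOV hrate
   exact by
    have hp := F.isLaw
    obtain ⟨Z, zx, zt, zs, cz, cζ, cl', cl₂, G, hxl⟩ := hxle
    rw [← hC₀] at hγ hxl
    -- consequences of `U ≤ u`
    have q1 : 0 ≤ Real.log (2 * C₀ + 1) / η := by positivity
    have q2 : 0 ≤ (cc m + Co) / η := by positivity
    have q3 : (0 : ℝ) ≤ s₀ := Nat.cast_nonneg _
    have q4 : 0 ≤ m * s₀ / η := by positivity
    have q5 : 0 ≤ (eN + 2 * cc m) / η := by positivity
    have u1 : (1 : ℝ) ≤ u := by linarith only [hUb, hUf, hU, hUu, q1, q2, q4, q5]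
    have u2 : Ub ≤ u := by linarith only [hUf, hU, hUu, hδ, hδ2, q1, q2, q4, q5]
    have u3 : Uf ≤ u := by linarith only [hUb, hU, hUu, hδ, hδ2, q1, q2, q4, q5]
    have u4 : Real.log (2 * C₀ + 1) ≤ η * u := by
      have : Real.log (2 * C₀ + 1) / η ≤ u := by linarith only [hUb, hUf, hU, hUu, hδ, hδ2, q2, q4, q5]
      rw [div_le_iff₀ hη0] at this
      linarith only [this]
    have u5 : cc m + Co ≤ η * u := by
      have : (cc m + Co) / η ≤ u := by linarith only [hUb, hUf, hU, hUu, hδ, hδ2, q1, q4, q5]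
      rw [div_le_iff₀ hη0] at this
      linarith only [this]
    have u6 : (s₀ : ℝ) ≤ u := by linarith only [hUb, hUf, hU, hUu, hδ, hδ2, q1, q2, q4, q5]
    have u7 : m * (s₀ : ℝ) ≤ η * u := by
      have : m * s₀ / η ≤ u := by linarith only [hUb, hUf, hU, hUu, hδ, hδ2, q1, q2, q5]
      rw [div_le_iff₀ hη0] at this
      linarith only [this]
    have u8 : eN + 2 * cc m ≤ η * u := by
      have : (eN + 2 * cc m) / η ≤ u := by linarith only [hUb, hUf, hU, hUu, hδ, hδ2, q1, q2, q4]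
      rw [div_le_iff₀ hη0] at this
      linarith only [this]
    have hu1 : 1 ≤ u := by exact_mod_cast u1
    exact by
     have hs₀u : s₀ ≤ u := by exact_mod_cast u6
     have hue : u ≤ e₀ := by
       rw [he₀]
       exact Nat.le_mul_of_pos_left u (by omega)
     have hue' : (u : ℝ) ≤ e₀ := by exact_mod_cast hue
     have hηe : η * u ≤ η * e₀ := mul_le_mul_of_nonneg_left hue' hη0.le
     have hLr : ((e₀ + L' : ℕ) : ℝ) ≤ (E + 1) * e₀ := by
       have : (L' : ℝ) ≤ E * e₀ := by exact_mod_cast hLE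
       push_cast
       linarith only [this]
     have hε0 : 0 ≤ 2 * Real.exp (-(ψ / 4 * J)) := by positivity
     have hPr : Pp w' e₀ L' ≤ r := by omega
     have hB10 : 0 < Pe F.p B₁ := by
       have := Real.exp_pos (-s)
       linarith only [hPs, this]
     have hB1s : Real.exp (-s) ≤ Pe F.p B₁ := by linarith only [hPs, hB10]
     -- the bad sub-cubes
     obtain ⟨ec, hGF1⟩ := gf_sub (B := B₁) hTr hTm hRb hCh hψ hSp hBA (by linarith only [hPψ, hB10]) hB1s hPr hrJ hC₀2
       hG₀ hxl hδ hδ2 hδg hγ hes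
     have hj1 : (j + 2) * e₀ ≤ e₀ + L' := by
       have h1 : (j + 1) * e₀ ≤ (Cr + Cj) * e₀ := Nat.mul_le_mul_right _ (by omega)
       have h2 : (j + 2) * e₀ = e₀ + (j + 1) * e₀ := by ring
       omega
     have hbad1 := hbadn J (Fam.sub F B₁ hB10) i₁ r w' e₀ L' γ κb Nb δ _ _ G₀ Z zx zt zs cz cζ cl' cl₂
       G ec hκb hGF1 hj1
     have hRR1 := hRR (e₀ + L') γ (2 * Real.exp (-(ψ / 4 * J))) (4 * e + e' + s)
       (Real.log (2 * C₀ + 1)) e₀ hes hl3 hε0 hLr
       (hγ2.trans (hηe.trans (mul_le_mul_of_nonneg_right hη1 (Nat.cast_nonneg _))))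
       (hε2.trans hη1)
       (hes2.trans (hηe.trans (mul_le_mul_of_nonneg_right hη1 (Nat.cast_nonneg _))))
       (u4.trans (hηe.trans (mul_le_mul_of_nonneg_right hη1 (Nat.cast_nonneg _))))
       (u2.trans hue')
     exact by
      have he₀pos : (0 : ℝ) < e₀ := by linarith only [hUb, hUf, hU, hUu, hδ, hδ2, q1, q2, q4, q5, hue']
      obtain ⟨bad, hbadd⟩ : ∃ bad : F.Ω → Prop, bad = fun ω => Bad (G2 e₀ G (zx2 L'
          (fun ξ : ((Fin m → ℤ) × (ℕ × F.ζ)) × Z => ppos (2 * e₀ + (e₀ + L')) (chI i₁) ξ.1)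
            (fun ξ => ξ.2) (trp F (Pp w' e₀ L') ω, zs (slam F (w' + 2 * e₀) ω)))) (fun _ => 0) 1 D
            (2 ^ ((j + 1) * e₀) / 2 ^ L') := ⟨_, rfl⟩
      have hbad2 : Pe (Fam.sub F B₁ hB10).p (fun ω : {ω // B₁ ω} => bad ω.1) ≤ 1 / 4 := by
        rw [hbadd]
        have h1 := hbad1.trans hRR1
        have h2 : Pe (Fam.sub F B₁ hB10).p (fun ω : {ω // B₁ ω} => Bad (G2 e₀ G (zx2 L'
          (fun ξ : ((Fin m → ℤ) × (ℕ × F.ζ)) × Z => ppos (2 * e₀ + (e₀ + L')) (chI i₁) ξ.1)
            (fun ξ => ξ.2) (trp F (Pp w' e₀ L') ω.1, zs (slam F (w' + 2 * e₀) ω.1)))) (fun _ => 0) 1 D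
            (2 ^ ((j + 1) * e₀) / 2 ^ L')) * (e₀ * Real.log 2) ≤ 1 / 8 * e₀ := h1
        by_contra hcon
        push Not at hcon
        have h3 : 1 / 4 * (e₀ * (1 / 2 : ℝ)) < Pe (Fam.sub F B₁ hB10).p (fun ω : {ω // B₁ ω} =>
          Bad (G2 e₀ G (zx2 L'
          (fun ξ : ((Fin m → ℤ) × (ℕ × F.ζ)) × Z => ppos (2 * e₀ + (e₀ + L')) (chI i₁) ξ.1)
            (fun ξ => ξ.2) (trp F (Pp w' e₀ L') ω.1, zs (slam F (w' + 2 * e₀) ω.1)))) (fun _ => 0) 1 D
            (2 ^ ((j + 1) * e₀) / 2 ^ L')) * (e₀ * Real.log 2) := by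
          have h4 : (e₀ : ℝ) * (1 / 2) ≤ e₀ * Real.log 2 := mul_le_mul_of_nonneg_left hl2 he₀pos.le
          have h5 : (0 : ℝ) < e₀ * (1 / 2) := by positivity
          calc 1 / 4 * (e₀ * (1 / 2 : ℝ)) < _ * (e₀ * (1 / 2 : ℝ)) :=
                mul_lt_mul_of_pos_right hcon h5
            _ ≤ _ := mul_le_mul_of_nonneg_left h4 (by linarith only [hB10, hδ, hδ2, hcon])
        linarith only [hB10, h2, h3]
      -- the good event
      obtain ⟨B₂, hB₂⟩ : ∃ B₂ : F.Ω → Prop, B₂ = fun ω => B₁ ω ∧ ¬ bad ω := ⟨_, rfl⟩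
      have hP2 : 3 / 4 * Pe F.p B₁ ≤ Pe F.p B₂ := by
        rw [hB₂]
        exact ev_bad hB10 bad hbad2
      exact by
       have hB21 : Sub B₂ B₁ := fun ω hω => by rw [hB₂] at hω; exact hω.1
       have hB2A : Sub B₂ A := hB21.trans hBA
       have hB2s : Real.exp (-s) ≤ Pe F.p B₂ := hPs.trans hP2
       have hB20 : 0 < Pe F.p B₂ := sub_pos_of_exp hB2s
       have hB2θ : θ * Pe F.p A ≤ Pe F.p B₂ := hPθ.trans hP2
       obtain ⟨ec2, hGF2⟩ := gf_sub (B := B₂) hTr hTm hRb hCh hψ hSp hB2A (hPψ.trans hP2) hB2s hPr hrJ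
         hC₀2 hG₀ (hxl.sub hB21) hδ hδ2 hδg hγ hes
       obtain ⟨e₁, he₁⟩ : ∃ e₁, e₁ = 4 * e + e' + s := ⟨_, rfl⟩
       rw [← he₁] at hGF2 hes hes2
       have hPJ := hGF2.PJ
       -- the rows of the mesh
       obtain ⟨i', hi'⟩ := huw
       obtain ⟨l, hl⟩ := huL
       obtain ⟨b₀, hb₀⟩ : ∃ b₀, b₀ = i' + 2 * M + M := ⟨_, rfl⟩
       have hw2 : w' + 2 * e₀ + e₀ = b₀ * u := by rw [hi', he₀, hb₀]; ring
       have hPp : Pp w' e₀ L' = (b₀ + l) * u := by
         unfold Pp
         rw [hi', he₀, hb₀, hl]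
         ring
       have hCrL : Cr * e₀ ≤ L' := (Nat.mul_le_mul_right _ (Nat.le_add_right _ _)).trans hCCL
       have hCrM : Cr * M ≤ l := by
         have h1 : Cr * M * u ≤ l * u := by
           rw [mul_assoc, ← he₀, Nat.mul_comm l u, ← hl]
           exact hCrL
         exact Nat.le_of_mul_le_mul_right h1 (by omega)
       have hPR : Pp w' e₀ L' - Cr * e₀ = (b₀ + l - Cr * M) * u := by
         rw [hPp, he₀, Nat.sub_mul, mul_assoc]
       -- the defect of fullness
       have hfl := hfull J (Fam.sub F B₂ hB20) i₁ r w' e₀ L' K γ κf δ _ e₁ G₀ Z zx zt zs cz cζ cl' cl₂ G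
         ec2 hκf hGF2
       exact by
        obtain ⟨ef, hef⟩ : ∃ ef : ℝ, ef = m * e₁ + Cu * (((e₀ + L' : ℕ) : ℝ) / κf + γ + κf + 1 +
          2 * Real.exp (-(ψ / 4 * J)) * ((e₀ + L' : ℕ) : ℝ)) := ⟨_, rfl⟩
        rw [← hef] at hfl
        have hef1 : ef ≤ c / 8 * e₀ := by
          rw [hef]
          exact hFS (e₀ + L') γ _ e₁ e₀ hes hε0 hLr
            (hγ2.trans (hηe.trans (mul_le_mul_of_nonneg_right hη2 (Nat.cast_nonneg _))))
            (hε2.trans hη2)
            (hes2.trans (hηe.trans (mul_le_mul_of_nonneg_right hη2 (Nat.cast_nonneg _))))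
            (u3.trans hue')
        have hη₁e : η * u ≤ η₁ / 4 * e₀ :=
          hηe.trans (mul_le_mul_of_nonneg_right hη3 he₀pos.le)
        have hη₁0 : 0 ≤ η₁ / 4 * e₀ := by positivity
        have key := jsf hGF2 hκ₀ hJ hm₀ he₀ ⟨l, hl⟩ hCrL hLE hCCL (by linarith only [hγ2, hes2, hη₁e]) (by linarith only [hγ2, u4, hη₁e])
          (by linarith only [hγ2, hη₁e]) (by linarith only [hη0, hη3, hε2]) (by
            rw [hr, Nat.add_sub_cancel_left]
            exact hue')
          (by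
            rintro ⟨ω, hω⟩
            have h1 := hω
            rw [hB₂] at h1
            have h2 := h1.2
            rw [hbadd] at h2
            exact h2)
          (by
            intro R₁ R₂ h1 h2 h3 h4
            obtain ⟨a, ha⟩ := h3
            obtain ⟨b, hb⟩ := h4
            have hab : a ≤ b := by
              have : a * u ≤ b * u := by rw [Nat.mul_comm a, Nat.mul_comm b, ← ha, ← hb]; exact h1
              exact Nat.le_of_mul_le_mul_right this (by omega)
            have e1 : w' + 2 * e₀ + e₀ + R₁ = (b₀ + a) * u := by rw [hw2, ha]; ring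
            have e2 : w' + 2 * e₀ + e₀ + R₂ = (b₀ + b) * u := by rw [hw2, hb]; ring
            have h5 := (hst (b₀ + a) (b₀ + b) (by omega) (by
              rw [← e2]
              unfold Pp at hr
              omega)).2
            rw [e1, e2]
            have h6 := (h5.cnt hB2A hB2θ).toSub
            refine Cnt.mono ?_ h6
            have h7 : CH (Fam.sub F B₂ hB20).p (rf (Fam.sub F B₂ hB20) i₁ ((b₀ + b) * u))
                (rg (Fam.sub F B₂ hB20) i₁ ((b₀ + a) * u) ((b₀ + b) * u)) =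
                CH (Pool.Agent.H49.Ent.cond F.p B₂ True) (rf F i₁ ((b₀ + b) * u))
                  (rg F i₁ ((b₀ + a) * u) ((b₀ + b) * u)) :=
              sub_CH (rf F i₁ ((b₀ + b) * u)) (rg F i₁ ((b₀ + a) * u) ((b₀ + b) * u))
            rw [h7]
            linarith only [hγ2, hξ, hη₁e])
          (by
            intro k hk
            rcases hOV k hk with ⟨Φ, hΦ⟩ | hnz
            · refine Or.inl (OV_mono ?_ (hov J (Fam.sub F B₂ hB20) i₁ r w' (w' + 2 * e₀) e₀
                (w' + 2 * e₀ + e₀) (2 * e₀ + (e₀ + L')) L' (Pp w' e₀ L') (u * k) (u * (k + 1)) e₁ Z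
                (fun ω => zs (slam (Fam.sub F B₂ hB20) (w' + 2 * e₀) ω)) zs G (wzz (2 * e₀) cz cζ) G₀ Φ
                rfl (by unfold Pp; omega) (by omega) rfl hPJ hGF2.tm ?_ (fun _ => rfl) hG₀
                (fun ω => (hGF2.reg ω).deg) (fun ω => hGF2.germ ω) ?_ hk ?_))
              · linarith only [hγ2, u5, hes2, hη₁e]
              · intro ω
                simp only [wzz, zx2]
                rw [hGF2.cell ω, hGF2.side ω]
                refine Prod.ext ?_ (Prod.ext ?_ rfl)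
                · exact (T1_div (Fam.sub F B₂ hB20) (w := w') (K := 2 * e₀)
                    (by unfold Pp at hPJ; omega) ω).symm
                · funext i
                  exact Xr_div (Fam.sub F B₂ hB20) (w := w') (L := 2 * e₀) (r := w' + 2 * e₀) rfl ω i
              · rw [Nat.mul_add, Nat.mul_one]
                omega
              · intro ω
                exact hΦ ω.1 (hB21 ω.1 ω.2)
            · refine Or.inr ?_
              have e1 : w' + 2 * e₀ + e₀ + u * k = (b₀ + k) * u := by rw [hw2]; ring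
              have e2 : w' + 2 * e₀ + e₀ + u * (k + 1) = (b₀ + (k + 1)) * u := by rw [hw2]; ring
              have hbr : (b₀ + (k + 1)) * u ≤ r := by
                rw [← e2]
                unfold Pp at hr
                omega
              rw [e1, e2] at hnz ⊢
              unfold Zm at hnz
              push Not at hnz
              have h5 := (hst (b₀ + k) (b₀ + (k + 1)) (by omega) hbr).1
              have h6 : CH (Pool.Agent.H49.Ent.cond F.p A True) (F.X ((b₀ + (k + 1)) * u))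
                  (fun ω => (F.X ((b₀ + k) * u + s₀) ω, F.W ω)) ≤
                  CH (Pool.Agent.H49.Ent.cond F.p A True) (F.X ((b₀ + (k + 1)) * u))
                    (fun ω => (F.X ((b₀ + k) * u) ω, F.W ω)) := by
                refine CH_mono_cond (isLaw_cond hp hA0).nonneg ?_
                intro ω ω' _ _ hh
                have h4 := Prod.ext_iff.mp hh
                refine Prod.ext ?_ h4.2
                funext i
                exact X_coarse F (Nat.le_add_right _ _) (congrFun h4.1 i)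
              have h7 := h5.le hp hA0 hB2A hB2θ
              have h8 := rows_le_rf (Fam.sub F B₂ hB20) i₁ (R₁ := (b₀ + k) * u)
                (R₂ := (b₀ + (k + 1)) * u) (Nat.mul_le_mul_right _ (by omega)) (hbr.trans hrJ)
              have h9 : CH (Fam.sub F B₂ hB20).p ((Fam.sub F B₂ hB20).X ((b₀ + (k + 1)) * u))
                  (fun ω => ((Fam.sub F B₂ hB20).X ((b₀ + k) * u) ω, (Fam.sub F B₂ hB20).W ω)) =
                  CH (Pool.Agent.H49.Ent.cond F.p B₂ True) (F.X ((b₀ + (k + 1)) * u))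
                    (fun ω => (F.X ((b₀ + k) * u) ω, F.W ω)) :=
                sub_CH (F.X ((b₀ + (k + 1)) * u)) (fun ω => (F.X ((b₀ + k) * u) ω, F.W ω))
              rw [h9] at h8
              have e3 : (((b₀ + (k + 1)) * u : ℕ) : ℝ) - (((b₀ + k) * u : ℕ) : ℝ) = u := by
                push_cast
                ring
              have e4 : (((b₀ + (k + 1)) * u : ℕ) : ℝ) - (((b₀ + k) * u + s₀ : ℕ) : ℝ) = u - s₀ := by
                push_cast
                ring
              rw [e3] at h8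
              rw [e4] at hnz
              -- the inequality
              have hwpos : (0 : ℝ) < w := by linarith only [hwr, hδ, hδ2]
              have f1 : (1 : ℝ) / (2 * w) * (u * Real.log 2) =
                  (1 - 1 / (2 * w)) * (u * Real.log 2) - (1 - 1 / w) * (u * Real.log 2) := by
                field_simp
                ring
              have f2 : (u : ℝ) / (4 * w) ≤ 1 / (2 * w) * (u * Real.log 2) := by
                have : (u : ℝ) / (4 * w) = 1 / (2 * w) * (u * (1 / 2)) := by field_simp; norm_num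
                rw [this]
                exact mul_le_mul_of_nonneg_left (mul_le_mul_of_nonneg_left hl2 (Nat.cast_nonneg _))
                  (by positivity)
              have f3 : η * u ≤ u / (16 * w) := by
                have := mul_le_mul_of_nonneg_right hη5 (show (0 : ℝ) ≤ u from Nat.cast_nonneg _)
                refine this.trans (le_of_eq ?_)
                ring
              have f4 : (m - 1 / (2 * (w : ℝ))) * (s₀ * Real.log 2) ≤ m * s₀ := by
                have g1 : (0 : ℝ) < 1 / (2 * w) := by positivity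
                have g2 : (s₀ : ℝ) * Real.log 2 ≤ s₀ := by
                  have := mul_le_mul_of_nonneg_left hl1 q3
                  linarith only [this]
                have g3 : (0 : ℝ) ≤ s₀ * Real.log 2 := by positivity
                calc (m - 1 / (2 * (w : ℝ))) * (s₀ * Real.log 2) ≤ m * (s₀ * Real.log 2) :=
                      mul_le_mul_of_nonneg_right (by linarith only [g1]) g3
                  _ ≤ m * s₀ := mul_le_mul_of_nonneg_left g2 (by linarith only [hmr, hδ, hδ2])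
              have f5 : (u : ℝ) / (16 * w) + u / (16 * w) ≤ u / (4 * w) := by
                have : (u : ℝ) / (4 * w) = 4 * (u / (16 * w)) := by field_simp; norm_num
                rw [this]
                have : (0 : ℝ) ≤ u / (16 * w) := by positivity
                linarith only [hγ2, f3]
              have f6 : (m - 1 / (2 * (w : ℝ))) * ((u - s₀) * Real.log 2) =
                  ((m : ℝ) - 1) * (u * Real.log 2) + (1 - 1 / (2 * w)) * (u * Real.log 2) -
                    (m - 1 / (2 * (w : ℝ))) * (s₀ * Real.log 2) := by ring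
              linarith only [hB2s, hB20, hξ, u7, hnz, h6, h7, h8, f1, f2, f3, f4, f5])
          (by
            rw [hPR]
            have h1 := rf_thin (Fam.sub F B₂ hB20) i₁ (w := w' + 2 * e₀) (L := e₀ + L')
              (P := Pp w' e₀ L') (R := Pp w' e₀ L' - Cr * e₀) (by unfold Pp; omega) hPJ
              (by unfold Pp; omega) (Nat.sub_le _ _)
              (fun ω => zs (slam (Fam.sub F B₂ hB20) (w' + 2 * e₀) ω)) cz G (by linarith only [hC₀2, hδ, hδ2]) hGF2.cell
              hGF2.reg hGF2.near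
            rw [← heN] at h1
            have h2 := rf_le_rows (Fam.sub F B₂ hB20) i₁ hGF2.tm (w := w' + 2 * e₀)
              (P := Pp w' e₀ L') (R₁ := Pp w' e₀ L' - Cr * e₀) (R₂ := Pp w' e₀ L')
              (by unfold Pp; omega) (Nat.sub_le _ _) le_rfl hPJ
              (fun ω => zs (slam (Fam.sub F B₂ hB20) (w' + 2 * e₀) ω)) (ef := ef) (eN := eN)
              (by
                intro ω ω' _ _ hh
                have a1 := congrArg cz hh
                simp only at a1
                rw [hGF2.cell ω, hGF2.cell ω'] at a1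
                simp only [Prod.mk.injEq] at a1
                exact bcel_eq _ i₁ (by unfold Pp at hPJ; omega) a1.1 fun i _ => congrFun a1.2 i)
              (by
                intro ω ω' _ _ hh
                have a1 := congrArg cζ hh
                simp only at a1
                rw [hGF2.side ω, hGF2.side ω'] at a1
                exact a1)
              hfl h1
            have h3 : CH (Fam.sub F B₂ hB20).p ((Fam.sub F B₂ hB20).X (Pp w' e₀ L'))
                  (fun ω => ((Fam.sub F B₂ hB20).X (Pp w' e₀ L' - Cr * e₀) ω,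
                    (Fam.sub F B₂ hB20).W ω)) =
                  CH (Pool.Agent.H49.Ent.cond F.p B₂ True) (F.X (Pp w' e₀ L'))
                    (fun ω => (F.X (Pp w' e₀ L' - Cr * e₀) ω, F.W ω)) :=
              sub_CH (F.X (Pp w' e₀ L')) (fun ω => (F.X (Pp w' e₀ L' - Cr * e₀) ω, F.W ω))
            rw [h3] at h2
            have h4 := (hst (b₀ + l - Cr * M) (b₀ + l) (Nat.sub_le _ _) (by
              rw [← hPp]
              omega)).1.ge hp hθ1 hB2A hB20
            rw [← hPR, ← hPp] at h4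
            have e1 : ((Pp w' e₀ L' : ℕ) : ℝ) - ((Pp w' e₀ L' - Cr * e₀ : ℕ) : ℝ) = Cr * e₀ := by
              rw [Nat.cast_sub (by unfold Pp; omega)]
              push_cast
              ring
            rw [e1] at h2
            rw [← hPR]
            have f1 : (e₀ : ℝ) / 2 ≤ Cr * e₀ * Real.log 2 := by
              have g1 : (1 : ℝ) * e₀ ≤ Cr * e₀ := mul_le_mul_of_nonneg_right hCrr he₀pos.le
              calc (e₀ : ℝ) / 2 = e₀ * (1 / 2) := by ring
                _ ≤ Cr * e₀ * Real.log 2 := mul_le_mul (by linarith only [g1]) hl2 (by norm_num) (by positivity)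
            have f2 := mul_le_mul_of_nonneg_left f1 hc.le
            have f3 : η * u ≤ c / 32 * e₀ := hηe.trans (mul_le_mul_of_nonneg_right hη4 he₀pos.le)
            have f4 : (m - 2 * c) * (Cr * e₀ * Real.log 2) = ((m : ℝ) - 1) * (Cr * e₀ * Real.log 2) +
                (1 - c) * (Cr * e₀ * Real.log 2) - c * (Cr * e₀ * Real.log 2) := by ring
            have f5 : 0 < c * e₀ := by positivity
            linarith only [hB2s, hB20, hξ, hrate, u8, hes2, hef1, h2, h4, f2, f3, f5])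
        exact by
         obtain ⟨B, hB1, hB3⟩ := key
         refine ⟨fun ω => ∃ h : B₂ ω, B ⟨ω, h⟩, fun ω hω => hB21 ω hω.1, ?_, cls_sub hB3⟩
         have h1 := sub_Pe hB20 B
         have h2 : Pe F.p B₂ * 1 ≤ Pe F.p B₂ * (4 * Cc * Pe (sp F.p B₂) B) :=
           mul_le_mul_of_nonneg_left hB1 hB20.le
         have h3 : 4 * Cc * Pe F.p (fun ω => ∃ h : B₂ ω, B ⟨ω, h⟩) =
             Pe F.p B₂ * (4 * Cc * Pe (sp F.p B₂) B) := by
           rw [h1]
           ring
         rw [h3]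
         linarith only [hP2, h2]

end Pool.FLF
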