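import Pool.Agent.H99.LST.EVT

/-!
# Numerical lemmas
-/

set_option autoImplicit false

namespace Pool.FLF

open Finset Real
open Pool.KS3

/-- The error of the step is small. -/
theorem RR_small (n : ℕ) (hn : 1 ≤ n) (E' C ζ : ℝ) (hE : 0 ≤ E') (hC : 0 ≤ C) (hζ : 0 < ζ) :
    ∃ (κ N : ℕ) (η U : ℝ), 1 ≤ κ ∧ 0 < η ∧ 0 < U ∧ ∀ (L γ : ℕ) (ε e₁ e₃ x : ℝ), 0 ≤ e₁ → 0 ≤ e₃ →
      0 ≤ ε → (L : ℝ) ≤ E' * x → (γ : ℝ) ≤ η * x → ε ≤ η → e₁ ≤ η * x → e₃ ≤ η * x → U ≤ x →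
      C * RR n L κ γ N ε e₁ e₃ ≤ ζ * x := by
  obtain ⟨C', hC'⟩ : ∃ C', C' = C + 1 := ⟨_, rfl⟩
  have hC'0 : 0 < C' := by linarith only [hC, hC']
  -- the power
  have hq0 : (0 : ℝ) ≤ 1 - 1 / n := by
    have : (1 : ℝ) / n ≤ 1 := by
      rw [div_le_one (by positivity)]
      exact_mod_cast hn
    linarith only [this]
  have hq1 : (1 : ℝ) - 1 / n < 1 := by
    have : (0 : ℝ) < 1 / n := by positivity
    linarith only [this]
  obtain ⟨N, hN⟩ := exists_pow_lt_of_lt_one (show (0 : ℝ) < ζ / (6 * (C' * (E' + 1))) by positivity)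
    hq1
  obtain ⟨κ, hκ⟩ := exists_nat_ge (6 * C' * E' / ζ + 1)
  have hκ1 : (1 : ℝ) ≤ κ := by
    have : 0 ≤ 6 * C' * E' / ζ := by positivity
    linarith only [hκ, this]
  obtain ⟨η, hη⟩ : ∃ η, η = min 1 (ζ / (6 * (C' * (N + 4 + E')))) := ⟨_, rfl⟩
  have hη0 : 0 < η := by rw [hη]; exact lt_min one_pos (by positivity)
  have hη1 : η ≤ 1 := by rw [hη]; exact min_le_left _ _
  have hη2 : η ≤ ζ / (6 * (C' * (N + 4 + E'))) := by rw [hη]; exact min_le_right _ _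
  refine ⟨κ, N, η, 6 * C' * (N + 1 + κ) / ζ, by exact_mod_cast hκ1, hη0, by positivity, ?_⟩
  intro L γ ε e₁ e₃ x he₁ he₃ hε hL hγ hεη h1 h3 hU
  have hx : 0 < x := lt_of_lt_of_le (by positivity) hU
  have hq : 0 ≤ (1 - 1 / (n : ℝ)) ^ N := pow_nonneg hq0 N
  have b1 : (1 - 1 / (n : ℝ)) ^ N * (L + e₃) ≤ ζ / (6 * (C' * (E' + 1))) * ((E' + 1) * x) := by
    refine mul_le_mul hN.le ?_ (by positivity) (by positivity)
    nlinarith only [hL, h3, hη1, hE, hη0, he₃]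
  have b2 : (L : ℝ) / κ ≤ ζ / (6 * C') * x := by
    rw [div_le_iff₀ (by linarith only [hκ1])]
    have c1 : E' ≤ ζ / (6 * C') * κ := by
      have c2 : 6 * C' * E' / ζ ≤ κ := by linarith only [hκ]
      rw [div_le_iff₀ hζ] at c2
      rw [div_mul_eq_mul_div, le_div_iff₀ (by positivity)]
      linarith only [c2]
    calc (L : ℝ) ≤ E' * x := hL
      _ ≤ ζ / (6 * C') * κ * x := mul_le_mul_of_nonneg_right c1 hx.le
      _ = _ := by ring
  have b3 : ε * L ≤ η * (E' * x) := mul_le_mul hεη hL (by positivity) hη0.le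
  have b4 : ((N : ℝ) + 1) * (e₁ + 1) ≤ (N + 1) * (η * x) + (N + 1) := by
    have : ((N : ℝ) + 1) * e₁ ≤ (N + 1) * (η * x) := mul_le_mul_of_nonneg_left h1 (by positivity)
    nlinarith only [this]
  have b5 : C' * ((N + 4 + E') * η) ≤ ζ / 6 := by
    have := mul_le_mul_of_nonneg_left hη2 (show (0 : ℝ) ≤ C' * (N + 4 + E') by positivity)
    calc C' * ((N + 4 + E') * η) = C' * (N + 4 + E') * η := by ring
      _ ≤ _ := this
      _ = ζ / 6 := by field_simp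
  have b6 : C' * (N + 1 + κ) ≤ ζ / 6 * x := by
    rw [div_le_iff₀ hζ] at hU
    linarith only [hU]
  have b7 : C' * (ζ / (6 * (C' * (E' + 1))) * ((E' + 1) * x)) = ζ / 6 * x := by
    field_simp
  have b8 : C' * (ζ / (6 * C') * x) = ζ / 6 * x := by field_simp
  have hR : RR n L κ γ N ε e₁ e₃ ≤ (N + 4 + E') * η * x + (N + 1 + κ) +
      ζ / (6 * (C' * (E' + 1))) * ((E' + 1) * x) + ζ / (6 * C') * x := by
    unfold RR
    have c1 : 0 ≤ η * x := by positivity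
    nlinarith only [hγ, h3, b1, b2, b3, b4]
  have hR0 : 0 ≤ RR n L κ γ N ε e₁ e₃ := by
    unfold RR
    positivity
  calc C * RR n L κ γ N ε e₁ e₃ ≤ C' * RR n L κ γ N ε e₁ e₃ :=
        mul_le_mul_of_nonneg_right (by linarith only [hC']) hR0
    _ ≤ C' * ((N + 4 + E') * η * x + (N + 1 + κ) +
      ζ / (6 * (C' * (E' + 1))) * ((E' + 1) * x) + ζ / (6 * C') * x) :=
        mul_le_mul_of_nonneg_left hR hC'0.le
    _ = C' * ((N + 4 + E') * η) * x + C' * (N + 1 + κ) +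
      C' * (ζ / (6 * (C' * (E' + 1))) * ((E' + 1) * x)) + C' * (ζ / (6 * C') * x) := by ring
    _ ≤ ζ / 6 * x + ζ / 6 * x + ζ / 6 * x + ζ / 6 * x := by
        rw [b7, b8]
        have := mul_le_mul_of_nonneg_right b5 hx.le
        linarith only [b6, this]
    _ ≤ ζ * x := by nlinarith only [hC, hC', hκ1, b6]

/-- The defect of fullness is small. -/
theorem ful_small (m : ℕ) (E' C ζ : ℝ) (hE : 0 ≤ E') (hC : 0 ≤ C) (hζ : 0 < ζ) :
    ∃ (κ : ℕ) (η U : ℝ), 1 ≤ κ ∧ 0 < η ∧ 0 < U ∧ ∀ (L γ : ℕ) (ε e₁ x : ℝ), 0 ≤ e₁ →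
      0 ≤ ε → (L : ℝ) ≤ E' * x → (γ : ℝ) ≤ η * x → ε ≤ η → e₁ ≤ η * x → U ≤ x →
      m * e₁ + C * ((L : ℝ) / κ + γ + κ + 1 + ε * L) ≤ ζ * x := by
  obtain ⟨C', hC'⟩ : ∃ C', C' = C + 1 := ⟨_, rfl⟩
  have hC'0 : 0 < C' := by linarith
  obtain ⟨κ, hκ⟩ := exists_nat_ge (4 * C' * E' / ζ + 1)
  have hκ1 : (1 : ℝ) ≤ κ := by
    have : 0 ≤ 4 * C' * E' / ζ := by positivity
    linarith only [hκ, this]
  obtain ⟨η, hη⟩ : ∃ η, η = min 1 (ζ / (4 * (C' * (m + 1 + E')))) := ⟨_, rfl⟩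
  have hη0 : 0 < η := by rw [hη]; exact lt_min one_pos (by positivity)
  have hη2 : η ≤ ζ / (4 * (C' * (m + 1 + E'))) := by rw [hη]; exact min_le_right _ _
  refine ⟨κ, η, 4 * C' * (κ + 1) / ζ, by exact_mod_cast hκ1, hη0, by positivity, ?_⟩
  intro L γ ε e₁ x he₁ hε hL hγ hεη h1 hU
  have hx : 0 < x := lt_of_lt_of_le (by positivity) hU
  have b2 : (L : ℝ) / κ ≤ ζ / (4 * C') * x := by
    rw [div_le_iff₀ (by linarith only [hκ1])]
    have c1 : E' ≤ ζ / (4 * C') * κ := by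
      have c2 : 4 * C' * E' / ζ ≤ κ := by linarith only [hκ]
      rw [div_le_iff₀ hζ] at c2
      rw [div_mul_eq_mul_div, le_div_iff₀ (by positivity)]
      linarith only [c2]
    calc (L : ℝ) ≤ E' * x := hL
      _ ≤ ζ / (4 * C') * κ * x := mul_le_mul_of_nonneg_right c1 hx.le
      _ = _ := by ring
  have b3 : ε * L ≤ η * (E' * x) := mul_le_mul hεη hL (by positivity) hη0.le
  have b4 : (m : ℝ) * e₁ ≤ C' * (m * (η * x)) := by
    have c1 : (m : ℝ) * e₁ ≤ m * (η * x) := mul_le_mul_of_nonneg_left h1 (by positivity)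
    have c2 : (m : ℝ) * (η * x) ≤ C' * (m * (η * x)) :=
      le_mul_of_one_le_left (by positivity) (by linarith only [hC, hC'])
    linarith only [c1, c2]
  have b5 : C' * ((m + 1 + E') * η) ≤ ζ / 4 := by
    have := mul_le_mul_of_nonneg_left hη2 (show (0 : ℝ) ≤ C' * (m + 1 + E') by positivity)
    calc C' * ((m + 1 + E') * η) = C' * (m + 1 + E') * η := by ring
      _ ≤ _ := this
      _ = ζ / 4 := by field_simp
  have b6 : C' * (κ + 1) ≤ ζ / 4 * x := by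
    rw [div_le_iff₀ hζ] at hU
    linarith only [hU]
  have b8 : C' * (ζ / (4 * C') * x) = ζ / 4 * x := by field_simp
  have hR : (L : ℝ) / κ + γ + κ + 1 + ε * L ≤ (1 + E') * η * x + (κ + 1) +
      ζ / (4 * C') * x := by
    nlinarith only [hγ, b2, b3]
  have hR0 : 0 ≤ (L : ℝ) / κ + γ + κ + 1 + ε * L := by positivity
  have c3 : C * ((L : ℝ) / κ + γ + κ + 1 + ε * L) ≤ C' * ((L : ℝ) / κ + γ + κ + 1 + ε * L) :=
    mul_le_mul_of_nonneg_right (by linarith only [hC']) hR0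
  have c4 := mul_le_mul_of_nonneg_left hR hC'0.le
  have c5 := mul_le_mul_of_nonneg_right b5 hx.le
  have c6 : C' * ((1 + E') * η * x + (κ + 1) + ζ / (4 * C') * x) =
      C' * ((m + 1 + E') * η) * x - C' * (m * (η * x)) + C' * (κ + 1) +
        C' * (ζ / (4 * C') * x) := by ring
  rw [c6, b8] at c4
  nlinarith only [hC, hC', hκ1, b4, b6, c3, c4, c5]

end Pool.FLF
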