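import Pool.Agent.H99.LST.OVE
import Pool.Agent.H99.LST.NUM
import Pool.Agent.H50.K2.Piece

/-!
# The core of the lossy step, for one event, at the top row
-/

set_option autoImplicit false

namespace Pool.FLF

open Finset Real
open Pool.Agent.H49.Ent Pool.Agent.H32.Dense Pool.STK Pool.KA Pool.KSAT Pool.K2S Pool.KS3
open Pool.KAL Pool.PB Pool.KST Pool.KA.TRC Pool.K2S.Rows Pool.OVN Pool.KAF

variable {m J : ℕ}

/-- The conclusion of the linear step for good families, with an abstract output `Out`. -/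
def JSFO (m D u w : ℕ) (C₀ c : ℝ) (Cj Cr Cc K E M : ℕ) (η₁ : ℝ) (m₀ : ℕ)
    (Out : ∀ (J : ℕ) (F : Fam m J) (_ : Fin m) (_ _ _ : ℕ), (F.Ω → Prop) → Prop) : Prop :=
  ∀ (J : ℕ) (F : Fam m J) (i₁ : Fin m) (r w' e₀ L' γ : ℕ) (δ ε e₁ : ℝ)
    (G₀ : (Fin m → ℤ) × (ℕ × F.ζ) → MvPolynomial (Fin m) ℝ) (Z : Type)
    (zx zt : (Fin m → ℤ) × (ℕ × F.ζ) → Z)
    (zs : ((Fin m → ℝ) × (Fin m → ℝ)) × F.ζ × ℕ → Z) (cz : Z → ℕ × (Fin m → ℤ)) (cζ : Z → F.ζ)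
    (cl' cl₂ : ((Fin m → ℝ) × (Fin m → ℝ)) × F.ζ × ℕ → Fin m → ℤ)
    (G : Z → MvPolynomial (Fin m) ℝ) (e : ((Fin m → ℤ) × (ℕ × F.ζ)) × Z → ℝ),
    GF F i₁ r w' e₀ L' K C₀ γ δ ε e₁ G₀ zx zt zs cz cζ cl' cl₂ G e →
    ∀ mu : ℕ, m₀ ≤ mu → e₀ = M * mu → mu ∣ L' → Cr * e₀ ≤ L' → L' ≤ E * e₀ →
    (Cr + Cj) * e₀ ≤ L' → e₁ ≤ η₁ * e₀ → Real.log (2 * C₀ + 1) ≤ η₁ * e₀ → γ ≤ η₁ * e₀ →
    ε ≤ η₁ → ((r - Pp w' e₀ L' : ℕ) : ℝ) ≤ e₀ →
    (∀ ω, ¬ Bad (G2 e₀ G (zx2 L' (fun ξ : ((Fin m → ℤ) × (ℕ × F.ζ)) × Z =>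
        ppos (2 * e₀ + (e₀ + L')) (chI i₁) ξ.1) (fun ξ => ξ.2)
          (trp F (Pp w' e₀ L') ω, zs (slam F (w' + 2 * e₀) ω)))) (fun _ => 0) 1 D
        (2 ^ (u * e₀) / 2 ^ L')) →
    (∀ R₁ R₂, R₁ ≤ R₂ → R₂ ≤ L' → mu ∣ R₁ → mu ∣ R₂ →
      Cnt (rf F i₁ (w' + 2 * e₀ + e₀ + R₂))
        (rg F i₁ (w' + 2 * e₀ + e₀ + R₁) (w' + 2 * e₀ + e₀ + R₂))
        (CH F.p (rf F i₁ (w' + 2 * e₀ + e₀ + R₂))
          (rg F i₁ (w' + 2 * e₀ + e₀ + R₁) (w' + 2 * e₀ + e₀ + R₂)) + η₁ * e₀)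
        (fun _ => True)) →
    (∀ k, mu * (k + 1) ≤ L' →
      Pool.KJ.OV F.p (fun ω => (trp F (Pp w' e₀ L') ω, zs (slam F (w' + 2 * e₀) ω))) L'
          (fun ξ : ((Fin m → ℤ) × (ℕ × F.ζ)) × Z => ppos (2 * e₀ + (e₀ + L')) (chI i₁) ξ.1)
          (fun ξ => wzz (2 * e₀) cz cζ (zx2 L' (fun ξ : ((Fin m → ℤ) × (ℕ × F.ζ)) × Z =>
            ppos (2 * e₀ + (e₀ + L')) (chI i₁) ξ.1) Prod.snd ξ))
          (zx2 L' (fun ξ : ((Fin m → ℤ) × (ℕ × F.ζ)) × Z =>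
            ppos (2 * e₀ + (e₀ + L')) (chI i₁) ξ.1) Prod.snd)
          (G2 e₀ G) (mu * k) (mu * (k + 1)) (η₁ * e₀) ∨
      (1 - 1 / w) * (mu * Real.log 2) ≤ CH F.p (rf F i₁ (w' + 2 * e₀ + e₀ + mu * (k + 1)))
          (rg F i₁ (w' + 2 * e₀ + e₀ + mu * k) (w' + 2 * e₀ + e₀ + mu * (k + 1)))) →
    CH F.p (rf F i₁ (Pp w' e₀ L')) (rg F i₁ (Pp w' e₀ L' - Cr * e₀) (Pp w' e₀ L')) ≤
      (1 - c) * (Cr * e₀ * Real.log 2) →
    ∃ B : F.Ω → Prop, 1 ≤ 4 * Cc * Pe F.p B ∧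
      Out J F i₁ r w' (Pp w' e₀ L' - (Cr + Cj) * e₀) B

/-- **The core of the lossy step at the top row.** All small quantities are measured in units of the
mesh `u`. -/
theorem core_evT (m D j w Cj Cr Cc K E M : ℕ) (c η₁ : ℝ) (m₀ : ℕ)
    (Out : ∀ (J : ℕ) (F : Fam m J) (_ : Fin m) (_ _ _ : ℕ), (F.Ω → Prop) → Prop)
    (hOut : ∀ (J : ℕ) (F : Fam m J) (i₁ : Fin m) (r w P : ℕ) (B : F.Ω → Prop)
      (hB : 0 < Pe F.p B) (B' : (Fam.sub F B hB).Ω → Prop), Out J (Fam.sub F B hB) i₁ r w P B' →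
      Out J F i₁ r w P (fun ω => ∃ h : B ω, B' ⟨ω, h⟩))
    (hm : 1 ≤ m)
    (hcho : (j + m).choose m < (D + m + 1).choose (m + 1)) (hj : 6 * m * D ≤ j) (hw : 1 ≤ w)
    (hCr : j + 1 ≤ Cr) (hE : 1 ≤ E) (hM : 1 ≤ M) (hc : 0 < c) (hη₁ : 0 < η₁)
    (hJ : JSFO m D (j + 1) w (3 + 2 * m + 2 * m ^ 2) c Cj Cr Cc K E M η₁ m₀ Out) :
    ∃ (s₀ : ℕ) (η U : ℝ), 0 < η ∧ ∀ (J : ℕ) (F : Fam m J) (i₁ : Fin m) (u e₀ w' L' r : ℕ)
      (A B₁ : F.Ω → Prop) (h γ : ℕ) (ψ g δ e e' s θ ξ : ℝ)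
      (G₀ : (Fin m → ℤ) × (ℕ × F.ζ) → MvPolynomial (Fin m) ℝ),
      -- the numbers
      U ≤ u → m₀ ≤ u → e₀ = M * u → u ∣ w' → u ∣ L' → (Cr + Cj) * e₀ ≤ L' → L' ≤ E * e₀ →
      Pp w' e₀ L' ≤ r → ((r - Pp w' e₀ L' : ℕ) : ℝ) ≤ e₀ → r ≤ J →
      -- the family
      F.Tr → F.Tm e' → F.Rb e → Ch F i₁ h A → 0 < ψ → Sp F (m - 2) ψ g A → 0 < Pe F.p A →
      0 < δ → δ < 1 / 2 → 1 / 2 ^ h + 2 * m * δ ≤ 1 / 2 ^ ⌊g * J⌋₊ →
      m.factorial * (6 * (3 + 2 * (m : ℝ) + 2 * m ^ 2)) ^ m ≤ δ ^ m * 2 ^ γ →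
      -- the event
      Sub B₁ A → Real.exp (-(ψ / 2 * J)) * Pe F.p A ≤ 3 / 4 * Pe F.p B₁ →
      θ * Pe F.p A ≤ 3 / 4 * Pe F.p B₁ → θ ≤ 1 → Real.exp (-s) ≤ 3 / 4 * Pe F.p B₁ →
      0 ≤ 4 * e + e' + s →
      -- the label
      (∀ y, (G₀ y).totalDegree ≤ K) →
      XLE F i₁ r w' (w' + 2 * e₀) (w' + 2 * e₀ + e₀) (Pp w' e₀ L') K (3 + 2 * m + 2 * m ^ 2) G₀
        B₁ →
      -- small quantities
      4 * e + e' + s ≤ η * u → γ ≤ η * u → 2 * Real.exp (-(ψ / 4 * J)) ≤ η → ξ ≤ η * u →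
      -- stable entropies
      (∀ a b, a ≤ b → b * u ≤ r →
        StE F.p θ ξ (F.X (b * u)) (fun ω => (F.X (a * u) ω, F.W ω)) A ∧
        StE F.p θ ξ (rf F i₁ (b * u)) (rg F i₁ (a * u) (b * u)) A) →
      -- own-visibility
      (∀ k, u * (k + 1) ≤ L' →
        CH (Pool.Agent.H49.Ent.cond F.p B₁ True)
          (kod F i₁ r (w' + 2 * e₀) (w' + 2 * e₀ + e₀ + u * k + s₀) G₀)
          (ptr F (w' + 2 * e₀ + e₀ + u * (k + 1))) ≤ η * u ∨
        ¬ Zm F (1 / (2 * w)) (w' + 2 * e₀ + e₀ + u * k + s₀)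
          (w' + 2 * e₀ + e₀ + u * (k + 1)) B₁) →
      -- the mean rate
      CH (Pool.Agent.H49.Ent.cond F.p A True) (F.X (Pp w' e₀ L'))
        (fun ω => (F.X (Pp w' e₀ L' - Cr * e₀) ω, F.W ω)) ≤
          (m - 2 * c) * (Cr * e₀ * Real.log 2) →
      ∃ A' : F.Ω → Prop, Sub A' B₁ ∧ 3 / 4 * Pe F.p B₁ ≤ 4 * Cc * Pe F.p A' ∧
        Out J F i₁ r w' (Pp w' e₀ L' - (Cr + Cj) * e₀) A' := by
  classical
  obtain ⟨C₀, hC₀⟩ : ∃ C₀ : ℝ, C₀ = 3 + 2 * m + 2 * m ^ 2 := ⟨_, rfl⟩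
  have hmr : (1 : ℝ) ≤ m := by exact_mod_cast hm
  have hC₀1 : 1 ≤ C₀ := by rw [hC₀]; nlinarith only [hmr]
  have hC₀2 : 2 ≤ C₀ := by rw [hC₀]; nlinarith only [hmr]
  have hMr : (1 : ℝ) ≤ M := by exact_mod_cast hM
  have hEr : (1 : ℝ) ≤ E := by exact_mod_cast hE
  have hwr : (1 : ℝ) ≤ w := by exact_mod_cast hw
  have hCrr : (1 : ℝ) ≤ Cr := by
    have : 1 ≤ Cr := by omega
    exact_mod_cast this
  have hl2 : (1 / 2 : ℝ) ≤ Real.log 2 := by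
    have := Real.log_two_gt_d9
    linarith only [this]
  have hl1 : Real.log 2 ≤ 1 := by
    have := Real.log_two_lt_d9
    linarith only [this]
  have hl3 : 0 ≤ Real.log (2 * C₀ + 1) := Real.log_nonneg (by linarith only [hC₀2])
  rw [← hC₀] at hJ
  obtain ⟨Cu, hCu, hfull⟩ := gf_full m C₀ hC₀1
  obtain ⟨Cb, hCb, hbadn⟩ := gf_bad m D j K C₀ hcho hj hC₀1
  obtain ⟨s₀, Co, hCo, hov⟩ := OV_famE m K
  obtain ⟨κb, Nb, ηb, Ub, hκb, hηb, hUb, hRR⟩ := RR_small m hm (E + 1) Cb (1 / 8) (by linarith only [hEr])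
    hCb (by norm_num)
  obtain ⟨κf, ηf, Uf, hκf, hηf, hUf, hFS⟩ := ful_small m (E + 1) Cu (c / 8) (by linarith only [hEr]) hCu
    (by linarith only [hc])
  obtain ⟨eN, heN⟩ : ∃ eN : ℝ, eN = Real.log (2 * ((m + 1) * C₀ + 1) + 1) := ⟨_, rfl⟩
  have heN0 : 0 ≤ eN := by
    rw [heN]
    refine Real.log_nonneg ?_
    have : 0 ≤ (m + 1) * C₀ := by positivity
    linarith only [this]
  have hcc : (0 : ℝ) ≤ cc m := by
    unfold cc
    have : (0 : ℝ) ≤ Real.log 100 := Real.log_nonneg (by norm_num)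
    positivity
  -- the smallness
  obtain ⟨η, hη⟩ : ∃ η, η = min (min (min ηb ηf) (min (η₁ / 4) (c / 32))) (1 / (16 * w)) :=
    ⟨_, rfl⟩
  have hη0 : 0 < η := by
    rw [hη]
    exact lt_min (lt_min (lt_min hηb hηf) (lt_min (by linarith only [hη₁]) (by linarith only [hc])))
      (by positivity)
  have hη1 : η ≤ ηb := by
    rw [hη]
    exact (min_le_left _ _).trans ((min_le_left _ _).trans (min_le_left _ _))
  have hη2 : η ≤ ηf := by
    rw [hη]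
    exact (min_le_left _ _).trans ((min_le_left _ _).trans (min_le_right _ _))
  have hη3 : η ≤ η₁ / 4 := by
    rw [hη]
    exact (min_le_left _ _).trans ((min_le_right _ _).trans (min_le_left _ _))
  have hη4 : η ≤ c / 32 := by
    rw [hη]
    exact (min_le_left _ _).trans ((min_le_right _ _).trans (min_le_right _ _))
  have hη5 : η ≤ 1 / (16 * w) := by rw [hη]; exact min_le_right _ _
  obtain ⟨U, hU⟩ : ∃ U : ℝ, U = 1 + Ub + Uf + Real.log (2 * C₀ + 1) / η + (cc m + Co) / η +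
      s₀ + m * s₀ / η + (eN + 2 * cc m) / η := ⟨_, rfl⟩
  refine ⟨s₀, η, U, hη0, ?_⟩
  intro J F i₁ u e₀ w' L' r A B₁ h γ ψ g δ e e' s θ ξ G₀ hUu hm₀ he₀ huw huL hCCL hLE hPr hrP hrJ
    hTr hTm hRb hCh hψ hSp hA0 hδ hδ2 hδg hγ hBA hPψ hPθ hθ1 hPs hes hG₀ hxle hes2 hγ2 hε2 hξ
    hst hOV hrate
  have hp := F.isLaw
  obtain ⟨Z, zx, zt, zs, cz, cζ, cl', cl₂, G, hxl⟩ := hxle
  rw [← hC₀] at hγ hxl
  -- consequences of `U ≤ u`
  have q1 : 0 ≤ Real.log (2 * C₀ + 1) / η := by positivity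
  have q2 : 0 ≤ (cc m + Co) / η := by positivity
  have q3 : (0 : ℝ) ≤ s₀ := Nat.cast_nonneg _
  have q4 : 0 ≤ m * s₀ / η := by positivity
  have q5 : 0 ≤ (eN + 2 * cc m) / η := by positivity
  have u1 : (1 : ℝ) ≤ u := by linarith only [hUb, hUf, hU, hUu, q1, q2, q4, q5]
  have u2 : Ub ≤ u := by linarith only [hUf, hU, hUu, hδ, hδ2, q1, q2, q4, q5]
  have u3 : Uf ≤ u := by linarith only [hUb, hU, hUu, hδ, hδ2, q1, q2, q4, q5]
  have u4 : Real.log (2 * C₀ + 1) ≤ η * u := by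
    have : Real.log (2 * C₀ + 1) / η ≤ u := by linarith only [hUb, hUf, hU, hUu, hδ, hδ2, q2, q4, q5]
    rw [div_le_iff₀ hη0] at this
    linarith only [this]
  have u5 : cc m + Co ≤ η * u := by
    have : (cc m + Co) / η ≤ u := by linarith only [hUb, hUf, hU, hUu, hδ, hδ2, q1, q4, q5]
    rw [div_le_iff₀ hη0] at this
    linarith only [this]
  have u6 : (s₀ : ℝ) ≤ u := by linarith only [hUb, hUf, hU, hUu, hδ, hδ2, q1, q2, q4, q5]
  have u7 : m * (s₀ : ℝ) ≤ η * u := by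
    have : m * s₀ / η ≤ u := by linarith only [hUb, hUf, hU, hUu, hδ, hδ2, q1, q2, q5]
    rw [div_le_iff₀ hη0] at this
    linarith only [this]
  have u8 : eN + 2 * cc m ≤ η * u := by
    have : (eN + 2 * cc m) / η ≤ u := by linarith only [hUb, hUf, hU, hUu, hδ, hδ2, q1, q2, q4]
    rw [div_le_iff₀ hη0] at this
    linarith only [this]
  have hu1 : 1 ≤ u := by exact_mod_cast u1
  have hs₀u : s₀ ≤ u := by exact_mod_cast u6
  have hue : u ≤ e₀ := by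
    rw [he₀]
    exact Nat.le_mul_of_pos_left u (by omega)
  have hue' : (u : ℝ) ≤ e₀ := by exact_mod_cast hue
  have hηe : η * u ≤ η * e₀ := mul_le_mul_of_nonneg_left hue' hη0.le
  have hLr : ((e₀ + L' : ℕ) : ℝ) ≤ (E + 1) * e₀ := by
    have : (L' : ℝ) ≤ E * e₀ := by exact_mod_cast hLE
    push_cast
    linarith only [this]
  have hε0 : 0 ≤ 2 * Real.exp (-(ψ / 4 * J)) := by positivity
  have hB10 : 0 < Pe F.p B₁ := by
    have := Real.exp_pos (-s)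
    linarith only [hPs, this]
  have hB1s : Real.exp (-s) ≤ Pe F.p B₁ := by linarith only [hPs, hB10]
  -- the bad sub-cubes
  obtain ⟨ec, hGF1⟩ := gf_sub (B := B₁) hTr hTm hRb hCh hψ hSp hBA (by linarith only [hPψ, hB10]) hB1s hPr hrJ hC₀2
    hG₀ hxl hδ hδ2 hδg hγ hes
  have hj1 : (j + 2) * e₀ ≤ e₀ + L' := by
    have h1 : (j + 1) * e₀ ≤ (Cr + Cj) * e₀ := Nat.mul_le_mul_right _ (by omega)
    have h2 : (j + 2) * e₀ = e₀ + (j + 1) * e₀ := by ring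
    omega
  have hbad1 := hbadn J (Fam.sub F B₁ hB10) i₁ r w' e₀ L' γ κb Nb δ _ _ G₀ Z zx zt zs cz cζ cl' cl₂
    G ec hκb hGF1 hj1
  have hRR1 := hRR (e₀ + L') γ (2 * Real.exp (-(ψ / 4 * J))) (4 * e + e' + s)
    (Real.log (2 * C₀ + 1)) e₀ hes hl3 hε0 hLr
    (hγ2.trans (hηe.trans (mul_le_mul_of_nonneg_right hη1 (Nat.cast_nonneg _))))
    (hε2.trans hη1)
    (hes2.trans (hηe.trans (mul_le_mul_of_nonneg_right hη1 (Nat.cast_nonneg _))))
    (u4.trans (hηe.trans (mul_le_mul_of_nonneg_right hη1 (Nat.cast_nonneg _))))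
    (u2.trans hue')
  have he₀pos : (0 : ℝ) < e₀ := by linarith only [hUb, hUf, hU, hUu, hδ, hδ2, q1, q2, q4, q5, hue']
  obtain ⟨bad, hbadd⟩ : ∃ bad : F.Ω → Prop, bad = fun ω => Bad (G2 e₀ G (zx2 L'
      (fun ξ : ((Fin m → ℤ) × (ℕ × F.ζ)) × Z => ppos (2 * e₀ + (e₀ + L')) (chI i₁) ξ.1)
        (fun ξ => ξ.2) (trp F (Pp w' e₀ L') ω, zs (slam F (w' + 2 * e₀) ω)))) (fun _ => 0) 1 D
        (2 ^ ((j + 1) * e₀) / 2 ^ L') := ⟨_, rfl⟩
  have hbad2 : Pe (Fam.sub F B₁ hB10).p (fun ω : {ω // B₁ ω} => bad ω.1) ≤ 1 / 4 := by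
    rw [hbadd]
    have h1 := hbad1.trans hRR1
    have h2 : Pe (Fam.sub F B₁ hB10).p (fun ω : {ω // B₁ ω} => Bad (G2 e₀ G (zx2 L'
      (fun ξ : ((Fin m → ℤ) × (ℕ × F.ζ)) × Z => ppos (2 * e₀ + (e₀ + L')) (chI i₁) ξ.1)
        (fun ξ => ξ.2) (trp F (Pp w' e₀ L') ω.1, zs (slam F (w' + 2 * e₀) ω.1)))) (fun _ => 0) 1 D
        (2 ^ ((j + 1) * e₀) / 2 ^ L')) * (e₀ * Real.log 2) ≤ 1 / 8 * e₀ := h1
    by_contra hcon
    push Not at hcon
    have h3 : 1 / 4 * (e₀ * (1 / 2 : ℝ)) < Pe (Fam.sub F B₁ hB10).p (fun ω : {ω // B₁ ω} =>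
      Bad (G2 e₀ G (zx2 L'
      (fun ξ : ((Fin m → ℤ) × (ℕ × F.ζ)) × Z => ppos (2 * e₀ + (e₀ + L')) (chI i₁) ξ.1)
        (fun ξ => ξ.2) (trp F (Pp w' e₀ L') ω.1, zs (slam F (w' + 2 * e₀) ω.1)))) (fun _ => 0) 1 D
        (2 ^ ((j + 1) * e₀) / 2 ^ L')) * (e₀ * Real.log 2) := by
      have h4 : (e₀ : ℝ) * (1 / 2) ≤ e₀ * Real.log 2 := mul_le_mul_of_nonneg_left hl2 he₀pos.le
      have h5 : (0 : ℝ) < e₀ * (1 / 2) := by positivity
      calc 1 / 4 * (e₀ * (1 / 2 : ℝ)) < _ * (e₀ * (1 / 2 : ℝ)) :=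
            mul_lt_mul_of_pos_right hcon h5
        _ ≤ _ := mul_le_mul_of_nonneg_left h4 (by linarith only [hB10, hδ, hδ2, hcon])
    linarith only [hB10, h2, h3]
  -- the good event
  obtain ⟨B₂, hB₂⟩ : ∃ B₂ : F.Ω → Prop, B₂ = fun ω => B₁ ω ∧ ¬ bad ω := ⟨_, rfl⟩
  have hP2 : 3 / 4 * Pe F.p B₁ ≤ Pe F.p B₂ := by
    rw [hB₂]
    exact ev_bad hB10 bad hbad2
  have hB21 : Sub B₂ B₁ := fun ω hω => by rw [hB₂] at hω; exact hω.1
  have hB2A : Sub B₂ A := hB21.trans hBA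
  have hB2s : Real.exp (-s) ≤ Pe F.p B₂ := hPs.trans hP2
  have hB20 : 0 < Pe F.p B₂ := sub_pos_of_exp hB2s
  have hB2θ : θ * Pe F.p A ≤ Pe F.p B₂ := hPθ.trans hP2
  obtain ⟨ec2, hGF2⟩ := gf_sub (B := B₂) hTr hTm hRb hCh hψ hSp hB2A (hPψ.trans hP2) hB2s hPr hrJ
    hC₀2 hG₀ (hxl.sub hB21) hδ hδ2 hδg hγ hes
  obtain ⟨e₁, he₁⟩ : ∃ e₁, e₁ = 4 * e + e' + s := ⟨_, rfl⟩
  rw [← he₁] at hGF2 hes hes2
  have hPJ := hGF2.PJ
  -- the rows of the mesh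
  obtain ⟨i', hi'⟩ := huw
  obtain ⟨l, hl⟩ := huL
  obtain ⟨b₀, hb₀⟩ : ∃ b₀, b₀ = i' + 2 * M + M := ⟨_, rfl⟩
  have hw2 : w' + 2 * e₀ + e₀ = b₀ * u := by rw [hi', he₀, hb₀]; ring
  have hPp : Pp w' e₀ L' = (b₀ + l) * u := by
    unfold Pp
    rw [hi', he₀, hb₀, hl]
    ring
  have hCrL : Cr * e₀ ≤ L' := (Nat.mul_le_mul_right _ (Nat.le_add_right _ _)).trans hCCL
  have hCrM : Cr * M ≤ l := by
    have h1 : Cr * M * u ≤ l * u := by
      rw [mul_assoc, ← he₀, Nat.mul_comm l u, ← hl]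
      exact hCrL
    exact Nat.le_of_mul_le_mul_right h1 (by omega)
  have hPR : Pp w' e₀ L' - Cr * e₀ = (b₀ + l - Cr * M) * u := by
    rw [hPp, he₀, Nat.sub_mul, mul_assoc]
  -- the defect of fullness
  have hfl := hfull J (Fam.sub F B₂ hB20) i₁ r w' e₀ L' K γ κf δ _ e₁ G₀ Z zx zt zs cz cζ cl' cl₂ G
    ec2 hκf hGF2
  obtain ⟨ef, hef⟩ : ∃ ef : ℝ, ef = m * e₁ + Cu * (((e₀ + L' : ℕ) : ℝ) / κf + γ + κf + 1 +
    2 * Real.exp (-(ψ / 4 * J)) * ((e₀ + L' : ℕ) : ℝ)) := ⟨_, rfl⟩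
  rw [← hef] at hfl
  have hef1 : ef ≤ c / 8 * e₀ := by
    rw [hef]
    exact hFS (e₀ + L') γ _ e₁ e₀ hes hε0 hLr
      (hγ2.trans (hηe.trans (mul_le_mul_of_nonneg_right hη2 (Nat.cast_nonneg _))))
      (hε2.trans hη2)
      (hes2.trans (hηe.trans (mul_le_mul_of_nonneg_right hη2 (Nat.cast_nonneg _))))
      (u3.trans hue')
  have hη₁e : η * u ≤ η₁ / 4 * e₀ :=
    hηe.trans (mul_le_mul_of_nonneg_right hη3 he₀pos.le)
  have hη₁0 : 0 ≤ η₁ / 4 * e₀ := by positivity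
  have key := hJ J (Fam.sub F B₂ hB20) i₁ r w' e₀ L' γ δ _ e₁ G₀ Z zx zt zs cz cζ cl' cl₂ G ec2
    hGF2 u hm₀ he₀ ⟨l, hl⟩ hCrL hLE hCCL (by linarith only [hγ2, hes2, hη₁e]) (by linarith only [hγ2, u4, hη₁e]) (by linarith only [hγ2, hη₁e]) (by linarith only [hη0, hη3, hε2])
    hrP
    (by
      rintro ⟨ω, hω⟩
      have h1 := hω
      rw [hB₂] at h1
      have h2 := h1.2
      rw [hbadd] at h2
      exact h2)
    (by
      intro R₁ R₂ h1 h2 h3 h4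
      obtain ⟨a, ha⟩ := h3
      obtain ⟨b, hb⟩ := h4
      have hab : a ≤ b := by
        have : a * u ≤ b * u := by rw [Nat.mul_comm a, Nat.mul_comm b, ← ha, ← hb]; exact h1
        exact Nat.le_of_mul_le_mul_right this (by omega)
      have e1 : w' + 2 * e₀ + e₀ + R₁ = (b₀ + a) * u := by rw [hw2, ha]; ring
      have e2 : w' + 2 * e₀ + e₀ + R₂ = (b₀ + b) * u := by rw [hw2, hb]; ring
      have h5 := (hst (b₀ + a) (b₀ + b) (by omega) (by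
        rw [← e2]
        unfold Pp at hPr
        omega)).2
      rw [e1, e2]
      have h6 := (h5.cnt hB2A hB2θ).toSub
      refine Cnt.mono ?_ h6
      have h7 : CH (Fam.sub F B₂ hB20).p (rf (Fam.sub F B₂ hB20) i₁ ((b₀ + b) * u))
          (rg (Fam.sub F B₂ hB20) i₁ ((b₀ + a) * u) ((b₀ + b) * u)) =
          CH (Pool.Agent.H49.Ent.cond F.p B₂ True) (rf F i₁ ((b₀ + b) * u))
            (rg F i₁ ((b₀ + a) * u) ((b₀ + b) * u)) :=
        sub_CH (rf F i₁ ((b₀ + b) * u)) (rg F i₁ ((b₀ + a) * u) ((b₀ + b) * u))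
      rw [h7]
      linarith only [hγ2, hξ, hη₁e])
    (by
      intro k hk
      rcases hOV k hk with hΦ | hnz
      · refine Or.inl (OV_mono ?_ (hov J (Fam.sub F B₂ hB20) i₁ r w' (w' + 2 * e₀) e₀
          (w' + 2 * e₀ + e₀) (2 * e₀ + (e₀ + L')) L' (Pp w' e₀ L') (u * k) (u * (k + 1)) e₁
          (4 / 3 * (η * u)) Z
          (fun ω => zs (slam (Fam.sub F B₂ hB20) (w' + 2 * e₀) ω)) zs G (wzz (2 * e₀) cz cζ) G₀
          rfl (by unfold Pp; omega) (by omega) rfl hPJ hGF2.tm ?_ (fun _ => rfl) hG₀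
          (fun ω => (hGF2.reg ω).deg) (fun ω => hGF2.germ ω) ?_ hk ?_))
        · linarith only [hγ2, u5, hes2, hη₁e]
        · intro ω
          simp only [wzz, zx2]
          rw [hGF2.cell ω, hGF2.side ω]
          refine Prod.ext ?_ (Prod.ext ?_ rfl)
          · exact (T1_div (Fam.sub F B₂ hB20) (w := w') (K := 2 * e₀)
              (by unfold Pp at hPJ; omega) ω).symm
          · funext i
            exact Xr_div (Fam.sub F B₂ hB20) (w := w') (L := 2 * e₀) (r := w' + 2 * e₀) rfl ω i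
        · rw [Nat.mul_add, Nat.mul_one]
          omega
        · have g1 : CH (Fam.sub F B₂ hB20).p (kod (Fam.sub F B₂ hB20) i₁ r (w' + 2 * e₀)
              (w' + 2 * e₀ + e₀ + u * k + s₀) G₀)
              (ptr (Fam.sub F B₂ hB20) (w' + 2 * e₀ + e₀ + u * (k + 1))) =
              CH (Pool.Agent.H49.Ent.cond F.p B₂ True) (kod F i₁ r (w' + 2 * e₀)
                (w' + 2 * e₀ + e₀ + u * k + s₀) G₀) (ptr F (w' + 2 * e₀ + e₀ + u * (k + 1))) :=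
            sub_CH (kod F i₁ r (w' + 2 * e₀) (w' + 2 * e₀ + e₀ + u * k + s₀) G₀)
              (ptr F (w' + 2 * e₀ + e₀ + u * (k + 1)))
          rw [g1]
          have g2 := Piece.CH_sub hp hB21 hB10 (kod F i₁ r (w' + 2 * e₀)
            (w' + 2 * e₀ + e₀ + u * k + s₀) G₀) (ptr F (w' + 2 * e₀ + e₀ + u * (k + 1)))
          have g3 : Pe F.p B₁ * CH (Pool.Agent.H49.Ent.cond F.p B₁ True) (kod F i₁ r (w' + 2 * e₀)
              (w' + 2 * e₀ + e₀ + u * k + s₀) G₀) (ptr F (w' + 2 * e₀ + e₀ + u * (k + 1))) ≤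
              4 / 3 * Pe F.p B₂ * (η * u) :=
            mul_le_mul (by linarith only [hP2]) hΦ (CH_nonneg (isLaw_cond hp hB10).nonneg _ _) (by linarith only [hB20])
          have g4 : Pe F.p B₂ * CH (Pool.Agent.H49.Ent.cond F.p B₂ True) (kod F i₁ r (w' + 2 * e₀)
              (w' + 2 * e₀ + e₀ + u * k + s₀) G₀) (ptr F (w' + 2 * e₀ + e₀ + u * (k + 1))) ≤
              Pe F.p B₂ * (4 / 3 * (η * u)) := by linarith only [g2, g3]
          exact le_of_mul_le_mul_left g4 hB20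
      · refine Or.inr ?_
        have e1 : w' + 2 * e₀ + e₀ + u * k = (b₀ + k) * u := by rw [hw2]; ring
        have e2 : w' + 2 * e₀ + e₀ + u * (k + 1) = (b₀ + (k + 1)) * u := by rw [hw2]; ring
        have hbr : (b₀ + (k + 1)) * u ≤ r := by
          rw [← e2]
          unfold Pp at hPr
          omega
        rw [e1, e2] at hnz ⊢
        unfold Zm at hnz
        push Not at hnz
        have h5 := (hst (b₀ + k) (b₀ + (k + 1)) (by omega) hbr).1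
        have h6 : CH (Pool.Agent.H49.Ent.cond F.p B₁ True) (F.X ((b₀ + (k + 1)) * u))
            (fun ω => (F.X ((b₀ + k) * u + s₀) ω, F.W ω)) ≤
            CH (Pool.Agent.H49.Ent.cond F.p B₁ True) (F.X ((b₀ + (k + 1)) * u))
              (fun ω => (F.X ((b₀ + k) * u) ω, F.W ω)) := by
          refine CH_mono_cond (isLaw_cond hp hB10).nonneg ?_
          intro ω ω' _ _ hh
          have h4 := Prod.ext_iff.mp hh
          refine Prod.ext ?_ h4.2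
          funext i
          exact X_coarse F (Nat.le_add_right _ _) (congrFun h4.1 i)
        have h7 := h5.le hp hA0 hB2A hB2θ
        have h7' := h5.ge hp hθ1 hBA hB10
        have h8 := rows_le_rf (Fam.sub F B₂ hB20) i₁ (R₁ := (b₀ + k) * u)
          (R₂ := (b₀ + (k + 1)) * u) (Nat.mul_le_mul_right _ (by omega)) (hbr.trans hrJ)
        have h9 : CH (Fam.sub F B₂ hB20).p ((Fam.sub F B₂ hB20).X ((b₀ + (k + 1)) * u))
            (fun ω => ((Fam.sub F B₂ hB20).X ((b₀ + k) * u) ω, (Fam.sub F B₂ hB20).W ω)) =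
            CH (Pool.Agent.H49.Ent.cond F.p B₂ True) (F.X ((b₀ + (k + 1)) * u))
              (fun ω => (F.X ((b₀ + k) * u) ω, F.W ω)) :=
          sub_CH (F.X ((b₀ + (k + 1)) * u)) (fun ω => (F.X ((b₀ + k) * u) ω, F.W ω))
        rw [h9] at h8
        have e3 : (((b₀ + (k + 1)) * u : ℕ) : ℝ) - (((b₀ + k) * u : ℕ) : ℝ) = u := by
          push_cast
          ring
        have e4 : (((b₀ + (k + 1)) * u : ℕ) : ℝ) - (((b₀ + k) * u + s₀ : ℕ) : ℝ) = u - s₀ := by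
          push_cast
          ring
        rw [e3] at h8
        rw [e4] at hnz
        -- the inequality
        have hwpos : (0 : ℝ) < w := by linarith only [hwr, hδ, hδ2]
        have f1 : (1 : ℝ) / (2 * w) * (u * Real.log 2) =
            (1 - 1 / (2 * w)) * (u * Real.log 2) - (1 - 1 / w) * (u * Real.log 2) := by
          field_simp
          ring
        have f2 : (u : ℝ) / (4 * w) ≤ 1 / (2 * w) * (u * Real.log 2) := by
          have : (u : ℝ) / (4 * w) = 1 / (2 * w) * (u * (1 / 2)) := by field_simp; norm_num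
          rw [this]
          exact mul_le_mul_of_nonneg_left (mul_le_mul_of_nonneg_left hl2 (Nat.cast_nonneg _))
            (by positivity)
        have f3 : η * u ≤ u / (16 * w) := by
          have := mul_le_mul_of_nonneg_right hη5 (show (0 : ℝ) ≤ u from Nat.cast_nonneg _)
          refine this.trans (le_of_eq ?_)
          ring
        have f4 : (m - 1 / (2 * (w : ℝ))) * (s₀ * Real.log 2) ≤ m * s₀ := by
          have g1 : (0 : ℝ) < 1 / (2 * w) := by positivity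
          have g2 : (s₀ : ℝ) * Real.log 2 ≤ s₀ := by
            have := mul_le_mul_of_nonneg_left hl1 q3
            linarith only [this]
          have g3 : (0 : ℝ) ≤ s₀ * Real.log 2 := by positivity
          calc (m - 1 / (2 * (w : ℝ))) * (s₀ * Real.log 2) ≤ m * (s₀ * Real.log 2) :=
                mul_le_mul_of_nonneg_right (by linarith only [g1]) g3
            _ ≤ m * s₀ := mul_le_mul_of_nonneg_left g2 (by linarith only [hmr, hδ, hδ2])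
        have f5 : (u : ℝ) / (16 * w) + u / (16 * w) + u / (16 * w) ≤ u / (4 * w) := by
          have : (u : ℝ) / (4 * w) = 4 * (u / (16 * w)) := by field_simp; norm_num
          rw [this]
          have : (0 : ℝ) ≤ u / (16 * w) := by positivity
          linarith only [hγ2, f3]
        have f6 : (m - 1 / (2 * (w : ℝ))) * ((u - s₀) * Real.log 2) =
            ((m : ℝ) - 1) * (u * Real.log 2) + (1 - 1 / (2 * w)) * (u * Real.log 2) -
              (m - 1 / (2 * (w : ℝ))) * (s₀ * Real.log 2) := by ring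
        linarith only [hB20, hξ, u7, hnz, h6, h7, h7', h8, f1, f2, f3, f4, f5])
    (by
      rw [hPR]
      have h1 := rf_thin (Fam.sub F B₂ hB20) i₁ (w := w' + 2 * e₀) (L := e₀ + L')
        (P := Pp w' e₀ L') (R := Pp w' e₀ L' - Cr * e₀) (by unfold Pp; omega) hPJ
        (by unfold Pp; omega) (Nat.sub_le _ _)
        (fun ω => zs (slam (Fam.sub F B₂ hB20) (w' + 2 * e₀) ω)) cz G (by linarith only [hC₀2, hδ, hδ2]) hGF2.cell
        hGF2.reg hGF2.near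
      rw [← heN] at h1
      have h2 := rf_le_rows (Fam.sub F B₂ hB20) i₁ hGF2.tm (w := w' + 2 * e₀)
        (P := Pp w' e₀ L') (R₁ := Pp w' e₀ L' - Cr * e₀) (R₂ := Pp w' e₀ L')
        (by unfold Pp; omega) (Nat.sub_le _ _) le_rfl hPJ
        (fun ω => zs (slam (Fam.sub F B₂ hB20) (w' + 2 * e₀) ω)) (ef := ef) (eN := eN)
        (by
          intro ω ω' _ _ hh
          have a1 := congrArg cz hh
          simp only at a1
          rw [hGF2.cell ω, hGF2.cell ω'] at a1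
          simp only [Prod.mk.injEq] at a1
          exact bcel_eq _ i₁ (by unfold Pp at hPJ; omega) a1.1 fun i _ => congrFun a1.2 i)
        (by
          intro ω ω' _ _ hh
          have a1 := congrArg cζ hh
          simp only at a1
          rw [hGF2.side ω, hGF2.side ω'] at a1
          exact a1)
        hfl h1
      have h3 : CH (Fam.sub F B₂ hB20).p ((Fam.sub F B₂ hB20).X (Pp w' e₀ L'))
            (fun ω => ((Fam.sub F B₂ hB20).X (Pp w' e₀ L' - Cr * e₀) ω,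
              (Fam.sub F B₂ hB20).W ω)) =
            CH (Pool.Agent.H49.Ent.cond F.p B₂ True) (F.X (Pp w' e₀ L'))
              (fun ω => (F.X (Pp w' e₀ L' - Cr * e₀) ω, F.W ω)) :=
        sub_CH (F.X (Pp w' e₀ L')) (fun ω => (F.X (Pp w' e₀ L' - Cr * e₀) ω, F.W ω))
      rw [h3] at h2
      have h4 := (hst (b₀ + l - Cr * M) (b₀ + l) (Nat.sub_le _ _) (by
        rw [← hPp]
        exact hPr)).1.ge hp hθ1 hB2A hB20
      rw [← hPR, ← hPp] at h4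
      have e1 : ((Pp w' e₀ L' : ℕ) : ℝ) - ((Pp w' e₀ L' - Cr * e₀ : ℕ) : ℝ) = Cr * e₀ := by
        rw [Nat.cast_sub (by unfold Pp; omega)]
        push_cast
        ring
      rw [e1] at h2
      rw [← hPR]
      have f1 : (e₀ : ℝ) / 2 ≤ Cr * e₀ * Real.log 2 := by
        have g1 : (1 : ℝ) * e₀ ≤ Cr * e₀ := mul_le_mul_of_nonneg_right hCrr he₀pos.le
        calc (e₀ : ℝ) / 2 = e₀ * (1 / 2) := by ring
          _ ≤ Cr * e₀ * Real.log 2 := mul_le_mul (by linarith only [g1]) hl2 (by norm_num) (by positivity)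
      have f2 := mul_le_mul_of_nonneg_left f1 hc.le
      have f3 : η * u ≤ c / 32 * e₀ := hηe.trans (mul_le_mul_of_nonneg_right hη4 he₀pos.le)
      have f4 : (m - 2 * c) * (Cr * e₀ * Real.log 2) = ((m : ℝ) - 1) * (Cr * e₀ * Real.log 2) +
          (1 - c) * (Cr * e₀ * Real.log 2) - c * (Cr * e₀ * Real.log 2) := by ring
      have f5 : 0 < c * e₀ := by positivity
      linarith only [hB20, hξ, hrate, u8, hes2, hef1, h2, h4, f2, f3, f5])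
  obtain ⟨B, hB1, hB3⟩ := key
  refine ⟨fun ω => ∃ h : B₂ ω, B ⟨ω, h⟩, fun ω hω => hB21 ω hω.1, ?_,
    hOut J F i₁ r w' _ B₂ hB20 B hB3⟩
  have h1 := sub_Pe hB20 B
  have h2 : Pe F.p B₂ * 1 ≤ Pe F.p B₂ * (4 * Cc * Pe (sp F.p B₂) B) :=
    mul_le_mul_of_nonneg_left hB1 hB20.le
  have h3 : 4 * Cc * Pe F.p (fun ω => ∃ h : B₂ ω, B ⟨ω, h⟩) =
      Pe F.p B₂ * (4 * Cc * Pe (sp F.p B₂) B) := by
    rw [h1]
    ring
  rw [h3]
  linarith only [hP2, h2]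

end Pool.FLF
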