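import Pool.Agent.H99.LST.JSF

/-!
# Events: sub-families, stable entropies
-/

set_option autoImplicit false

namespace Pool.FLF

open Finset Real
open Pool.Agent.H49.Ent Pool.Agent.H32.Dense Pool.STK Pool.KA Pool.KSAT Pool.K2S Pool.KS3
open Pool.KAL Pool.PB Pool.KST Pool.KA.TRC Pool.K2S.Rows Pool.OVN Pool.KAF

variable {m J : ℕ}

/-- The entropy of `f` given `g` is stable on the large sub-events, and it is the number of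
values. -/
def StE {Ω S T : Type} [Fintype Ω] (p : Ω → ℝ) (θ ξ : ℝ) (f : Ω → S) (g : Ω → T)
    (A : Ω → Prop) : Prop :=
  ∃ h : ℝ, Cnt f g h A ∧ ∀ B, Sub B A → θ * Pe p A ≤ Pe p B →
    h - ξ ≤ CH (Pool.Agent.H49.Ent.cond p B True) f g

section

variable {Ω S T : Type} [Fintype Ω] {p : Ω → ℝ} {θ ξ : ℝ} {f : Ω → S} {g : Ω → T}
    {A B : Ω → Prop}

theorem StE.cnt (h : StE p θ ξ f g A) (hB : Sub B A) (hP : θ * Pe p A ≤ Pe p B) :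
    Cnt f g (CH (Pool.Agent.H49.Ent.cond p B True) f g + ξ) B := by
  obtain ⟨h₀, h1, h2⟩ := h
  exact (Cnt.hered f g h₀ A B hB h1).mono (by linarith [h2 B hB hP])

theorem StE.le (h : StE p θ ξ f g A) (hp : IsLaw p) (hA : 0 < Pe p A) (hB : Sub B A)
    (hP : θ * Pe p A ≤ Pe p B) : CH (Pool.Agent.H49.Ent.cond p A True) f g ≤
      CH (Pool.Agent.H49.Ent.cond p B True) f g + ξ := by
  obtain ⟨h₀, h1, h2⟩ := h
  have := h1.CH_le hp hA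
  linarith [h2 B hB hP]

theorem StE.ge (h : StE p θ ξ f g A) (hp : IsLaw p) (hθ : θ ≤ 1) (hB : Sub B A)
    (hB0 : 0 < Pe p B) : CH (Pool.Agent.H49.Ent.cond p B True) f g ≤
      CH (Pool.Agent.H49.Ent.cond p A True) f g + ξ := by
  obtain ⟨h₀, h1, h2⟩ := h
  have h3 := (Cnt.hered f g h₀ A B hB h1).CH_le hp hB0
  have h4 := h2 A (fun _ h => h) (mul_le_of_le_one_left (Pe_nonneg hp A) hθ)
  linarith

end

lemma sub_pos_of_exp {F : Fam m J} {B : F.Ω → Prop} {s : ℝ} (h : Real.exp (-s) ≤ Pe F.p B) :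
    0 < Pe F.p B := lt_of_lt_of_le (Real.exp_pos _) h

/-- The exact label of a restricted family. -/
theorem XL.toSub {F : Fam m J} {i₁ : Fin m} {r w' w w₂ P K : ℕ} {C₀ : ℝ}
    {G₀ : (Fin m → ℤ) × (ℕ × F.ζ) → MvPolynomial (Fin m) ℝ} {A : F.Ω → Prop} {Z : Type}
    {zx zt : (Fin m → ℤ) × (ℕ × F.ζ) → Z}
    {zs : ((Fin m → ℝ) × (Fin m → ℝ)) × F.ζ × ℕ → Z} {cz : Z → ℕ × (Fin m → ℤ)}
    {cζ : Z → F.ζ} {cl' cl₂ : ((Fin m → ℝ) × (Fin m → ℝ)) × F.ζ × ℕ → Fin m → ℤ}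
    {G : Z → MvPolynomial (Fin m) ℝ}
    (h : XL F i₁ r w' w w₂ P K C₀ G₀ A zx zt zs cz cζ cl' cl₂ G) (hA : 0 < Pe F.p A) :
    XL (Fam.sub F A hA) i₁ r w' w w₂ P K C₀ G₀ (fun _ => True) zx zt zs cz cζ cl' cl₂ G :=
  ⟨fun ω _ => h.lab ω.1 ω.2, fun ω _ => h.tru ω.1 ω.2, fun ω _ => h.cell ω.1 ω.2,
    fun ω _ => h.side ω.1 ω.2, fun ω _ => h.reg ω.1 ω.2, fun ω _ => h.near ω.1 ω.2,
    fun ω _ => h.germ ω.1 ω.2, fun ω _ => h.long ω.1 ω.2, fun ω _ => h.subc ω.1 ω.2⟩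

/-- **The good family of a large event.** -/
theorem gf_sub {F : Fam m J} {i₁ : Fin m} {r w' e₀ L' K : ℕ} {C₀ : ℝ} {γ : ℕ}
    {G₀ : (Fin m → ℤ) × (ℕ × F.ζ) → MvPolynomial (Fin m) ℝ} {Z : Type}
    {zx zt : (Fin m → ℤ) × (ℕ × F.ζ) → Z}
    {zs : ((Fin m → ℝ) × (Fin m → ℝ)) × F.ζ × ℕ → Z} {cz : Z → ℕ × (Fin m → ℤ)} {cζ : Z → F.ζ}
    {cl' cl₂ : ((Fin m → ℝ) × (Fin m → ℝ)) × F.ζ × ℕ → Fin m → ℤ}
    {G : Z → MvPolynomial (Fin m) ℝ} {A B : F.Ω → Prop} {h : ℕ} {ψ g δ e e' s : ℝ}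
    (hTr : F.Tr) (hTm : F.Tm e') (hRb : F.Rb e) (hCh : Ch F i₁ h A) (hψ : 0 < ψ)
    (hSp : Sp F (m - 2) ψ g A) (hB : Sub B A)
    (hPB : Real.exp (-(ψ / 2 * J)) * Pe F.p A ≤ Pe F.p B) (hs : Real.exp (-s) ≤ Pe F.p B)
    (hP : Pp w' e₀ L' ≤ r) (hr : r ≤ J) (hC₀ : 2 ≤ C₀) (hG₀ : ∀ y, (G₀ y).totalDegree ≤ K)
    (hxl : XL F i₁ r w' (w' + 2 * e₀) (w' + 2 * e₀ + e₀) (Pp w' e₀ L') K C₀ G₀ B zx zt zs
      cz cζ cl' cl₂ G) (hδ : 0 < δ) (hδ2 : δ < 1 / 2)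
    (hδg : 1 / 2 ^ h + 2 * m * δ ≤ 1 / 2 ^ ⌊g * J⌋₊)
    (hγ : m.factorial * (6 * C₀) ^ m ≤ δ ^ m * 2 ^ γ) (he0 : 0 ≤ 4 * e + e' + s) :
    ∃ ec : ((Fin m → ℤ) × (ℕ × F.ζ)) × Z → ℝ,
      GF (Fam.sub F B (sub_pos_of_exp hs)) i₁ r w' e₀ L' K C₀ γ δ (2 * Real.exp (-(ψ / 4 * J)))
        (4 * e + e' + s) G₀ zx zt zs cz cζ cl' cl₂ G ec := by
  classical
  have hB0 : 0 < Pe F.p B := sub_pos_of_exp hs
  have hCB : Ch F i₁ h B := Ch.hered F i₁ h A B hB hCh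
  have hSB : Sp F (m - 2) (ψ - ψ / 2) g B := hSp.sub hB hPB
  obtain ⟨h1, h2⟩ := slb_of_sp hCB hSB hδ2 hδg (by linarith) w'
  obtain ⟨e₂, a1, a2, -, a4⟩ := ncf_of_stb F.isLaw hB0 (slam F w') (Fam.pt F) (lB (chI i₁)) h1 h2
  have hlaw := (Fam.sub F B hB0).isLaw
  obtain ⟨ec, b1, b2, b3⟩ := NCF.coarse hlaw a1 a4 a2
    (x' := fun ω : {ω // B ω} => (trp F (Pp w' e₀ L') ω.1, zs (slam F (w' + 2 * e₀) ω.1)))
    (by
      intro ω ω' _ _ hh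
      have hpt : Fam.pt F ω.1 = Fam.pt F ω'.1 := hh
      have hX : F.X J ω.1 = F.X J ω'.1 := (Prod.ext_iff.mp hpt).1
      have hW : F.W ω.1 = F.W ω'.1 := (Prod.ext_iff.mp hpt).2
      have hT : F.T ω.1 = F.T ω'.1 := (Prod.ext_iff.mp hW).1
      have hZ : F.Z ω.1 = F.Z ω'.1 := (Prod.ext_iff.mp hW).2
      refine Prod.ext ?_ ?_
      · refine Prod.ext ?_ (Prod.ext (T1_of_T F hT) hZ)
        funext j
        exact X_coarse F (hP.trans hr) (congrFun hX j)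
      · simp only
        rw [← hxl.lab ω.1 ω.2, ← hxl.lab ω'.1 ω'.2]
        have : ptr F r ω.1 = ptr F r ω'.1 := by
          refine Prod.ext ?_ hW
          funext j
          exact X_coarse F hr (congrFun hX j)
        rw [this])
  have e1 : (ψ - ψ / 2) * J / 2 = ψ / 4 * J := by ring
  rw [e1] at b2
  exact ⟨ec, hP, hr, hC₀, hG₀, hxl.toSub hB0,
    Pool.STPA.sub_Tm_of_reg hTr hTm hRb hB0 hs, he0, hδ, b1, b2, b3, hγ⟩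

/-- **Removing the bad sub-cubes.** -/
theorem ev_bad {F : Fam m J} {B : F.Ω → Prop} (hB : 0 < Pe F.p B) (bad : F.Ω → Prop)
    (h : Pe (Fam.sub F B hB).p (fun ω : {ω // B ω} => bad ω.1) ≤ 1 / 4) :
    3 / 4 * Pe F.p B ≤ Pe F.p (fun ω => B ω ∧ ¬ bad ω) := by
  classical
  have h1 := sub_Pe hB (fun ω : {ω // B ω} => bad ω.1)
  have h2 : Pe F.p (fun ω => B ω ∧ ¬ bad ω) = Pe F.p B -
      Pe F.p (fun ω => ∃ _ : B ω, bad ω) := by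
    rw [Pe_eq, Pe_eq, Pe_eq, ← Finset.sum_sub_distrib]
    refine Finset.sum_congr rfl fun ω _ => ?_
    by_cases a : B ω
    · by_cases b : bad ω
      · rw [if_neg (fun h => h.2 b), if_pos a, if_pos ⟨a, b⟩, sub_self]
      · rw [if_pos ⟨a, b⟩, if_pos a, if_neg (fun ⟨_, h⟩ => b h), sub_zero]
    · rw [if_neg (fun h => a h.1), if_neg a, if_neg (fun ⟨h, _⟩ => a h), sub_zero]
  have h3 : Pe F.p B * Pe (sp F.p B) (fun ω : {ω // B ω} => bad ω.1) ≤ Pe F.p B * (1 / 4) :=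
    mul_le_mul_of_nonneg_left h hB.le
  rw [h2]
  linarith

/-- Counts of a restricted family. -/
theorem Cnt.toSub {Ω S T : Type} {A : Ω → Prop} {f : Ω → S} {g : Ω → T} {h : ℝ}
    (H : Cnt f g h A) : Cnt (fun ω : {ω // A ω} => f ω.1) (fun ω => g ω.1) h (fun _ => True) := by
  obtain ⟨V, h1, h2⟩ := H
  exact ⟨V, h1, fun ω _ => h2 ω.1 ω.2⟩

end Pool.FLF
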