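import Pool.Agent.H18.PB.Clg
import Pool.Agent.H99.FLF.TRU

/-!
# Stable entropies

`Cnt f g h`: given `g` there are at most `exp h` values of `f` (a hereditary property). On an
event which is stable for these properties the conditional entropy of `f` given `g` is, up to one
step of the list, the logarithm of the number of values, for all large parts of the event.
-/

set_option autoImplicit false

namespace Pool.FLF

open Finset Real
open Pool.Agent.H49.Ent Pool.Agent.H32.Dense Pool.STK Pool.KA Pool.KSAT Pool.K2S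

section

variable {Ω S T : Type}

/-- Given `g` there are at most `exp h` values of `f`, on `A`. -/
def Cnt (f : Ω → S) (g : Ω → T) (h : ℝ) (A : Ω → Prop) : Prop :=
  ∃ V : T → Finset S, (∀ t, ((V t).card : ℝ) ≤ Real.exp h) ∧ ∀ ω, A ω → f ω ∈ V (g ω)

theorem Cnt.hered (f : Ω → S) (g : Ω → T) (h : ℝ) : Hered (Cnt f g h) := by
  rintro A B hB ⟨V, h1, h2⟩
  exact ⟨V, h1, fun ω hω => h2 ω (hB ω hω)⟩

theorem Cnt.mono {f : Ω → S} {g : Ω → T} {h h' : ℝ} {A : Ω → Prop} (hh : h ≤ h')
    (H : Cnt f g h A) : Cnt f g h' A := by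
  obtain ⟨V, h1, h2⟩ := H
  exact ⟨V, fun t => (h1 t).trans (Real.exp_le_exp.2 hh), h2⟩

variable [Fintype Ω]

lemma of_cond_pos {p : Ω → ℝ} {A : Ω → Prop} {ω : Ω}
    (hω : 0 < Pool.Agent.H49.Ent.cond p A True ω) : A ω ∧ p ω ≠ 0 := by
  unfold Pool.Agent.H49.Ent.cond at hω
  by_cases h : A ω = True
  · rw [if_pos h] at hω
    refine ⟨by rw [h]; trivial, fun h0 => ?_⟩
    rw [h0, zero_div] at hω
    exact lt_irrefl _ hω
  · rw [if_neg h] at hω
    exact absurd hω (lt_irrefl _)

/-- The entropy is at most the logarithm of the number of values. -/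
theorem Cnt.CH_le {p : Ω → ℝ} (hp : IsLaw p) {f : Ω → S} {g : Ω → T} {h : ℝ} {A : Ω → Prop}
    (hA : 0 < Pe p A) (H : Cnt f g h A) :
    CH (Pool.Agent.H49.Ent.cond p A True) f g ≤ h := by
  classical
  obtain ⟨V, h1, h2⟩ := H
  have hq := isLaw_cond hp hA
  refine (CH_le_card hq.nonneg hq.sum_one f g V fun ω hω => h2 ω (of_cond_pos hω).1).trans ?_
  refine (Ex_mono hq.nonneg fun ω hω => ?_).trans (le_of_eq (Ex_const hq.sum_one h))
  have h3 : 0 < (V (g ω)).card := Finset.card_pos.mpr ⟨_, h2 ω (of_cond_pos hω).1⟩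
  rw [← Real.log_exp h]
  exact Real.log_le_log (by exact_mod_cast h3) (h1 _)

/-- The conditional entropy is large if no large part has few values. -/
theorem CH_ge_of_not_cnt {p : Ω → ℝ} (hp : IsLaw p) {f : Ω → S} {g : Ω → T} {h θ : ℝ}
    (hh : 0 ≤ h) {B : Ω → Prop} (hB : 0 < Pe p B)
    (H : ∀ B', Sub B' B → θ * Pe p B ≤ Pe p B' → ¬ Cnt f g h B') :
    (1 - θ) * h ≤ CH (Pool.Agent.H49.Ent.cond p B True) f g := by
  classical
  obtain ⟨q, hqd⟩ : ∃ q, q = Pool.Agent.H49.Ent.cond p B True := ⟨_, rfl⟩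
  rw [← hqd]
  have hq : IsLaw q := by rw [hqd]; exact isLaw_cond hp hB
  have hq0 := hq.nonneg
  obtain ⟨gd, hgd⟩ : ∃ gd : Ω → Prop, gd = fun ω => 0 < q ω ∧
    Real.exp (-h) * law q g (g ω) ≤ law q (fun ω => (f ω, g ω)) (f ω, g ω) := ⟨_, rfl⟩
  obtain ⟨V, hV⟩ : ∃ V : T → Finset S, V = fun t => (univ.image f).filter fun s =>
    0 < law q g t ∧ Real.exp (-h) * law q g t ≤ law q (fun ω => (f ω, g ω)) (s, t) := ⟨_, rfl⟩
  have hcard : ∀ t, ((V t).card : ℝ) ≤ Real.exp h := by
    intro t
    by_cases ht : 0 < law q g t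
    · have h1 : (V t).card • (Real.exp (-h) * law q g t) ≤
          ∑ s ∈ V t, law q (fun ω => (f ω, g ω)) (s, t) := by
        refine Finset.card_nsmul_le_sum _ _ _ fun s hs => ?_
        rw [hV] at hs
        exact (Finset.mem_filter.mp hs).2.2
      have h2 : ∑ s ∈ V t, law q (fun ω => (f ω, g ω)) (s, t) ≤ law q g t := by
        unfold law
        rw [Finset.sum_comm]
        refine Finset.sum_le_sum fun ω _ => ?_
        by_cases hg : g ω = t
        · rw [if_pos hg]
          have h3 : (∑ s ∈ V t, if (f ω, g ω) = (s, t) then q ω else 0) ≤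
              ∑ s ∈ V t, if s = f ω then q ω else 0 := by
            refine Finset.sum_le_sum fun s _ => ?_
            by_cases hs : s = f ω
            · rw [if_pos hs]
              split_ifs
              exacts [le_rfl, hq0 ω]
            · rw [if_neg hs, if_neg]
              intro h4
              exact hs (Prod.ext_iff.mp h4).1.symm
          refine (le_trans (le_of_eq (Finset.sum_congr rfl fun s _ => by congr)) h3).trans ?_
          rw [Finset.sum_ite_eq' (V t) (f ω)]
          split_ifs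
          exacts [le_rfl, hq0 ω]
        · rw [if_neg hg]
          refine le_of_eq (Finset.sum_eq_zero fun s _ => ?_)
          rw [if_neg]
          intro h4
          exact hg (Prod.ext_iff.mp h4).2
      rw [nsmul_eq_mul] at h1
      have h3 := h1.trans h2
      have h4 : ((V t).card : ℝ) * Real.exp (-h) ≤ 1 := by
        have h5 : ((V t).card : ℝ) * Real.exp (-h) * law q g t ≤ 1 * law q g t := by
          rw [one_mul, mul_assoc]
          exact h3
        exact le_of_mul_le_mul_right h5 ht
      rw [Real.exp_neg, ← div_eq_mul_inv, div_le_one (Real.exp_pos _)] at h4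
      exact h4
    · have h1 : V t = ∅ := by
        rw [hV]
        exact Finset.filter_false_of_mem fun s _ h => ht h.1
      rw [h1, Finset.card_empty, Nat.cast_zero]
      exact (Real.exp_pos _).le
  have hmem : ∀ ω, gd ω → f ω ∈ V (g ω) := by
    intro ω hω
    rw [hgd] at hω
    rw [hV, Finset.mem_filter]
    exact ⟨Finset.mem_image_of_mem f (Finset.mem_univ ω), law_pos hq0 g hω.1, hω.2⟩
  have hgB : Sub gd B := by
    intro ω hω
    rw [hgd] at hω
    have h1 : 0 < q ω := hω.1
    rw [hqd] at h1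
    exact (of_cond_pos h1).1
  have hlt : Pe p gd < θ * Pe p B := by
    by_contra hcon
    push Not at hcon
    exact H gd hgB hcon ⟨V, hcard, hmem⟩
  have hqg : Pe q gd ≤ θ := by
    have h1 : Pe q gd = Pe p gd / Pe p B := by
      rw [hqd, Pe_cond]
      have h2 : (fun ω => B ω ∧ gd ω) = gd := by
        funext ω
        exact propext ⟨fun h => h.2, fun h => ⟨hgB ω h, h⟩⟩
      rw [h2]
    rw [h1, div_le_iff₀ hB]
    exact hlt.le
  rw [CH_eq_neg_sum hq0]
  have h5 : ∀ ω, (if gd ω then 0 else q ω * h) ≤ q ω * -Real.log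
      (law q (fun ω => (f ω, g ω)) (f ω, g ω) / law q g (g ω)) := by
    intro ω
    rcases (hq0 ω).eq_or_lt with h0 | h0
    · rw [← h0]
      simp
    · have l1 := law_pos hq0 g h0
      have l2 := law_pos hq0 (fun ω => (f ω, g ω)) h0
      have l3 : law q (fun ω => (f ω, g ω)) (f ω, g ω) ≤ law q g (g ω) := by
        unfold law
        refine Finset.sum_le_sum fun ω' _ => ?_
        by_cases hh : (f ω', g ω') = (f ω, g ω)
        · rw [if_pos hh, if_pos (Prod.ext_iff.mp hh).2]
        · rw [if_neg hh]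
          split_ifs
          exacts [hq0 _, le_rfl]
      split_ifs with hg
      · refine mul_nonneg h0.le (neg_nonneg.mpr (Real.log_nonpos (by positivity) ?_))
        rw [div_le_one l1]
        exact l3
      · refine mul_le_mul_of_nonneg_left ?_ h0.le
        have h6 : law q (fun ω => (f ω, g ω)) (f ω, g ω) < Real.exp (-h) * law q g (g ω) := by
          by_contra hcon
          push Not at hcon
          refine hg ?_
          rw [hgd]
          exact ⟨h0, hcon⟩
        have h7 : law q (fun ω => (f ω, g ω)) (f ω, g ω) / law q g (g ω) ≤ Real.exp (-h) := by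
          rw [div_le_iff₀ l1]
          exact h6.le
        have h8 := Real.log_le_log (div_pos l2 l1) h7
        rw [Real.log_exp] at h8
        linarith
  unfold Ex
  refine le_trans ?_ (Finset.sum_le_sum fun ω _ => h5 ω)
  have h9 : ∑ ω, (if gd ω then 0 else q ω * h) = (1 - Pe q gd) * h := by
    rw [Pe_eq, ← hq.sum_one, ← Finset.sum_sub_distrib, Finset.sum_mul]
    refine Finset.sum_congr rfl fun ω _ => ?_
    split_ifs
    · ring
    · ring
  rw [h9]
  exact mul_le_mul_of_nonneg_right (by linarith) hh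

/-- **Stable entropies.** -/
theorem ent_stb {p : Ω → ℝ} (hp : IsLaw p) {f : Ω → S} {g : Ω → T} {A : Ω → Prop} {κ η : ℝ}
    (hη : 0 ≤ η) {M : ℕ} (hA : 0 < Pe p A) (hM : Cnt f g (M * η) A)
    (hs : ∀ k : ℕ, k ≤ M → Stb p κ A (Cnt f g (k * η))) :
    ∃ h : ℝ, 0 ≤ h ∧ Cnt f g h A ∧ ∀ B, Sub B A → Real.exp (-(κ / 2)) * Pe p A ≤ Pe p B →
      h - η - Real.exp (-(κ / 2)) * h ≤ CH (Pool.Agent.H49.Ent.cond p B True) f g := by
  classical
  have hex : ∃ k : ℕ, Cnt f g (k * η) A := ⟨M, hM⟩
  obtain ⟨k, hk⟩ : ∃ k, k = Nat.find hex := ⟨_, rfl⟩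
  have hkA : Cnt f g (k * η) A := by rw [hk]; exact Nat.find_spec hex
  have hkM : k ≤ M := by rw [hk]; exact Nat.find_min' hex hM
  refine ⟨k * η, by positivity, hkA, fun B hB hP => ?_⟩
  have hB0 : 0 < Pe p B := lt_of_lt_of_le (mul_pos (Real.exp_pos _) hA) hP
  rcases Nat.eq_zero_or_pos k with h0 | h0
  · rw [h0]
    simp only [Nat.cast_zero, zero_mul, mul_zero, sub_zero, zero_sub]
    have h1 := CH_nonneg (isLaw_cond hp hB0).nonneg f g
    linarith
  · have hnk : ¬ Cnt f g ((k - 1 : ℕ) * η) A := by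
      rw [hk] at h0 ⊢
      exact Nat.find_min hex (by omega)
    have h1 := CH_ge_of_not_cnt hp (f := f) (g := g) (h := (k - 1 : ℕ) * η)
      (θ := Real.exp (-(κ / 2))) (by positivity) hB0 (by
        intro B' hB' hP' hC
        rcases hs (k - 1) (by omega) with h2 | h2
        · exact hnk h2
        · refine h2 B' (hB'.trans hB) ?_ hC
          refine le_trans ?_ hP'
          refine le_trans (le_of_eq ?_) (mul_le_mul_of_nonneg_left hP (Real.exp_pos _).le)
          rw [← mul_assoc, ← Real.exp_add]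
          congr 2
          ring)
    have h2 : ((k - 1 : ℕ) : ℝ) = k - 1 := by
      rw [Nat.cast_sub h0]
      push_cast
      rfl
    rw [h2] at h1
    have h3 : 0 < Real.exp (-(κ / 2)) := Real.exp_pos _
    have h4 : 0 ≤ Real.exp (-(κ / 2)) * η := by positivity
    nlinarith

end

end Pool.FLF
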