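import Pool.Agent.H99.LST.OVT

/-!
# Families in which the exact label holds for all samples

`GF`: the data for the linear step. `step0`, `step`: the hypotheses of the step; `full`: fullness
of the leaves; `badb`: most sub-cubes are not bad.
-/

set_option autoImplicit false

namespace Pool.FLF

open Finset Real
open Pool.Agent.H49.Ent Pool.Agent.H32.Dense Pool.STK Pool.KA Pool.KSAT Pool.K2S Pool.KS3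
open Pool.KAL Pool.PB Pool.KST Pool.KA.TRC Pool.K2S.Rows Pool.OVN Pool.KAF

variable {m J : ℕ}

/-- The number of the last row of the label. -/
def Pp (w' e₀ L' : ℕ) : ℕ := w' + (2 * e₀ + (e₀ + L'))

/-- The data for the linear step, for a family. -/
structure GF (F : Fam m J) (i₁ : Fin m) (r w' e₀ L' K : ℕ) (C₀ : ℝ) (γ : ℕ) (δ ε e₁ : ℝ)
    (G₀ : (Fin m → ℤ) × (ℕ × F.ζ) → MvPolynomial (Fin m) ℝ) {Z : Type}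
    (zx zt : (Fin m → ℤ) × (ℕ × F.ζ) → Z)
    (zs : ((Fin m → ℝ) × (Fin m → ℝ)) × F.ζ × ℕ → Z) (cz : Z → ℕ × (Fin m → ℤ)) (cζ : Z → F.ζ)
    (cl' cl₂ : ((Fin m → ℝ) × (Fin m → ℝ)) × F.ζ × ℕ → Fin m → ℤ)
    (G : Z → MvPolynomial (Fin m) ℝ) (e : ((Fin m → ℤ) × (ℕ × F.ζ)) × Z → ℝ) : Prop where
  hP : Pp w' e₀ L' ≤ r
  hr : r ≤ J
  hC₀ : 2 ≤ C₀
  hG₀ : ∀ y, (G₀ y).totalDegree ≤ K
  xl : XL F i₁ r w' (w' + 2 * e₀) (w' + 2 * e₀ + e₀) (Pp w' e₀ L') K C₀ G₀ (fun _ => True) zx zt zs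
    cz cζ cl' cl₂ G
  tm : F.Tm e₁
  e₁0 : 0 ≤ e₁
  hδ : 0 < δ
  he : ∀ ξ, 0 ≤ e ξ
  hex : Ex F.p (fun ω => e (trp F (Pp w' e₀ L') ω, zs (slam F (w' + 2 * e₀) ω))) ≤ ε
  hnc : NCF F.p (slam F w') (fun ω => (trp F (Pp w' e₀ L') ω, zs (slam F (w' + 2 * e₀) ω)))
    (lB (chI i₁)) δ e
  hγ : m.factorial * (6 * C₀) ^ m ≤ δ ^ m * 2 ^ γ

section

variable {F : Fam m J} {i₁ : Fin m} {r w' e₀ L' K : ℕ} {C₀ : ℝ} {γ : ℕ} {δ ε e₁ : ℝ}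
    {G₀ : (Fin m → ℤ) × (ℕ × F.ζ) → MvPolynomial (Fin m) ℝ} {Z : Type}
    {zx zt : (Fin m → ℤ) × (ℕ × F.ζ) → Z}
    {zs : ((Fin m → ℝ) × (Fin m → ℝ)) × F.ζ × ℕ → Z} {cz : Z → ℕ × (Fin m → ℤ)} {cζ : Z → F.ζ}
    {cl' cl₂ : ((Fin m → ℝ) × (Fin m → ℝ)) × F.ζ × ℕ → Fin m → ℤ}
    {G : Z → MvPolynomial (Fin m) ℝ} {e : ((Fin m → ℤ) × (ℕ × F.ζ)) × Z → ℝ}

lemma GF.PJ (h : GF F i₁ r w' e₀ L' K C₀ γ δ ε e₁ G₀ zx zt zs cz cζ cl' cl₂ G e) :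
    Pp w' e₀ L' ≤ J := h.hP.trans h.hr

lemma GF.cell (h : GF F i₁ r w' e₀ L' K C₀ γ δ ε e₁ G₀ zx zt zs cz cζ cl' cl₂ G e) (ω : F.Ω) :
    cz (zs (slam F (w' + 2 * e₀) ω)) = (F.T1 (w' + 2 * e₀) ω, F.X (w' + 2 * e₀) ω) := by
  rw [← h.xl.lab ω trivial]
  exact h.xl.cell ω trivial

lemma GF.side (h : GF F i₁ r w' e₀ L' K C₀ γ δ ε e₁ G₀ zx zt zs cz cζ cl' cl₂ G e) (ω : F.Ω) :
    cζ (zs (slam F (w' + 2 * e₀) ω)) = F.Z ω := by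
  rw [← h.xl.lab ω trivial]
  exact h.xl.side ω trivial

lemma GF.reg (h : GF F i₁ r w' e₀ L' K C₀ γ δ ε e₁ G₀ zx zt zs cz cζ cl' cl₂ G e) (ω : F.Ω) :
    RegG (G (zs (slam F (w' + 2 * e₀) ω))) (fun _ => 0) 1 K C₀ := by
  rw [← h.xl.lab ω trivial]
  exact h.xl.reg ω trivial

lemma GF.near (h : GF F i₁ r w' e₀ L' K C₀ γ δ ε e₁ G₀ zx zt zs cz cζ cl' cl₂ G e) (ω : F.Ω) :
    |rp (2 ^ (e₀ + L')) (ppos (e₀ + L') (chI i₁)) (trp F (Pp w' e₀ L') ω) none -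
      MvPolynomial.eval (fun j => rp (2 ^ (e₀ + L')) (ppos (e₀ + L') (chI i₁))
        (trp F (Pp w' e₀ L') ω) (some j)) (G (zs (slam F (w' + 2 * e₀) ω)))| ≤
          C₀ / 2 ^ (e₀ + L') := by
  have h1 := h.xl.near ω trivial
  have h2 : Pp w' e₀ L' - (w' + 2 * e₀) = e₀ + L' := by unfold Pp; omega
  rw [h2, h.xl.lab ω trivial] at h1
  exact h1

lemma GF.germ (h : GF F i₁ r w' e₀ L' K C₀ γ δ ε e₁ G₀ zx zt zs cz cζ cl' cl₂ G e) (ω : F.Ω)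
    (y : Fin m → ℝ) (hy : ∀ j, |y j| ≤ 1) :
    |MvPolynomial.eval y (G (zs (slam F (w' + 2 * e₀) ω))) - MvPolynomial.eval y
      (grI i₁ (w' + 2 * e₀) (F.T1 (w' + 2 * e₀) ω, F.X (w' + 2 * e₀) ω) (G₀ (ptr F r ω)))| ≤
        1 / 2 ^ (Pp w' e₀ L' - (w' + 2 * e₀)) := by
  rw [← h.xl.lab ω trivial]
  exact h.xl.germ ω trivial y hy

/-- **The hypotheses of the step**, before passing to sub-cubes. -/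
theorem GF.step0 (h : GF F i₁ r w' e₀ L' K C₀ γ δ ε e₁ G₀ zx zt zs cz cζ cl' cl₂ G e) {κ : ℕ}
    (hκ : 1 ≤ κ) (N : ℕ) :
    StepH m (2 * e₀) (e₀ + L') C₀ K κ γ N δ ε e₁ (Real.log (2 * C₀ + 1)) F.p (slam F w')
      (fun ω => (trp F (Pp w' e₀ L') ω, zs (slam F (w' + 2 * e₀) ω)))
      (fun ξ => pT (2 * e₀ + (e₀ + L')) ξ.1)
      (fun ξ => ppos (2 * e₀ + (e₀ + L')) (chI i₁) ξ.1) (lA w' (chI i₁) cl') (lB (chI i₁))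
      (fun ξ => ξ.2) (fun l t => zs (l.1, l.2.1, 2 ^ (2 * e₀) * l.2.2 + t))
      (fun y => czo (2 * e₀) (chI i₁) (cz y)) G e :=
  stepH_fam F i₁ (w := w') (a := 2 * e₀) (L := e₀ + L') (P := Pp w' e₀ L') rfl h.PJ cl'
    (fun ω => h.xl.long ω trivial) (fun ω => zs (slam F (w' + 2 * e₀) ω)) zs (fun _ => rfl) cz cζ
    h.cell h.side G h.hC₀ h.reg h.near h.hδ e h.he h.hex h.hnc h.hγ hκ h.tm h.e₁0

/-- **The hypotheses of the step** in the sub-cubes. -/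
theorem GF.step (h : GF F i₁ r w' e₀ L' K C₀ γ δ ε e₁ G₀ zx zt zs cz cζ cl' cl₂ G e) {κ : ℕ}
    (hκ : 1 ≤ κ) (N : ℕ) :
    StepH m (3 * e₀) L' C₀ K κ γ N δ ε e₁ (Real.log (2 * C₀ + 1)) F.p (slam F w')
      (fun ω => (trp F (Pp w' e₀ L') ω, zs (slam F (w' + 2 * e₀) ω)))
      (fun ξ => pT (2 * e₀ + (e₀ + L')) ξ.1)
      (fun ξ => ppos (2 * e₀ + (e₀ + L')) (chI i₁) ξ.1) (lA w' (chI i₁) cl') (lB (chI i₁))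
      (zx2 L' (fun ξ : ((Fin m → ℤ) × (ℕ × F.ζ)) × Z =>
        ppos (2 * e₀ + (e₀ + L')) (chI i₁) ξ.1) (fun ξ => ξ.2))
      (zl2 e₀ (fun l t => zs (l.1, l.2.1, 2 ^ (2 * e₀) * l.2.2 + t))
        (fun (l : ((Fin m → ℝ) × (Fin m → ℝ)) × F.ζ × ℕ) (t : ℕ) => czo (2 * e₀ + e₀) (chI i₁)
          (2 ^ (2 * e₀ + e₀) * l.2.2 + t, cl₂ (l.1, l.2.1, 2 ^ (2 * e₀ + e₀) * l.2.2 + t))))
      cz2 (G2 e₀ G) e := by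
  have h1 := StepH.subc (h.step0 hκ N) (u := e₀) (L' := L') rfl
    (fun (l : ((Fin m → ℝ) × (Fin m → ℝ)) × F.ζ × ℕ) (t : ℕ) => czo (2 * e₀ + e₀) (chI i₁)
        (2 ^ (2 * e₀ + e₀) * l.2.2 + t, cl₂ (l.1, l.2.1, 2 ^ (2 * e₀ + e₀) * l.2.2 + t)))
    (fun ω => cel_fam F i₁ (w := w') (a := 2 * e₀) (L := e₀ + L') (P := Pp w' e₀ L') (u := e₀)
      (L' := L') rfl h.PJ rfl (fun ω => zs (slam F (w' + 2 * e₀) ω)) cl₂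
      (fun ω => h.xl.subc ω trivial) ω)
  have e3 : 2 * e₀ + e₀ = 3 * e₀ := by ring
  rw [e3] at h1
  rw [e3]
  exact h1

end

/-- **Fullness of the leaves.** -/
theorem gf_full (m : ℕ) (C₀ : ℝ) (hC₀ : 1 ≤ C₀) : ∃ Cu : ℝ, 0 ≤ Cu ∧
    ∀ (J : ℕ) (F : Fam m J) (i₁ : Fin m) (r w' e₀ L' K : ℕ) (γ κ : ℕ) (δ ε e₁ : ℝ)
      (G₀ : (Fin m → ℤ) × (ℕ × F.ζ) → MvPolynomial (Fin m) ℝ) (Z : Type)
      (zx zt : (Fin m → ℤ) × (ℕ × F.ζ) → Z)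
      (zs : ((Fin m → ℝ) × (Fin m → ℝ)) × F.ζ × ℕ → Z) (cz : Z → ℕ × (Fin m → ℤ))
      (cζ : Z → F.ζ)
      (cl' cl₂ : ((Fin m → ℝ) × (Fin m → ℝ)) × F.ζ × ℕ → Fin m → ℤ)
      (G : Z → MvPolynomial (Fin m) ℝ) (e : ((Fin m → ℤ) × (ℕ × F.ζ)) × Z → ℝ), 1 ≤ κ →
      GF F i₁ r w' e₀ L' K C₀ γ δ ε e₁ G₀ zx zt zs cz cζ cl' cl₂ G e →
      m * ((((Pp w' e₀ L' : ℕ) : ℝ) - ((w' + 2 * e₀ : ℕ) : ℝ)) * Real.log 2) -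
        (m * e₁ + Cu * (((e₀ + L' : ℕ) : ℝ) / κ + γ + κ + 1 + ε * ((e₀ + L' : ℕ) : ℝ))) ≤
        CH F.p (bcel F i₁ (Pp w' e₀ L')) (fun ω => zs (slam F (w' + 2 * e₀) ω)) := by
  classical
  have h3C : (1 : ℝ) ≤ 3 * C₀ := by linarith
  obtain ⟨Cu, hCu, hful⟩ := fulh_thm m (3 * C₀) h3C
  refine ⟨Cu, hCu, ?_⟩
  intro J F i₁ r w' e₀ L' K γ κ δ ε e₁ G₀ Z zx zt zs cz cζ cl' cl₂ G e hκ h
  have h0 := F.isLaw.nonneg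
  have hF := h.step0 hκ 0
  have hγ3 : m.factorial * (3 * C₀) ^ m ≤ δ ^ m * 2 ^ γ := by
    refine le_trans ?_ h.hγ
    have h1 : (0 : ℝ) ≤ m.factorial := Nat.cast_nonneg _
    refine mul_le_mul_of_nonneg_left ?_ h1
    exact pow_le_pow_left₀ (by linarith) (by linarith) _
  have hfu := hful F.Ω _ _ Z F.p _ _ _ _ _ _
    (fun ξ : ((Fin m → ℤ) × (ℕ × F.ζ)) × Z => ξ.2)
    (fun l : (((Fin m → ℝ) × (Fin m → ℝ)) × F.ζ × ℕ) × ℕ =>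
      zs (l.1.1, l.1.2.1, 2 ^ (2 * e₀) * l.1.2.2 + l.2)) (e₀ + L') κ γ δ ε e₁ e
    (hF.step.small hC₀)
    (fun ω _ => hF.step.lab ω) hF.hδ hF.he hF.hex (NCF_small hF.hnc) hγ3 hF.hκ hF.he₁
  have e1 : ((Pp w' e₀ L' : ℕ) : ℝ) - ((w' + 2 * e₀ : ℕ) : ℝ) = ((e₀ + L' : ℕ) : ℝ) := by
    unfold Pp
    push_cast
    ring
  rw [e1]
  have h2 : CH F.p (fun ω => bas (posS (fun ξ : ((Fin m → ℤ) × (ℕ × F.ζ)) × Z =>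
      ppos (2 * e₀ + (e₀ + L')) (chI i₁) ξ.1) (e₀ + L'))
      (trp F (Pp w' e₀ L') ω, zs (slam F (w' + 2 * e₀) ω)))
      (fun ω => zs (slam F (w' + 2 * e₀) ω)) ≤
      CH F.p (bcel F i₁ (Pp w' e₀ L')) (fun ω => zs (slam F (w' + 2 * e₀) ω)) := by
    refine CH_mono_left h0 ?_
    intro ω ω' _ _ hh
    have h3 := (Prod.ext_iff.mp hh).1
    simp only at h3
    funext i
    have h4 := posS_ppos (2 * e₀) (e₀ + L') (chI i₁)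
      (trp F (Pp w' e₀ L') ω, zs (slam F (w' + 2 * e₀) ω)) (some i)
    have h5 := posS_ppos (2 * e₀) (e₀ + L') (chI i₁)
      (trp F (Pp w' e₀ L') ω', zs (slam F (w' + 2 * e₀) ω')) (some i)
    have h6 := ppos_of_bcel F i₁ (s := e₀ + L') h.PJ h3 i
    exact h4.trans (h6.trans h5.symm)
  linarith

/-- **Most sub-cubes are not bad.** -/
theorem gf_bad (m D j K : ℕ) (C₀ : ℝ) (hcho : (j + m).choose m < (D + m + 1).choose (m + 1))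
    (hj : 6 * m * D ≤ j) (hC₀ : 1 ≤ C₀) : ∃ C : ℝ, 0 ≤ C ∧
    ∀ (J : ℕ) (F : Fam m J) (i₁ : Fin m) (r w' e₀ L' : ℕ) (γ κ N : ℕ) (δ ε e₁ : ℝ)
      (G₀ : (Fin m → ℤ) × (ℕ × F.ζ) → MvPolynomial (Fin m) ℝ) (Z : Type)
      (zx zt : (Fin m → ℤ) × (ℕ × F.ζ) → Z)
      (zs : ((Fin m → ℝ) × (Fin m → ℝ)) × F.ζ × ℕ → Z) (cz : Z → ℕ × (Fin m → ℤ))
      (cζ : Z → F.ζ)
      (cl' cl₂ : ((Fin m → ℝ) × (Fin m → ℝ)) × F.ζ × ℕ → Fin m → ℤ)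
      (G : Z → MvPolynomial (Fin m) ℝ) (e : ((Fin m → ℤ) × (ℕ × F.ζ)) × Z → ℝ), 1 ≤ κ →
      GF F i₁ r w' e₀ L' K C₀ γ δ ε e₁ G₀ zx zt zs cz cζ cl' cl₂ G e →
      (j + 2) * e₀ ≤ e₀ + L' →
      Pe F.p (fun ω => Bad (G2 e₀ G (zx2 L' (fun ξ : ((Fin m → ℤ) × (ℕ × F.ζ)) × Z =>
        ppos (2 * e₀ + (e₀ + L')) (chI i₁) ξ.1) (fun ξ => ξ.2)
          (trp F (Pp w' e₀ L') ω, zs (slam F (w' + 2 * e₀) ω)))) (fun _ => 0) 1 D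
        (2 ^ ((j + 1) * e₀) / 2 ^ L')) * (e₀ * Real.log 2) ≤
        C * RR m (e₀ + L') κ γ N ε e₁ (Real.log (2 * C₀ + 1)) := by
  classical
  obtain ⟨C, hC, hb⟩ := subc_bad m D j K C₀ hcho hj hC₀
  refine ⟨C, hC, ?_⟩
  intro J F i₁ r w' e₀ L' γ κ N δ ε e₁ G₀ Z zx zt zs cz cζ cl' cl₂ G e hκ h hjL
  have h1 := hb _ _ L' e₀ _ _ _ _ _ _ _ _ _ _ _ _ _ _ _ _ _ _ _ _ _ _ _ (h.step0 hκ N)
    rfl hjL
  have e1 : (2 : ℝ) ^ ((j + 1) * e₀) / 2 ^ L' = 2 ^ (e₀ * (j + 2)) / 2 ^ (e₀ + L') := by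
    rw [show e₀ * (j + 2) = e₀ + (j + 1) * e₀ by ring, pow_add, pow_add]
    field_simp
  rw [e1, Pe_eq]
  exact h1

end Pool.FLF
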