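import Pool.Agent.H99.LST.NRT

/-!
# The rows of the passive coordinate in the language of the linear step
-/

set_option autoImplicit false

namespace Pool.FLF

open Finset Real
open Pool.Agent.H49.Ent Pool.Agent.H32.Dense Pool.STK Pool.KA Pool.KSAT Pool.K2S Pool.KS3
open Pool.KAL Pool.PB Pool.KST Pool.KA.TRC Pool.K2S.Rows

variable {m J : ℕ}

/-- The position at lower resolution. -/
lemma ppos_div (F : Fam m J) (i₁ : Fin m) {s t R P : ℕ} (h2 : R + t = P)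
    (hP : P ≤ J) (ω : F.Ω) (o : Option (Fin m)) :
    ppos (s + t) (chI i₁) (trp F P ω) o / 2 ^ t = ppos s (chI i₁) (trp F R ω) o := by
  unfold ppos
  rcases hc : chI i₁ o with _ | i
  · simp only [Option.elim]
    have h3 : (trp F P ω).2.1 = F.T1 P ω := rfl
    have h4 : (trp F R ω).2.1 = F.T1 R ω := rfl
    rw [h3, h4, mod_div_pow]
    have := T1_div F (w := R) (K := t) (by omega) ω
    rw [show R + t = P by omega] at this
    rw [← this]
  · simp only [Option.elim]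
    have h3 : (trp F P ω).1 i = F.X P ω i := rfl
    have h4 : (trp F R ω).1 i = F.X R ω i := rfl
    rw [h3, h4, emod_div_pow, Xr_div F h2 ω i]

lemma ppos_inj_none (F : Fam m J) (i₁ : Fin m) {w s R : ℕ} (h1 : w + s = R) {ω ω' : F.Ω}
    (hX : F.X w ω i₁ = F.X w ω' i₁)
    (h : ppos s (chI i₁) (trp F R ω) none = ppos s (chI i₁) (trp F R ω') none) :
    F.X R ω i₁ = F.X R ω' i₁ := by
  have h2 : ((F.X R ω i₁ % 2 ^ s).toNat) = (F.X R ω' i₁ % 2 ^ s).toNat := h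
  have h4 := emod_toNat (F.X R ω i₁) s
  have h5 := emod_toNat (F.X R ω' i₁) s
  rw [h2] at h4
  have h6 : F.X R ω i₁ % 2 ^ s = F.X R ω' i₁ % 2 ^ s := h4.symm.trans h5
  rw [Xr_emod F h1 ω i₁, Xr_emod F h1 ω' i₁, hX] at h6
  linarith

lemma ppos_inj_some (F : Fam m J) (i₁ : Fin m) {w s R : ℕ} (h1 : w + s = R) (hR : R ≤ J)
    {ω ω' : F.Ω} (hT : F.T1 w ω = F.T1 w ω') (hX : ∀ j, F.X w ω j = F.X w ω' j)
    (h : ∀ i, ppos s (chI i₁) (trp F R ω) (some i) = ppos s (chI i₁) (trp F R ω') (some i)) :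
    bcel F i₁ R ω = bcel F i₁ R ω' := by
  refine bcel_eq F i₁ hR ?_ ?_
  · have h1' := h i₁
    unfold ppos chI at h1'
    simp only [Option.elim, if_true] at h1'
    have h2 : (trp F R ω).2.1 = F.T1 R ω := rfl
    have h3 : (trp F R ω').2.1 = F.T1 R ω' := rfl
    rw [h2, h3] at h1'
    have h4 := T1_div F (w := w) (K := s) (by omega) ω
    have h5 := T1_div F (w := w) (K := s) (by omega) ω'
    rw [h1] at h4 h5
    have h6 := Nat.div_add_mod (F.T1 R ω) (2 ^ s)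
    have h7 := Nat.div_add_mod (F.T1 R ω') (2 ^ s)
    rw [← h6, ← h7, h1', ← h4, ← h5, hT]
  · intro j hj
    have h1' := h j
    unfold ppos chI at h1'
    simp only [Option.elim, if_neg hj] at h1'
    have h2 : (trp F R ω).1 j = F.X R ω j := rfl
    have h3 : (trp F R ω').1 j = F.X R ω' j := rfl
    rw [h2, h3] at h1'
    have h4 := emod_toNat (F.X R ω j) s
    have h5 := emod_toNat (F.X R ω' j) s
    rw [h1'] at h4
    have h6 : F.X R ω j % 2 ^ s = F.X R ω' j % 2 ^ s := h4.symm.trans h5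
    rw [Xr_emod F h1 ω j, Xr_emod F h1 ω' j, hX j] at h6
    linarith

lemma ppos_of_bcel (F : Fam m J) (i₁ : Fin m) {s R : ℕ} (hR : R ≤ J) {ω ω' : F.Ω}
    (h : bcel F i₁ R ω = bcel F i₁ R ω') (i : Fin m) :
    ppos s (chI i₁) (trp F R ω) (some i) = ppos s (chI i₁) (trp F R ω') (some i) := by
  unfold ppos chI
  by_cases hi : i = i₁
  · simp only [Option.elim, if_pos hi]
    have h1 := T1_of_bcel F i₁ hR h
    have h2 : (trp F R ω).2.1 = F.T1 R ω := rfl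
    have h3 : (trp F R ω').2.1 = F.T1 R ω' := rfl
    rw [h2, h3, h1]
  · simp only [Option.elim, if_neg hi]
    have h1 := X_of_bcel F i₁ hi h
    have h2 : (trp F R ω).1 i = F.X R ω i := rfl
    have h3 : (trp F R ω').1 i = F.X R ω' i := rfl
    rw [h2, h3, h1]

lemma ppos_of_X (F : Fam m J) (i₁ : Fin m) {s R : ℕ} {ω ω' : F.Ω}
    (h : F.X R ω i₁ = F.X R ω' i₁) :
    ppos s (chI i₁) (trp F R ω) none = ppos s (chI i₁) (trp F R ω') none := by
  have h2 : ppos s (chI i₁) (trp F R ω) none = ((F.X R ω i₁ % 2 ^ s).toNat) := rfl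
  have h3 : ppos s (chI i₁) (trp F R ω') none = ((F.X R ω' i₁ % 2 ^ s).toNat) := rfl
  rw [h2, h3, h]

section

variable {Z : Type} (F : Fam m J) (i₁ : Fin m) {w' A w₂ L P : ℕ} (hA : w' + A = P)
    (hL : w₂ + L = P) (hw : w' ≤ w₂) (hP : P ≤ J) (z : F.Ω → Z)
    (wz : ((Fin m → ℤ) × (ℕ × F.ζ)) × Z → ℕ × ((Fin m → ℤ) × F.ζ))
    (hwz : ∀ ω, wz (trp F P ω, z ω) = (F.T1 w' ω, (F.X w' ω, F.Z ω)))

include hA hL hw hP in
lemma Nr_fam {r : ℕ} (hr : r ≤ L) (ω : F.Ω) :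
    Pool.KJ.Nr L (fun ξ : ((Fin m → ℤ) × (ℕ × F.ζ)) × Z => ppos A (chI i₁) ξ.1) r
      (trp F P ω, z ω) = ppos (w₂ + r - w') (chI i₁) (trp F (w₂ + r) ω) none := by
  unfold Pool.KJ.Nr
  simp only
  have := ppos_div F i₁ (s := w₂ + r - w') (t := L - r) (R := w₂ + r) (P := P) (by omega) hP ω
    none
  rw [show w₂ + r - w' + (L - r) = A by omega] at this
  exact this

include hA hL hw hP in
lemma Yr_fam {r : ℕ} (hr : r ≤ L) (ω : F.Ω) (i : Fin m) :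
    Pool.KJ.Yr L (fun ξ : ((Fin m → ℤ) × (ℕ × F.ζ)) × Z => ppos A (chI i₁) ξ.1) r
      (trp F P ω, z ω) i = ppos (w₂ + r - w') (chI i₁) (trp F (w₂ + r) ω) (some i) := by
  unfold Pool.KJ.Yr
  simp only
  have := ppos_div F i₁ (s := w₂ + r - w') (t := L - r) (R := w₂ + r) (P := P) (by omega) hP ω
    (some i)
  rw [show w₂ + r - w' + (L - r) = A by omega] at this
  exact this

include hA hL hw hP hwz in
/-- The condition of the rows determines the cells. -/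
lemma rg_of_cnr {r' r : ℕ} (hr' : r' ≤ r) (hr : r ≤ L) {ω ω' : F.Ω}
    (h : Pool.KJ.cnr L (fun ξ : ((Fin m → ℤ) × (ℕ × F.ζ)) × Z => ppos A (chI i₁) ξ.1) wz r' r
      (trp F P ω, z ω) = Pool.KJ.cnr L (fun ξ : ((Fin m → ℤ) × (ℕ × F.ζ)) × Z =>
        ppos A (chI i₁) ξ.1) wz r' r (trp F P ω', z ω')) :
    F.T1 w' ω = F.T1 w' ω' ∧ F.X w' ω = F.X w' ω' ∧
      rg F i₁ (w₂ + r') (w₂ + r) ω = rg F i₁ (w₂ + r') (w₂ + r) ω' := by
  unfold Pool.KJ.cnr at h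
  simp only [Prod.mk.injEq] at h
  obtain ⟨h1, h2, h3⟩ := h
  rw [hwz, hwz] at h3
  simp only [Prod.mk.injEq] at h3
  obtain ⟨h4, h5, h6⟩ := h3
  refine ⟨h4, h5, ?_⟩
  refine Prod.ext ?_ (Prod.ext ?_ h6)
  · refine ppos_inj_some F i₁ (w := w') (s := w₂ + r - w') (by omega) (by omega) h4
      (fun j => congrFun h5 j) fun i => ?_
    rw [← Yr_fam F i₁ hA hL hw hP z hr ω i, ← Yr_fam F i₁ hA hL hw hP z hr ω' i]
    exact congrFun h1 i
  · refine ppos_inj_none F i₁ (w := w') (s := w₂ + r' - w') (by omega) (congrFun h5 i₁) ?_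
    rw [← Nr_fam F i₁ hA hL hw hP z (hr'.trans hr) ω,
      ← Nr_fam F i₁ hA hL hw hP z (hr'.trans hr) ω']
    exact h2

include hA hL hw hP hwz in
lemma cnr_of_rg {r' r : ℕ} (hr' : r' ≤ r) (hr : r ≤ L) {ω ω' : F.Ω}
    (h : rg F i₁ (w₂ + r') (w₂ + r) ω = rg F i₁ (w₂ + r') (w₂ + r) ω') :
    Pool.KJ.cnr L (fun ξ : ((Fin m → ℤ) × (ℕ × F.ζ)) × Z => ppos A (chI i₁) ξ.1) wz r' r
      (trp F P ω, z ω) = Pool.KJ.cnr L (fun ξ : ((Fin m → ℤ) × (ℕ × F.ζ)) × Z =>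
        ppos A (chI i₁) ξ.1) wz r' r (trp F P ω', z ω') := by
  have h1 : bcel F i₁ (w₂ + r) ω = bcel F i₁ (w₂ + r) ω' := (Prod.ext_iff.mp h).1
  have h2 : F.X (w₂ + r') ω i₁ = F.X (w₂ + r') ω' i₁ := (Prod.ext_iff.mp (Prod.ext_iff.mp h).2).1
  have h3 : F.Z ω = F.Z ω' := (Prod.ext_iff.mp (Prod.ext_iff.mp h).2).2
  unfold Pool.KJ.cnr
  refine Prod.ext ?_ (Prod.ext ?_ ?_)
  · funext i
    simp only
    rw [Yr_fam F i₁ hA hL hw hP z hr ω i, Yr_fam F i₁ hA hL hw hP z hr ω' i]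
    exact ppos_of_bcel F i₁ (by omega) h1 i
  · simp only
    rw [Nr_fam F i₁ hA hL hw hP z (hr'.trans hr) ω,
      Nr_fam F i₁ hA hL hw hP z (hr'.trans hr) ω']
    exact ppos_of_X F i₁ h2
  · simp only
    rw [hwz, hwz]
    have h4 := bcel_coarse F i₁ (w := w') (R := w₂ + r) (by omega) h1
    refine Prod.ext (T1_of_bcel F i₁ (by omega) h4) (Prod.ext ?_ h3)
    funext j
    by_cases hj : j = i₁
    · rw [hj]
      exact X_coarse F (by omega) h2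
    · exact X_of_bcel F i₁ hj h4

include hA hL hw hP hwz in
/-- **The rows of the passive coordinate.** -/
theorem hrw_fam {r' r : ℕ} (hr' : r' ≤ r) (hr : r ≤ L) :
    Pool.KJ.hrw F.p (fun ω => (trp F P ω, z ω)) L
      (fun ξ : ((Fin m → ℤ) × (ℕ × F.ζ)) × Z => ppos A (chI i₁) ξ.1) wz r' r =
      CH F.p (rf F i₁ (w₂ + r)) (rg F i₁ (w₂ + r') (w₂ + r)) := by
  have h0 := F.isLaw.nonneg
  unfold Pool.KJ.hrw
  refine CH_congr h0 ?_ ?_ ?_ ?_
  · intro ω ω' _ _ hh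
    simp only [Prod.mk.injEq] at hh
    obtain ⟨a1, a2, -⟩ := rg_of_cnr F i₁ hA hL hw hP z wz hwz hr' hr hh.2
    refine ppos_inj_none F i₁ (w := w') (s := w₂ + r - w') (by omega) (congrFun a2 i₁) ?_
    rw [← Nr_fam F i₁ hA hL hw hP z hr ω, ← Nr_fam F i₁ hA hL hw hP z hr ω']
    exact hh.1
  · intro ω ω' _ _ hh
    simp only
    rw [Nr_fam F i₁ hA hL hw hP z hr ω, Nr_fam F i₁ hA hL hw hP z hr ω']
    exact ppos_of_X F i₁ (Prod.ext_iff.mp hh).1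
  · intro ω ω' _ _ hh
    exact (rg_of_cnr F i₁ hA hL hw hP z wz hwz hr' hr hh).2.2
  · intro ω ω' _ _ hh
    exact cnr_of_rg F i₁ hA hL hw hP z wz hwz hr' hr hh

include hA hL hw hP hwz in
/-- **The number of values of the rows.** -/
theorem Sup_fam {r' r : ℕ} (hr' : r' ≤ r) (hr : r ≤ L) {h : ℝ}
    (hC : Cnt (rf F i₁ (w₂ + r)) (rg F i₁ (w₂ + r') (w₂ + r)) h (fun _ => True)) :
    Pool.KJ.Sup F.p (fun ω => (trp F P ω, z ω)) L
      (fun ξ : ((Fin m → ℤ) × (ℕ × F.ζ)) × Z => ppos A (chI i₁) ξ.1) wz r' r h := by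
  classical
  obtain ⟨V, hV1, hV2⟩ := hC
  intro ω _
  refine ⟨(V (rg F i₁ (w₂ + r') (w₂ + r) ω)).image
    (fun v => (v % 2 ^ (w₂ + r - w')).toNat), ?_, ?_⟩
  · refine le_trans ?_ (hV1 (rg F i₁ (w₂ + r') (w₂ + r) ω))
    exact_mod_cast Finset.card_image_le
  · intro ω' _ hh
    obtain ⟨-, -, a3⟩ := rg_of_cnr F i₁ hA hL hw hP z wz hwz hr' hr hh
    simp only
    rw [Nr_fam F i₁ hA hL hw hP z hr ω', Finset.mem_image]
    refine ⟨rf F i₁ (w₂ + r) ω', ?_, rfl⟩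
    rw [← a3]
    exact hV2 ω' trivial

end

end Pool.FLF
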