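import Pool.Agent.H99.LST.GFM

/-!
# The linear step for a good family
-/

set_option autoImplicit false

namespace Pool.FLF

open Finset Real
open Pool.Agent.H49.Ent Pool.Agent.H32.Dense Pool.STK Pool.KA Pool.KSAT Pool.K2S Pool.KS3
open Pool.KAL Pool.PB Pool.KST Pool.KA.TRC Pool.K2S.Rows Pool.OVN Pool.KAF
open Pool.KJ hiding Pe

variable {m J : ℕ}

/-- The linear step, with given constants. -/
def JSI (n D u w : ℕ) (C₀ c : ℝ) (Cj Cr Cc k₀ E M : ℕ) (η₁ : ℝ) (κ₀ N₀ m₀ : ℕ) : Prop :=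
    ∀ (m e₀ L : ℕ) (Ω Λ Ξ Z β : Type) [Fintype Ω] (p : Ω → ℝ) (lam : Ω → Λ)
      (x : Ω → Ξ) (T : Ξ → ℕ) (pos : Ξ → Option (Fin n) → ℕ) (A B : Λ → Option (Fin n) → ℝ)
      (zx : Ξ → Z) (zl : Λ → ℕ → Z) (cz : Z → Option (Fin n) → ℕ)
      (G : Z → MvPolynomial (Fin n) ℝ) (wz : Z → β) (wl : Λ → β) (γ : ℕ) (δ ε e₁ e₃ : ℝ)
      (e : Ξ → ℝ) (i₀ : Fin n),
      m₀ ≤ m → e₀ = M * m → m ∣ L → Cr * e₀ ≤ L → L ≤ E * e₀ →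
      e₁ ≤ η₁ * e₀ → e₃ ≤ η₁ * e₀ → γ ≤ η₁ * e₀ → ε ≤ η₁ →
      StepH n (3 * e₀) L C₀ k₀ κ₀ γ N₀ δ ε e₁ e₃ p lam x T pos A B zx zl cz G e →
      (∀ ω, 0 < p ω → ¬ Bad (G (zx (x ω))) (fun _ => 0) 1 D (2 ^ (u * e₀) / 2 ^ L)) →
      (∀ ω, pos (x ω) (some i₀) = T (x ω)) →
      (∀ ω, 0 < p ω → wz (zx (x ω)) = wl (lam ω)) →
      (((3 * e₀ + L : ℕ) : ℝ) * Real.log 2 - CH p (fun ω => T (x ω)) lam ≤ η₁ * e₀) →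
      CH p x (fun ω => (pos (x ω), wz (zx (x ω)))) ≤ (n + 1) * e₀ →
      (∀ k k', k ≤ k' → m * k' ≤ L → Sup p x L pos (fun ξ => wz (zx ξ)) (m * k) (m * k')
        (hrw p x L pos (fun ξ => wz (zx ξ)) (m * k) (m * k') + η₁ * e₀)) →
      (∀ k, m * (k + 1) ≤ L →
        OV p x L pos (fun ξ => wz (zx ξ)) zx G (m * k) (m * (k + 1)) (η₁ * e₀) ∨
        (1 - 1 / w) * (m * Real.log 2) ≤
          hrw p x L pos (fun ξ => wz (zx ξ)) (m * k) (m * (k + 1))) →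
      hrw p x L pos (fun ξ => wz (zx ξ)) (L - Cr * e₀) L ≤
        (1 - c) * (Cr * e₀ * Real.log 2) →
      ∃ (Y : Type) (y : Z → Y) (sl : Λ → Option Y) (q : ℕ) (Sc : (Fin n → ℕ) × Y → Finset ℕ),
        q ≤ (Cr + Cj) * e₀ ∧ (∀ g, (Sc g).card ≤ Cc) ∧
        1 / 4 ≤ Pool.KJ.Pe p (fun ω => some (y (zx (x ω))) = sl (lam ω) ∧
          pos (x ω) none / 2 ^ q ∈ Sc (bas pos (x ω), y (zx (x ω))))

/-- The constants of the linear step. -/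
theorem jsi_of (hJ : JSTEPStmt) (n D u : ℕ) (C₀ c : ℝ) (hn : 1 ≤ n) (hC₀ : 1 ≤ C₀) (hc : 0 < c)
    (hc1 : c ≤ 1) : ∃ w₀ : ℕ, ∀ w ≥ w₀, ∃ Cj Cr₀ Cc : ℕ, 1 ≤ Cr₀ ∧ ∀ Cr ≥ Cr₀, ∀ k₀ E : ℕ, 1 ≤ E →
      ∃ M₀ : ℕ, ∀ M ≥ M₀, ∃ (η₁ : ℝ) (κ₀ N₀ m₀ : ℕ), 0 < η₁ ∧ 1 ≤ κ₀ ∧
        JSI n D u w C₀ c Cj Cr Cc k₀ E M η₁ κ₀ N₀ m₀ := hJ n D u C₀ c hn hC₀ hc hc1

/-- The window label of the sub-cubes. -/
def wzz {ζ Z : Type} (a : ℕ) (cz : Z → ℕ × (Fin m → ℤ)) (cζ : Z → ζ)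
    (y : Z × (Option (Fin m) → ℕ)) : ℕ × ((Fin m → ℤ) × ζ) :=
  ((cz y.1).1 / 2 ^ a, ((fun j => (cz y.1).2 j / 2 ^ a), cζ y.1))

lemma Sup_mono {Ω Ξ β : Type} {n : ℕ} {p : Ω → ℝ} {x : Ω → Ξ} {L : ℕ}
    {pos : Ξ → Option (Fin n) → ℕ} {wz : Ξ → β} {r' r : ℕ} {h h' : ℝ} (hh : h ≤ h')
    (H : Sup p x L pos wz r' r h) : Sup p x L pos wz r' r h' := by
  intro ω hω
  obtain ⟨s, h1, h2⟩ := H ω hω
  exact ⟨s, h1.trans (Real.exp_le_exp.2 hh), h2⟩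

lemma OV_mono {Ω Ξ Z β : Type} [Fintype Ω] {n : ℕ} {p : Ω → ℝ} {x : Ω → Ξ} {L : ℕ}
    {pos : Ξ → Option (Fin n) → ℕ} {wz : Ξ → β} {zx : Ξ → Z} {G : Z → MvPolynomial (Fin n) ℝ}
    {r r' : ℕ} {eo eo' : ℝ} (hh : eo ≤ eo') (H : OV p x L pos wz zx G r r' eo) :
    OV p x L pos wz zx G r r' eo' := by
  obtain ⟨W, cd, h1, h2⟩ := H
  exact ⟨W, cd, h1, h2.trans hh⟩

lemma Cls_mono {F : Fam m J} {i₁ : Fin m} {r b w P P' : ℕ} (hP : P' ≤ P) {A : F.Ω → Prop}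
    (h : Cls F i₁ r b w P A) : Cls F i₁ r b w P' A := by
  obtain ⟨V, z, z', f, h⟩ := h
  refine ⟨V, z, z', f, fun ω hω => ?_⟩
  obtain ⟨h1, l, h2⟩ := h ω hω
  exact ⟨h1, l, h2.trans (inv_mono hP)⟩

lemma KJ_Pe {Ω : Type} [Fintype Ω] (p : Ω → ℝ) (A : Ω → Prop) : Pool.KJ.Pe p A = Pe p A := by
  rw [Pe_eq]
  rfl

/-- **The linear step for a good family.** -/
theorem jsf {F : Fam m J} {i₁ : Fin m} {r w' e₀ L' K : ℕ} {C₀ : ℝ} {γ : ℕ} {δ ε e₁ : ℝ}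
    {G₀ : (Fin m → ℤ) × (ℕ × F.ζ) → MvPolynomial (Fin m) ℝ} {Z : Type}
    {zx zt : (Fin m → ℤ) × (ℕ × F.ζ) → Z}
    {zs : ((Fin m → ℝ) × (Fin m → ℝ)) × F.ζ × ℕ → Z} {cz : Z → ℕ × (Fin m → ℤ)} {cζ : Z → F.ζ}
    {cl' cl₂ : ((Fin m → ℝ) × (Fin m → ℝ)) × F.ζ × ℕ → Fin m → ℤ}
    {G : Z → MvPolynomial (Fin m) ℝ} {e : ((Fin m → ℤ) × (ℕ × F.ζ)) × Z → ℝ}
    (h : GF F i₁ r w' e₀ L' K C₀ γ δ ε e₁ G₀ zx zt zs cz cζ cl' cl₂ G e)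
    {D u w : ℕ} {c : ℝ} {Cj Cr Cc E M : ℕ} {η₁ : ℝ} {κ₀ N₀ m₀ : ℕ} (hκ₀ : 1 ≤ κ₀)
    (hJ : JSI m D u w C₀ c Cj Cr Cc K E M η₁ κ₀ N₀ m₀) {mu : ℕ} (hm₀ : m₀ ≤ mu)
    (he₀ : e₀ = M * mu) (hmL : mu ∣ L') (hCr : Cr * e₀ ≤ L') (hE : L' ≤ E * e₀)
    (hCj : (Cr + Cj) * e₀ ≤ L')
    (hη₁ : e₁ ≤ η₁ * e₀) (hη₃ : Real.log (2 * C₀ + 1) ≤ η₁ * e₀) (hγ : γ ≤ η₁ * e₀)
    (hε : ε ≤ η₁) (hrP : ((r - Pp w' e₀ L' : ℕ) : ℝ) ≤ e₀)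
    (hbad : ∀ ω, ¬ Bad (G2 e₀ G (zx2 L' (fun ξ : ((Fin m → ℤ) × (ℕ × F.ζ)) × Z =>
        ppos (2 * e₀ + (e₀ + L')) (chI i₁) ξ.1) (fun ξ => ξ.2)
          (trp F (Pp w' e₀ L') ω, zs (slam F (w' + 2 * e₀) ω)))) (fun _ => 0) 1 D
        (2 ^ (u * e₀) / 2 ^ L'))
    (hSup : ∀ R₁ R₂, R₁ ≤ R₂ → R₂ ≤ L' → mu ∣ R₁ → mu ∣ R₂ →
      Cnt (rf F i₁ (w' + 2 * e₀ + e₀ + R₂))
        (rg F i₁ (w' + 2 * e₀ + e₀ + R₁) (w' + 2 * e₀ + e₀ + R₂))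
        (CH F.p (rf F i₁ (w' + 2 * e₀ + e₀ + R₂))
          (rg F i₁ (w' + 2 * e₀ + e₀ + R₁) (w' + 2 * e₀ + e₀ + R₂)) + η₁ * e₀) (fun _ => True))
    (hOV : ∀ k, mu * (k + 1) ≤ L' →
      OV F.p (fun ω => (trp F (Pp w' e₀ L') ω, zs (slam F (w' + 2 * e₀) ω))) L'
          (fun ξ : ((Fin m → ℤ) × (ℕ × F.ζ)) × Z => ppos (2 * e₀ + (e₀ + L')) (chI i₁) ξ.1)
          (fun ξ => wzz (2 * e₀) cz cζ (zx2 L' (fun ξ : ((Fin m → ℤ) × (ℕ × F.ζ)) × Z =>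
            ppos (2 * e₀ + (e₀ + L')) (chI i₁) ξ.1) Prod.snd ξ))
          (zx2 L' (fun ξ : ((Fin m → ℤ) × (ℕ × F.ζ)) × Z =>
            ppos (2 * e₀ + (e₀ + L')) (chI i₁) ξ.1) Prod.snd)
          (G2 e₀ G) (mu * k) (mu * (k + 1)) (η₁ * e₀) ∨
      (1 - 1 / w) * (mu * Real.log 2) ≤ CH F.p (rf F i₁ (w' + 2 * e₀ + e₀ + mu * (k + 1)))
          (rg F i₁ (w' + 2 * e₀ + e₀ + mu * k) (w' + 2 * e₀ + e₀ + mu * (k + 1))))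
    (hrate : CH F.p (rf F i₁ (Pp w' e₀ L')) (rg F i₁ (Pp w' e₀ L' - Cr * e₀) (Pp w' e₀ L')) ≤
      (1 - c) * (Cr * e₀ * Real.log 2)) :
    ∃ B : F.Ω → Prop, 1 ≤ 4 * Cc * Pe F.p B ∧
      Cls F i₁ r 1 w' (Pp w' e₀ L' - (Cr + Cj) * e₀) B := by
  classical
  have h0 := F.isLaw.nonneg
  have hPJ := h.PJ
  have hA : w' + (2 * e₀ + (e₀ + L')) = Pp w' e₀ L' := rfl
  have hL : w' + 2 * e₀ + e₀ + L' = Pp w' e₀ L' := by unfold Pp; omega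
  have hw : w' ≤ w' + 2 * e₀ + e₀ := by omega
  -- the window label
  have hwz : ∀ ω, (fun ξ : ((Fin m → ℤ) × (ℕ × F.ζ)) × Z => wzz (2 * e₀) cz cζ (zx2 L'
      (fun ξ : ((Fin m → ℤ) × (ℕ × F.ζ)) × Z => ppos (2 * e₀ + (e₀ + L')) (chI i₁) ξ.1)
        (fun ξ => ξ.2) ξ)) (trp F (Pp w' e₀ L') ω, zs (slam F (w' + 2 * e₀) ω)) =
      (F.T1 w' ω, (F.X w' ω, F.Z ω)) := by
    intro ω
    simp only [wzz, zx2]
    rw [h.cell ω, h.side ω]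
    refine Prod.ext ?_ (Prod.ext ?_ rfl)
    · exact (T1_div F (w := w') (K := 2 * e₀) (by unfold Pp at hPJ; omega) ω).symm
    · funext j
      exact Xr_div F (w := w') (L := 2 * e₀) (r := w' + 2 * e₀) rfl ω j
  have key := hJ mu e₀ L' F.Ω _ _ _ (ℕ × ((Fin m → ℤ) × F.ζ)) F.p (slam F w') _ _ _ _ _ _ _ _ _
    (wzz (2 * e₀) cz cζ) (fun l => (l.2.2, (cl' l, l.2.1))) γ δ ε e₁ _ e i₁ hm₀ he₀ hmL hCr hE
    hη₁ hη₃ hγ hε (h.step hκ₀ N₀) (fun ω _ => hbad ω)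
    (by
      intro ω
      simp only [ppos, chI, pT, Option.elim, if_true])
    (by
      intro ω _
      refine (hwz ω).trans ?_
      refine Prod.ext rfl (Prod.ext ?_ rfl)
      exact h.xl.long ω trivial)
    (by
      have h1 := time_long F (w := w') (a := 2 * e₀) (L := e₀ + L') (P := Pp w' e₀ L') rfl hPJ
        (fun ω => zs (slam F (w' + 2 * e₀) ω)) h.tm
      have e1 : (((3 * e₀ + L' : ℕ) : ℝ)) = ((2 * e₀ : ℕ) : ℝ) + ((e₀ + L' : ℕ) : ℝ) := by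
        push_cast
        ring
      rw [e1]
      exact h1.trans hη₁)
    (by
      have h1 := tail_fam F i₁ (w := w') (L := 2 * e₀ + (e₀ + L')) (P := Pp w' e₀ L') (r := r) rfl
        h.hP h.hr (fun ω => zs (slam F (w' + 2 * e₀) ω)) zt
        (fun ω => (h.xl.tru ω trivial).symm)
        (fun ω => (F.T1 w' ω, (F.X w' ω, F.Z ω))) (fun b => b.1) (fun b => b.2.1)
        (fun b => b.2.2) (fun ω => ⟨rfl, rfl, rfl⟩)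
      have e1 : (fun ω => ((fun ξ : ((Fin m → ℤ) × (ℕ × F.ζ)) × Z =>
          ppos (2 * e₀ + (e₀ + L')) (chI i₁) ξ.1)
            (trp F (Pp w' e₀ L') ω, zs (slam F (w' + 2 * e₀) ω)),
          wzz (2 * e₀) cz cζ (zx2 L' (fun ξ : ((Fin m → ℤ) × (ℕ × F.ζ)) × Z =>
          ppos (2 * e₀ + (e₀ + L')) (chI i₁) ξ.1) (fun ξ => ξ.2)
            (trp F (Pp w' e₀ L') ω, zs (slam F (w' + 2 * e₀) ω))))) =
          fun ω => (ppos (2 * e₀ + (e₀ + L')) (chI i₁) (trp F (Pp w' e₀ L') ω),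
            (F.T1 w' ω, (F.X w' ω, F.Z ω))) := by
        funext ω
        exact Prod.ext rfl (hwz ω)
      refine (le_of_eq ?_).trans (h1.trans ?_)
      · exact congrArg (fun f => CH F.p (fun ω => (trp F (Pp w' e₀ L') ω,
          zs (slam F (w' + 2 * e₀) ω))) f) e1
      · have hl2 : Real.log 2 ≤ 1 := by
          have := Real.log_two_lt_d9
          linarith
        have hl0 : 0 ≤ Real.log 2 := Real.log_nonneg (by norm_num)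
        have h3 : ((r - Pp w' e₀ L' : ℕ) : ℝ) * Real.log 2 ≤ e₀ := by
          calc ((r - Pp w' e₀ L' : ℕ) : ℝ) * Real.log 2 ≤ (e₀ : ℝ) * 1 :=
                mul_le_mul hrP hl2 hl0 (Nat.cast_nonneg _)
            _ = e₀ := mul_one _
        have h4 : (0 : ℝ) ≤ m + 1 := by positivity
        exact mul_le_mul_of_nonneg_left h3 h4)
    (by
      intro k k' hk hk'
      have h1 := hSup (mu * k) (mu * k') (Nat.mul_le_mul_left _ hk) hk' (dvd_mul_right _ _)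
        (dvd_mul_right _ _)
      have h2 := Sup_fam F i₁ hA hL hw hPJ (fun ω => zs (slam F (w' + 2 * e₀) ω))
        (fun ξ : ((Fin m → ℤ) × (ℕ × F.ζ)) × Z =>
          wzz (2 * e₀) cz cζ (zx2 L' (fun ξ : ((Fin m → ℤ) × (ℕ × F.ζ)) × Z =>
            ppos (2 * e₀ + (e₀ + L')) (chI i₁) ξ.1) (fun ξ => ξ.2) ξ)) hwz
        (Nat.mul_le_mul_left mu hk) hk' h1
      refine Sup_mono (le_of_eq ?_) h2
      congr 1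
      exact (hrw_fam F i₁ hA hL hw hPJ (fun ω => zs (slam F (w' + 2 * e₀) ω))
        (fun ξ : ((Fin m → ℤ) × (ℕ × F.ζ)) × Z =>
          wzz (2 * e₀) cz cζ (zx2 L' (fun ξ : ((Fin m → ℤ) × (ℕ × F.ζ)) × Z =>
            ppos (2 * e₀ + (e₀ + L')) (chI i₁) ξ.1) (fun ξ => ξ.2) ξ)) hwz
        (Nat.mul_le_mul_left mu hk) hk').symm)
    (by
      intro k hk
      rcases hOV k hk with h1 | h1
      · exact Or.inl h1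
      · refine Or.inr (h1.trans (le_of_eq ?_))
        exact (hrw_fam F i₁ hA hL hw hPJ (fun ω => zs (slam F (w' + 2 * e₀) ω))
        (fun ξ : ((Fin m → ℤ) × (ℕ × F.ζ)) × Z =>
          wzz (2 * e₀) cz cζ (zx2 L' (fun ξ : ((Fin m → ℤ) × (ℕ × F.ζ)) × Z =>
            ppos (2 * e₀ + (e₀ + L')) (chI i₁) ξ.1) (fun ξ => ξ.2) ξ)) hwz
          (Nat.mul_le_mul_left mu (Nat.le_succ k)) hk).symm)
    (by
      refine (le_of_eq ?_).trans hrate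
      have h1 := hrw_fam F i₁ hA hL hw hPJ (fun ω => zs (slam F (w' + 2 * e₀) ω))
        (fun ξ : ((Fin m → ℤ) × (ℕ × F.ζ)) × Z =>
          wzz (2 * e₀) cz cζ (zx2 L' (fun ξ : ((Fin m → ℤ) × (ℕ × F.ζ)) × Z =>
            ppos (2 * e₀ + (e₀ + L')) (chI i₁) ξ.1) (fun ξ => ξ.2) ξ)) hwz
        (r' := L' - Cr * e₀) (r := L') (Nat.sub_le _ _) le_rfl
      have e1 : w' + 2 * e₀ + e₀ + (L' - Cr * e₀) = Pp w' e₀ L' - Cr * e₀ := by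
        unfold Pp
        omega
      rw [e1, hL] at h1
      exact h1)
  obtain ⟨Y, y, sl, q, Sc, hq, hSc, hPe⟩ := key
  rw [KJ_Pe] at hPe
  obtain ⟨zf, hzf⟩ : ∃ zf : (Fin m → ℤ) × (ℕ × F.ζ) → Z × (Option (Fin m) → ℕ), zf = fun ξ =>
    (zx ξ, fun o => ppos (2 * e₀ + (e₀ + L')) (chI i₁)
      ((fun j => ξ.1 j / 2 ^ (r - Pp w' e₀ L')), (ξ.2.1 / 2 ^ (J - Pp w' e₀ L'), ξ.2.2)) o /
        2 ^ L') := ⟨_, rfl⟩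
  have hqL : q ≤ 2 * e₀ + (e₀ + L') := by omega
  obtain ⟨B, -, hB2, hB3⟩ := out_fam F i₁ (w := w') (L := 2 * e₀ + (e₀ + L'))
    (P := Pp w' e₀ L') (r := r) (q := q) (Kc := Cc) rfl h.hP hqL cl'
    (fun ω => zx2 L' (fun ξ : ((Fin m → ℤ) × (ℕ × F.ζ)) × Z =>
      ppos (2 * e₀ + (e₀ + L')) (chI i₁) ξ.1) (fun ξ => ξ.2)
      (trp F (Pp w' e₀ L') ω, zs (slam F (w' + 2 * e₀) ω))) zf y sl Sc hSc _
    (lt_of_lt_of_le (by norm_num) hPe)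
    (by
      rintro ω ⟨h1, h2⟩
      refine ⟨?_, h.xl.long ω trivial, h1, h2⟩
      rw [hzf]
      refine Prod.ext (h.xl.lab ω trivial).symm ?_
      funext o
      simp only [zx2, cel]
      have e1 : (((fun j => (ptr F r ω).1 j / 2 ^ (r - Pp w' e₀ L')),
          ((ptr F r ω).2.1 / 2 ^ (J - Pp w' e₀ L'), (ptr F r ω).2.2)) :
          (Fin m → ℤ) × (ℕ × F.ζ)) = trp F (Pp w' e₀ L') ω := by
        refine Prod.ext ?_ rfl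
        funext j
        exact Xr_div F (w := Pp w' e₀ L') (L := r - Pp w' e₀ L') (r := r) (by
          have := h.hP
          omega) ω j
      rw [e1])
  refine ⟨B, ?_, Cls_mono (by omega) hB3⟩
  have h5 := hPe.trans hB2
  linarith

end Pool.FLF
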