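import Pool.Agent.H99.LST.CORT
import Pool.Agent.H99.LST.STP
import Pool.Agent.H42.PB.ClG

/-!
# The lossy step at the top row, with an implicit label on the whole window
-/

set_option autoImplicit false

namespace Pool.FLF

open Finset Real
open Pool.Agent.H49.Ent Pool.Agent.H32.Dense Pool.STK Pool.KA Pool.KSAT Pool.K2S Pool.KS3
open Pool.KAL Pool.PB Pool.KST Pool.KA.TRC Pool.K2S.Rows Pool.OVN Pool.KAF

variable {m J : ℕ}

/-- **Own-visibility** of the ball labels, with one scale of spread. -/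
def OVF2 (m : ℕ) : Prop :=
  ∀ (K : ℕ) (c h₁ x ε : ℝ), 0 < c → 0 < h₁ → 0 < x → 0 < ε → ∃ g : ℝ, 0 < g ∧
    ∀ (S : FCl m) (ψ : ℝ), 0 < ψ → ∀ i₁ : Fin m,
    Clg S (fun J F A => Sp F (m - 2) ψ g A → Ch F i₁ ⌊h₁ * J⌋₊ A →
      ∀ (r w P P₁ P₂ : ℕ) (G : (Fin m → ℤ) × (ℕ × F.ζ) → MvPolynomial (Fin m) ℝ)
        (H : ((Fin m → ℝ) × (Fin m → ℝ)) × F.ζ × ℕ → MvPolynomial (Fin m) ℝ),
        LabW F i₁ r K w w P G H A → w ≤ P₁ → P₁ + x * J ≤ P₂ → P₂ ≤ P → P ≤ r → r ≤ J →
        Zm F c P₁ P₂ A →
        CH (Pool.Agent.H49.Ent.cond F.p A True)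
          (fun ω => Pool.OVN.hz P₁ (Pool.OVN.pul w (bcel F i₁ w ω) (G (ptr F r ω))))
          (ptr F P₂) ≤ ε * J)

/-- The linear step with an implicit label, for good families, with its constants. -/
def JSRC (m : ℕ) : Prop :=
  ∀ (D u : ℕ) (C₀ : ℝ), 1 ≤ C₀ → ∃ Dp : ℕ, ∀ c : ℝ, 0 < c → c ≤ 1 → ∃ w₀ : ℕ, ∀ w ≥ w₀,
    ∃ Cj Cr₀ Cc : ℕ, ∀ Cr ≥ Cr₀, ∀ K E : ℕ, 1 ≤ E → ∃ M₀ : ℕ, ∀ M ≥ M₀,
    ∃ (η₁ : ℝ) (m₀ : ℕ), 0 < η₁ ∧ JSFO m D u w C₀ c Cj Cr Cc K E M η₁ m₀
      (fun _ F i₁ r w P A => ClG F i₁ r Dp w P A)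

/-- Closed labels with an implicit equation of a restricted family. -/
theorem clg_sub {F : Fam m J} {i₁ : Fin m} {r D w P : ℕ} {B : F.Ω → Prop} {hB : 0 < Pe F.p B}
    {B' : (Fam.sub F B hB).Ω → Prop} (h : ClG (Fam.sub F B hB) i₁ r D w P B') :
    ClG F i₁ r D w P (fun ω => ∃ h : B ω, B' ⟨ω, h⟩) := by
  obtain ⟨P₁, V, z, z', R, h0, h1, h2, h3⟩ := h
  exact ⟨P₁, V, z, z', R, h0, h1, h2, fun ω hω => h3 ⟨ω, hω.1⟩ hω.2⟩

/-- The mean rate of the last rows, from the tail. -/
theorem rate_of_tl {F : Fam m J} {A : F.Ω → Prop} (hA : 0 < Pe F.p A) {r₀ r' η c : ℝ}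
    {Cr P e₀ : ℕ} (hm : 1 ≤ m) (hr' : 0 < r') (hr0 : r' ≤ r₀) (hr2 : r' ≤ Real.log 2)
    (hc : c = r' / (8 * Real.log 2)) (hCr : 4 * m ≤ r' * Cr) (hPJ : P ≤ J) (hJP : J ≤ P + e₀)
    (hP2 : J ≤ 2 * (P - Cr * e₀)) (hCP : Cr * e₀ ≤ P) (hη : η * J ≤ r' / 4 * e₀)
    (h : Tl F r₀ η A) :
    CH (Pool.Agent.H49.Ent.cond F.p A True) (F.X P) (fun ω => (F.X (P - Cr * e₀) ω, F.W ω)) ≤
      (m - 2 * c) * (Cr * e₀ * Real.log 2) := by
  have hmr : (1 : ℝ) ≤ m := by exact_mod_cast hm
  have hl2 : 0 < Real.log 2 := Real.log_pos (by norm_num)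
  have hl1 : Real.log 2 ≤ 1 := by
    have := Real.log_two_lt_d9
    linarith only [hr', hr2, this]
  have h1 := rows_mono' F (isLaw_cond F.isLaw hA).nonneg (a := P - Cr * e₀) (b := P - Cr * e₀)
    (c := P) (d := J) le_rfl hPJ
  have h2 := h (P - Cr * e₀) (by omega) hP2
  refine h1.trans (h2.trans ?_)
  have e1 : (J : ℝ) - ((P - Cr * e₀ : ℕ) : ℝ) ≤ Cr * e₀ + e₀ := by
    rw [Nat.cast_sub hCP]
    have : (J : ℝ) ≤ P + e₀ := by exact_mod_cast hJP
    push_cast
    linarith only [this]
  have e0 : (0 : ℝ) ≤ (J : ℝ) - ((P - Cr * e₀ : ℕ) : ℝ) := by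
    have : ((P - Cr * e₀ : ℕ) : ℝ) ≤ J := by
      have h3 : P - Cr * e₀ ≤ J := by omega
      exact_mod_cast h3
    linarith only [this]
  have he0 : (0 : ℝ) ≤ e₀ := Nat.cast_nonneg _
  have hCr0 : (0 : ℝ) ≤ Cr := Nat.cast_nonneg _
  have hml : Real.log 2 ≤ m * Real.log 2 := le_mul_of_one_le_left hl2.le hmr
  have e2 : (m * Real.log 2 - r₀) * ((J : ℝ) - ((P - Cr * e₀ : ℕ) : ℝ)) ≤
      (m * Real.log 2 - r') * (Cr * e₀ + e₀) := by
    calc (m * Real.log 2 - r₀) * ((J : ℝ) - ((P - Cr * e₀ : ℕ) : ℝ)) ≤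
        (m * Real.log 2 - r') * ((J : ℝ) - ((P - Cr * e₀ : ℕ) : ℝ)) :=
          mul_le_mul_of_nonneg_right (by linarith only [hr0]) e0
      _ ≤ _ := mul_le_mul_of_nonneg_left e1 (by linarith only [hr2, hml])
  have e3 : (m - 2 * c) * (Cr * e₀ * Real.log 2) =
      m * Real.log 2 * (Cr * e₀) - r' / 4 * (Cr * e₀) := by
    rw [hc]
    field_simp
    ring
  rw [e3]
  have e4 : (m : ℝ) * Real.log 2 * e₀ ≤ r' / 4 * (Cr * e₀) := by
    have h5 : (m : ℝ) * Real.log 2 ≤ m * 1 := mul_le_mul_of_nonneg_left hl1 (by linarith only [hmr])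
    have h6 : (m : ℝ) * Real.log 2 ≤ r' / 4 * Cr := by linarith only [hCr, h5]
    calc (m : ℝ) * Real.log 2 * e₀ ≤ r' / 4 * Cr * e₀ := mul_le_mul_of_nonneg_right h6 he0
      _ = _ := by ring
  have e5 : 0 ≤ r' * (Cr * e₀) := by positivity
  have e6 : r' / 4 * e₀ ≤ r' * e₀ := by
    have : 0 ≤ r' * e₀ := by positivity
    linarith only [this]
  linarith only [hη, e2, e4, e5, e6]

/-- **The lossy step at the top row.** -/
theorem jstt_of (hm : 1 ≤ m) (hJR : JSRC m) (hO : OVF2 m) : JSTT m := by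
  classical
  intro r₀ h₁ hr₀ hh₁
  have hmr : (1 : ℝ) ≤ m := by exact_mod_cast hm
  have hl2 : 0 < Real.log 2 := Real.log_pos (by norm_num)
  obtain ⟨D, hD⟩ := exists_deg m
  obtain ⟨j, hj⟩ : ∃ j, j = 6 * m * D := ⟨_, rfl⟩
  rw [← hj] at hD
  obtain ⟨r', hr'⟩ : ∃ r', r' = min r₀ (Real.log 2) := ⟨_, rfl⟩
  have hr'0 : 0 < r' := by rw [hr']; exact lt_min hr₀ hl2
  have hr'1 : r' ≤ r₀ := by rw [hr']; exact min_le_left _ _
  have hr'2 : r' ≤ Real.log 2 := by rw [hr']; exact min_le_right _ _
  obtain ⟨c, hc⟩ : ∃ c : ℝ, c = r' / (8 * Real.log 2) := ⟨_, rfl⟩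
  have hc0 : 0 < c := by rw [hc]; positivity
  have hc1 : c ≤ 1 := by
    rw [hc, div_le_one (by positivity)]
    linarith only [hl2, hr'2]
  obtain ⟨Dp, hDp⟩ := hJR D (j + 1) (3 + 2 * m + 2 * m ^ 2) (by nlinarith only [hmr])
  obtain ⟨w₀, hw₀⟩ := hDp c hc0 hc1
  obtain ⟨w, hw⟩ : ∃ w, w = max w₀ 2 := ⟨_, rfl⟩
  have hw1 : 1 ≤ w := by rw [hw]; exact le_trans (by norm_num) (le_max_right _ _)
  obtain ⟨Cj, Cr₀, Cc, hJC⟩ := hw₀ w (by rw [hw]; exact le_max_left _ _)
  obtain ⟨n₁, hn₁⟩ := exists_nat_ge (4 * (m : ℝ) / r')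
  obtain ⟨Cr, hCr⟩ : ∃ Cr, Cr = Cr₀ + (j + 1) + n₁ := ⟨_, rfl⟩
  rw [div_le_iff₀ hr'0] at hn₁
  have hCr1 : 4 * (m : ℝ) ≤ r' * Cr := by
    have h1 : (n₁ : ℝ) ≤ Cr := by
      have : n₁ ≤ Cr := by omega
      exact_mod_cast this
    have h2 : (n₁ : ℝ) * r' ≤ Cr * r' := mul_le_mul_of_nonneg_right h1 hr'0.le
    linarith only [hn₁, h2]
  exact by
   refine ⟨Dp, 2 * (Cr + Cj) + 1, 4 * Cr + 2 * Cj + 10, fun E hE₀ hE K => ?_⟩
   obtain ⟨M₀, hM₀⟩ := hJC Cr (by omega) K E hE
   refine ⟨E * (M₀ + 1), fun N hN d hNd => ?_⟩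
   have hd : M₀ + 1 ≤ d := by
     have : E * (M₀ + 1) ≤ E * d := by
       rw [← hNd]
       exact hN
     exact Nat.le_of_mul_le_mul_left this hE
   have hN0 : 0 < N := by
     rw [hNd]
     exact Nat.mul_pos hE (by omega)
   have hNr : (0 : ℝ) < N := by exact_mod_cast hN0
   obtain ⟨η₁, m₀, hη₁, hJF⟩ := hM₀ (d + 1) (by omega)
   obtain ⟨s₀, η, U, hη, hcore⟩ := core_evT m D j w Cj Cr Cc K E (d + 1) c η₁ m₀
     (fun _ F i₁ r w P A => ClG F i₁ r Dp w P A)
     (fun _ F i₁ r w P B hB B' h => clg_sub h) hm hD (by omega) hw1 (by omega) hE (by omega) hc0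
     hη₁ hJF
   obtain ⟨cx, hcx, hxle⟩ := xle_of_labW m K
   obtain ⟨gO, hgO, hOVc⟩ := hO K (1 / (2 * w)) h₁ (1 / (4 * N)) (η / (2 * N))
     (by have : (1 : ℝ) ≤ w := by exact_mod_cast hw1
         positivity) hh₁ (by positivity) (by positivity)
   obtain ⟨g, hg⟩ : ∃ g, g = min gO (min (h₁ / 2) (η / (4 * m * N))) := ⟨_, rfl⟩
   have hg0 : 0 < g := by rw [hg]; exact lt_min hgO (lt_min (by positivity) (by positivity))
   have hg3 : g ≤ gO := by rw [hg]; exact min_le_left _ _
   have hg1 : g ≤ h₁ / 2 := by rw [hg]; exact (min_le_right _ _).trans (min_le_left _ _)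
   have hg2 : g ≤ η / (4 * m * N) := by rw [hg]; exact (min_le_right _ _).trans (min_le_right _ _)
   refine ⟨r' / (8 * N), g, by positivity, hg0, ?_⟩
   intro i₁ i p hi hp hpN ψ κ hψ hκ S
   -- the list
   obtain ⟨η₂, hη₂⟩ : ∃ η₂, η₂ = η / (4 * N) := ⟨_, rfl⟩
   exact by
    have hη₂0 : 0 < η₂ := by rw [hη₂]; positivity
    obtain ⟨Mc, hMc⟩ := exists_nat_ge (((m : ℝ) + 1) / η₂)
    rw [div_le_iff₀ hη₂0] at hMc
    refine Clg.step (entL i₁ N Mc η₂) fun κ₂ hκ₂ => ?_
    obtain ⟨J₁, hste⟩ := ste_of_list (i₁ := i₁) (N := N) (Mc := Mc) hη₂0 hκ₂ hMc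
    obtain ⟨c₁, hc₁⟩ := pow_unbounded_of_one_lt
      (m.factorial * (6 * (3 + 2 * (m : ℝ) + 2 * m ^ 2)) ^ m * (4 * m) ^ m) (by norm_num : (1 : ℝ) < 2)
    -- the small quantities
    obtain ⟨ζ, hζ⟩ : ∃ ζ, ζ = min (min (ψ / 2) (κ₂ / 2)) (min (κ / 2) (η / (4 * N))) := ⟨_, rfl⟩
    have hζ0 : 0 < ζ := by
      rw [hζ]
      exact lt_min (lt_min (by positivity) (by positivity)) (lt_min (by positivity) (by positivity))
    have hζ1 : ζ ≤ ψ / 2 := by rw [hζ]; exact (min_le_left _ _).trans (min_le_left _ _)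
    have hζ2 : ζ ≤ κ₂ / 2 := by rw [hζ]; exact (min_le_left _ _).trans (min_le_right _ _)
    have hζ3 : ζ ≤ κ / 2 := by rw [hζ]; exact (min_le_right _ _).trans (min_le_left _ _)
    have hζ4 : ζ ≤ η / (4 * N) := by rw [hζ]; exact (min_le_right _ _).trans (min_le_right _ _)
    obtain ⟨cO, hcO, JO, hwin⟩ := (hOVc S (ψ / 2) (by positivity) i₁).win (ζ / 4) (by positivity)
    obtain ⟨τ, hτ⟩ : ∃ τ, τ = min (ζ / 24) (cO / 14) := ⟨_, rfl⟩
    have hτ0 : 0 < τ := by rw [hτ]; exact lt_min (by positivity) (by positivity)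
    have hτ1 : τ ≤ ζ / 24 := by rw [hτ]; exact min_le_left _ _
    have hτ2 : τ ≤ cO / 14 := by rw [hτ]; exact min_le_right _ _
    -- the threshold
    obtain ⟨TT, hTT⟩ : ∃ TT : ℝ, TT = 2 * N * (1 + |U| + m₀ + 2 * s₀ + 2 * c₁ / η + N) + J₁ + JO + N +
      2 / h₁ + 8 / (ψ * η) + 8 / (3 * cx * ζ) + 2 / (cx * cO) + 8 * (Cc + 1) / κ := ⟨_, rfl⟩
    obtain ⟨J₂, hJ₂⟩ := exists_nat_ge TT
    refine Clg.mono (J₂ := J₂) (Clg.of (S := S) (τ := τ) hτ0 0
      (Φ := fun J F A => S.St τ F A) (fun _ _ _ _ h => h)) ?_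
    rintro J hJ F A hSt hSb hTl hSp hCh hLab
    have hp' := F.isLaw
    have hJr : TT ≤ J := hJ₂.trans (by exact_mod_cast hJ)
    exact by
     have t1 : 0 ≤ |U| := abs_nonneg _
     have t2 : (0 : ℝ) ≤ m₀ := Nat.cast_nonneg _
     have t3 : (0 : ℝ) ≤ s₀ := Nat.cast_nonneg _
     have t4 : 0 ≤ 2 * c₁ / η := by positivity
     have t5 : (0 : ℝ) ≤ J₁ := Nat.cast_nonneg _
     have t5' : (0 : ℝ) ≤ JO := Nat.cast_nonneg _
     have t6 : 0 ≤ 2 / h₁ := by positivity
     have t7 : 0 ≤ 8 / (ψ * η) := by positivity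
     have t8 : 0 ≤ 8 / (3 * cx * ζ) := by positivity
     have t8' : 0 ≤ 2 / (cx * cO) := by positivity
     have t9 : 0 ≤ 8 * ((Cc : ℝ) + 1) / κ := by positivity
     obtain ⟨Ut, hUt⟩ : ∃ Ut, Ut = 1 + |U| + m₀ + 2 * s₀ + 2 * c₁ / η + N := ⟨_, rfl⟩
     have hUt0 : 0 < Ut := by rw [hUt]; linarith only [hNr, t1, t4]
     have t0 : 0 ≤ 2 * N * Ut := by positivity
     rw [← hUt] at hTT
     have v1 : 2 * N * Ut ≤ J := by linarith only [hNr, hJr, t6, t7, t8, t8', t9, hTT]
     have v2 : (J₁ : ℝ) ≤ J := by linarith only [hNr, hJr, t6, t7, t8, t8', t9, hTT, t0]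
     have v2o : (JO : ℝ) ≤ J := by linarith only [hNr, hJr, t6, t7, t8, t8', t9, hTT, t0]
     have v3 : (N : ℝ) ≤ J := by linarith only [hJr, t6, t7, t8, t8', t9, hTT, t0]
     have v4 : 2 / h₁ ≤ J := by linarith only [hNr, hJr, t7, t8, t8', t9, hTT, t0]
     have v5 : 8 / (ψ * η) ≤ J := by linarith only [hNr, hJr, t6, t8, t8', t9, hTT, t0]
     have v6 : 8 / (3 * cx * ζ) ≤ J := by linarith only [hNr, hJr, t6, t7, t8', t9, hTT, t0]
     have v6' : 2 / (cx * cO) ≤ J := by linarith only [hNr, hJr, t6, t7, t8, t9, hTT, t0]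
     have v7 : 8 * ((Cc : ℝ) + 1) / κ ≤ J := by linarith only [hNr, hJr, t6, t7, t8, t8', hTT, t0]
     have hJ0 : (0 : ℝ) ≤ J := Nat.cast_nonneg J
     have v2' : J₁ ≤ J := by exact_mod_cast v2
     have v2o' : JO ≤ J := by exact_mod_cast v2o
     have v3' : N ≤ J := by exact_mod_cast v3
     rw [div_le_iff₀ hh₁] at v4
     rw [div_le_iff₀ (by positivity)] at v5 v6 v6'
     exact by
      rw [div_le_iff₀ hκ] at v7
      -- the mesh
      obtain ⟨u, hu⟩ : ∃ u, u = J / N := ⟨_, rfl⟩
      rw [← hu] at hLab ⊢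
      have hu1 : 1 ≤ u := by rw [hu]; exact Nat.div_pos v3' hN0
      have hdm := Nat.div_add_mod J N
      have hml := Nat.mod_lt J hN0
      rw [← hu] at hdm
      have hJN : J ≤ 2 * N * u := by
        have h3 : N * 1 ≤ N * u := Nat.mul_le_mul_left _ hu1
        have h4 : 2 * N * u = N * u + N * u := by ring
        omega
      have hJNr : (J : ℝ) ≤ 2 * N * u := by exact_mod_cast hJN
      have hNuJ : N * u ≤ J := by rw [hu]; exact Nat.mul_div_le J N
      have hUtu : Ut ≤ u := by
        have h1 : 2 * N * Ut ≤ 2 * N * u := v1.trans hJNr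
        exact le_of_mul_le_mul_left h1 (by positivity)
      have hu1r : (1 : ℝ) ≤ u := by exact_mod_cast hu1
      have w1 : U ≤ u := by linarith only [hNr, t4, hUt, hUtu, le_abs_self U]
      have w2 : (m₀ : ℝ) ≤ u := by linarith only [hNr, t1, t4, hUt, hUtu]
      have w3 : 2 * (s₀ : ℝ) ≤ u := by linarith only [hNr, t1, t4, hUt, hUtu]
      have w4 : 2 * c₁ / η ≤ u := by linarith only [hNr, t1, hUt, hUtu]
      have w5 : (N : ℝ) ≤ u := by linarith only [t1, t4, hUt, hUtu]
      rw [div_le_iff₀ hη] at w4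
      have w2' : m₀ ≤ u := by exact_mod_cast w2
      have w3' : 2 * s₀ ≤ u := by exact_mod_cast w3
      have w5' : N ≤ u := by exact_mod_cast w5
      -- inequalities between the indices
      have hEd : N = E * d := hNd
      have k1 : (4 * Cr + 2 * Cj + 10) * d ≤ E * d := Nat.mul_le_mul_right _ hE₀
      exact by
       have k2 : (4 * Cr + 2 * Cj + 10) * d = 4 * (Cr * d) + 2 * (Cj * d) + 10 * d := by ring
       have k3 : (Cr + Cj) * (d + 1) = Cr * d + Cj * d + Cr + Cj := by ring
       have k4 : Cr ≤ Cr * d := Nat.le_mul_of_pos_right _ (by omega)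
       have k5 : Cj ≤ Cj * d := Nat.le_mul_of_pos_right _ (by omega)
       have k6 : Cr * (d + 1) = Cr * d + Cr := by ring
       have k7 : (2 * (Cr + Cj) + 1) * d = 2 * (Cr * d) + 2 * (Cj * d) + d := by ring
       -- the numbers
       obtain ⟨e₀, he₀⟩ : ∃ e₀, e₀ = (d + 1) * u := ⟨_, rfl⟩
       obtain ⟨L', hL'⟩ : ∃ L', L' = (p - 3 * (d + 1)) * u := ⟨_, rfl⟩
       have e1 : 0 + 2 * e₀ = 2 * (d + 1) * u := by rw [he₀]; ring
       have e3 : Pp 0 e₀ L' = p * u := by
         have h1 : Pp 0 e₀ L' = 3 * e₀ + L' := by unfold Pp; omega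
         rw [h1, he₀, hL', ← mul_assoc, ← Nat.add_mul]
         congr 1
         omega
       have hPJ : Pp 0 e₀ L' ≤ J := by
         rw [e3]
         exact (Nat.mul_le_mul_right _ hpN.le).trans hNuJ
       have hJP : J ≤ Pp 0 e₀ L' + e₀ := by
         rw [e3, he₀]
         have h1 : N * u ≤ (p + d) * u := Nat.mul_le_mul_right _ hp
         have h2 : (p + d) * u = p * u + d * u := by ring
         have h3 : (d + 1) * u = d * u + u := by ring
         omega
       have e5 : (Cr + Cj) * e₀ ≤ L' := by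
         rw [he₀, hL', ← mul_assoc]
         exact Nat.mul_le_mul_right _ (by omega)
       have e6 : L' ≤ E * e₀ := by
         rw [he₀, hL', ← mul_assoc]
         refine Nat.mul_le_mul_right _ ?_
         have : E * d ≤ E * (d + 1) := Nat.mul_le_mul_left _ (by omega)
         omega
       exact by
        have e7 : Pp 0 e₀ L' - Cr * e₀ = (p - Cr * (d + 1)) * u := by
          rw [e3, he₀, ← mul_assoc, ← Nat.sub_mul]
        have e8 : (N - (2 * (Cr + Cj) + 1) * d) * u ≤ Pp 0 e₀ L' - (Cr + Cj) * e₀ := by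
          rw [e3, he₀, ← mul_assoc, ← Nat.sub_mul]
          exact Nat.mul_le_mul_right _ (by omega)
        -- the probability of `A`
        have hA : Real.exp (-(τ * J)) ≤ Pe F.p A := hSt.2
        have hA0 : 0 < Pe F.p A := lt_of_lt_of_le (Real.exp_pos _) hA
        have hRb := S.rb hSt.1
        have hTm := S.tm hSt.1
        have hTr := S.tr hSt.1
        -- the label
        have hwJ : 0 + 2 * e₀ ≤ J := by
          rw [e1]
          exact (Nat.mul_le_mul_right _ (by omega)).trans hNuJ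
        have hiw : i * u ≤ 0 + 2 * e₀ := by
          rw [e1]
          exact Nat.mul_le_mul_right _ (by omega)
        have hLab2 : Lab F i₁ J K (0 + 2 * e₀) (0 + 2 * e₀) (Pp 0 e₀ L') A :=
          Lab.mono le_rfl le_rfl hiw hiw hwJ (by rw [e3]) hLab
        obtain ⟨G₀, H₀, hlab⟩ := lab_iff.1 hLab2
        obtain ⟨B₀, hB0, hPB0, hxl⟩ := hxle J F i₁ J 0 (0 + 2 * e₀) (0 + 2 * e₀ + e₀) (Pp 0 e₀ L') A
          (τ * J) (τ * J) (τ * J) G₀ H₀ (by omega) (by omega) (by unfold Pp; omega) hPJ le_rfl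
          hlab hTr hTm hRb hA
        have hPB0' : cx * Real.exp (-(ζ / 4 * J)) * Pe F.p A ≤ Pe F.p B₀ := by
          refine le_trans (mul_le_mul_of_nonneg_right (mul_le_mul_of_nonneg_left
            (Real.exp_le_exp.2 ?_) hcx.le) (Pe_nonneg hp' A)) hPB0
          have : τ * J ≤ ζ / 24 * J := mul_le_mul_of_nonneg_right hτ1 hJ0
          linarith only [this]
        have hStB : S.St cO F B₀ := by
          refine ⟨S.mono (by linarith only [hτ0, hτ2]) hSt.1, ?_⟩
          refine le_trans ?_ ((mul_le_mul_of_nonneg_left hA (by positivity)).trans hPB0)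
          rw [mul_assoc, ← Real.exp_add]
          have h1 : Real.exp (-(cO * J)) = Real.exp (-(cO / 2 * J)) * Real.exp (-(cO / 2 * J)) := by
            rw [← Real.exp_add]
            congr 1
            ring
          have h2 : Real.exp (-(cO / 2 * J)) * (1 / cx) ≤ 1 := by
            refine exp_mul_le_one ?_
            rw [div_le_iff₀ hcx]
            linarith only [v6']
          have h3 : Real.exp (-(cO / 2 * J)) ≤ cx := by
            rw [mul_one_div, div_le_one hcx] at h2
            exact h2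
          rw [h1]
          refine mul_le_mul h3 (Real.exp_le_exp.2 ?_) (Real.exp_pos _).le hcx.le
          have : τ * J ≤ cO / 14 * J := mul_le_mul_of_nonneg_right hτ2 hJ0
          linarith only [this]
        exact by
         obtain ⟨B₁, hB1, hPB1, hΦ⟩ := hwin J v2o' F B₀ hStB
         have hB1A : Sub B₁ A := hB1.trans hB0
         -- the probability of `B₁`
         have hPB' : Real.exp (-(ζ * J)) * Pe F.p A ≤ 3 / 4 * Pe F.p B₁ := by
           have h1 : Real.exp (-(ζ / 4 * J)) * (cx * Real.exp (-(ζ / 4 * J)) * Pe F.p A) ≤ Pe F.p B₁ :=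
             (mul_le_mul_of_nonneg_left hPB0' (Real.exp_pos _).le).trans hPB1
           have h4 : Real.exp (-(ζ / 2 * J)) * (4 / (3 * cx)) ≤ 1 := by
             refine exp_mul_le_one ?_
             rw [div_le_iff₀ (by positivity)]
             linarith only [v6]
           have h5 : Real.exp (-(ζ / 2 * J)) ≤ 3 / 4 * cx := by
             rw [← le_div_iff₀ (by positivity)] at h4
             refine h4.trans (le_of_eq ?_)
             field_simp
           have h6 : Real.exp (-(ζ * J)) = Real.exp (-(ζ / 2 * J)) * (Real.exp (-(ζ / 4 * J)) *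
               Real.exp (-(ζ / 4 * J))) := by
             rw [← Real.exp_add, ← Real.exp_add]
             congr 1
             ring
           rw [h6]
           have h7 : Real.exp (-(ζ / 2 * J)) * (Real.exp (-(ζ / 4 * J)) * Real.exp (-(ζ / 4 * J))) *
               Pe F.p A ≤ 3 / 4 * cx * (Real.exp (-(ζ / 4 * J)) * Real.exp (-(ζ / 4 * J))) *
               Pe F.p A :=
             mul_le_mul_of_nonneg_right (mul_le_mul_of_nonneg_right h5 (by positivity))
               (Pe_nonneg hp' A)
           linarith only [h1, h7]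
         have hexp : ∀ x : ℝ, ζ ≤ x → Real.exp (-(x * J)) * Pe F.p A ≤ 3 / 4 * Pe F.p B₁ := by
           intro x hx
           refine le_trans (mul_le_mul_of_nonneg_right (Real.exp_le_exp.2 ?_) (Pe_nonneg hp' A)) hPB'
           have : ζ * J ≤ x * J := mul_le_mul_of_nonneg_right hx hJ0
           linarith only [this]
         exact by
          have hB1nn := Pe_nonneg hp' B₁
          have hSpB : Sp F (m - 2) (ψ / 2) gO B₁ := by
            have h1 := hSp.sub (δ := ψ / 2) hB1A ((hexp _ hζ1).trans (by linarith only [hB1nn]))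
            rw [show ψ - ψ / 2 = ψ / 2 by ring] at h1
            exact h1.mono le_rfl hg3
          have hOV' := hΦ hSpB (Ch.hered F i₁ _ A B₁ hB1A hCh)
          -- the scale
          obtain ⟨q, hq⟩ : ∃ q, q = ⌊g * J⌋₊ := ⟨_, rfl⟩
          have hq1 : (q : ℝ) ≤ g * J := by rw [hq]; exact Nat.floor_le (by positivity)
          obtain ⟨δ, hδ⟩ : ∃ δ : ℝ, δ = 1 / (4 * m * 2 ^ q) := ⟨_, rfl⟩
          have hq2 : (1 : ℝ) ≤ 2 ^ q := one_le_pow₀ (by norm_num)
          have hδ0 : 0 < δ := by rw [hδ]; positivity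
          obtain ⟨γ, hγ⟩ : ∃ γ : ℕ, γ = m * q + c₁ := ⟨_, rfl⟩
          have hγu : (γ : ℝ) ≤ η * u := by
            rw [hγ]
            push_cast
            have h1 : (m : ℝ) * q ≤ m * (η / (4 * m * N) * (2 * N * u)) := by
              refine mul_le_mul_of_nonneg_left (hq1.trans ?_) (by positivity)
              exact mul_le_mul hg2 hJNr hJ0 (by positivity)
            have h2 : (m : ℝ) * (η / (4 * m * N) * (2 * N * u)) = η * u / 2 := by
              field_simp
              ring
            linarith only [w4, h1, h2]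
          obtain ⟨A', hA1', hA2', hA3'⟩ := hcore J F i₁ u e₀ 0 L' J A B₁ ⌊h₁ * J⌋₊ γ ψ g δ (τ * J)
            (τ * J) ((τ + ζ) * J) (Real.exp (-(κ₂ * J / 2))) (2 * (η₂ * J)) G₀ w1 w2' he₀
            (dvd_zero _) ⟨_, by rw [hL', Nat.mul_comm]⟩ e5 e6 hPJ
            (by
              have h1 : J - Pp 0 e₀ L' ≤ e₀ := by omega
              exact_mod_cast h1)
            le_rfl hTr hTm hRb hCh hψ hSp hA0 hδ0
            (by
              rw [hδ, div_lt_div_iff₀ (by positivity) (by norm_num)]
              nlinarith only [hmr, hq2])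
            (by
              have h1 : q + 1 ≤ ⌊h₁ * J⌋₊ := by
                refine Nat.le_floor ?_
                push_cast
                have : g * J ≤ h₁ / 2 * J := mul_le_mul_of_nonneg_right hg1 hJ0
                linarith only [v4, hq1, this]
              have h2 : (1 : ℝ) / 2 ^ ⌊h₁ * (J : ℝ)⌋₊ ≤ 1 / 2 ^ (q + 1) := inv_mono h1
              have h3 : 2 * (m : ℝ) * δ = 1 / 2 ^ (q + 1) := by
                rw [hδ, pow_succ]
                field_simp
                norm_num
              have h4 : (1 : ℝ) / 2 ^ (q + 1) + 1 / 2 ^ (q + 1) = 1 / 2 ^ q := by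
                rw [pow_succ]
                field_simp
                norm_num
              rw [← hq]
              linarith only [h2, h3, h4])
            (by
              have h1 : δ ^ m * 2 ^ γ = 2 ^ c₁ / (4 * m) ^ m := by
                rw [hδ, hγ, pow_add, div_pow, one_pow, mul_pow, ← pow_mul, Nat.mul_comm q m]
                field_simp
              rw [h1, le_div_iff₀ (by positivity)]
              exact hc₁.le)
            hB1A (hexp _ hζ1)
            (by
              have := hexp _ hζ2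
              rw [show κ₂ / 2 * (J : ℝ) = κ₂ * J / 2 by ring] at this
              exact this)
            (by
              rw [Real.exp_le_one_iff]
              have : 0 ≤ κ₂ * J := by positivity
              linarith only [this])
            (by
              refine le_trans ?_ hPB'
              have h1 : Real.exp (-((τ + ζ) * J)) = Real.exp (-(ζ * J)) * Real.exp (-(τ * J)) := by
                rw [← Real.exp_add]
                congr 1
                ring
              rw [h1]
              exact mul_le_mul_of_nonneg_left hA (Real.exp_pos _).le)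
            (by positivity) hlab.1 (hxl.sub hB1)
            (by
              have h0 : τ * J ≤ ζ / 24 * J := mul_le_mul_of_nonneg_right hτ1 hJ0
              have h1 : 4 * (τ * J) + τ * J + (τ + ζ) * J ≤ 2 * ζ * J := by
                have : 0 ≤ ζ * J := by positivity
                linarith only [h0, this]
              have h2 : 2 * ζ * J ≤ 2 * (η / (4 * N)) * (2 * N * u) :=
                mul_le_mul (by linarith only [hζ4]) hJNr hJ0 (by positivity)
              have h3 : 2 * (η / (4 * N)) * (2 * N * u) = η * u := by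
                field_simp
                norm_num
              linarith only [w4, h0, h2, h3])
            hγu
            (by
              have h1 : Real.exp (-(ψ / 4 * J)) * (2 / η) ≤ 1 := by
                refine exp_mul_le_one ?_
                rw [div_le_iff₀ hη]
                nlinarith only [v5]
              rw [mul_div_assoc', div_le_iff₀ hη] at h1
              linarith only [h1])
            (by
              have h2 : 2 * (η₂ * J) ≤ 2 * (η / (4 * N) * (2 * N * u)) := by
                rw [hη₂]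
                exact mul_le_mul_of_nonneg_left (mul_le_mul_of_nonneg_left hJNr (by positivity))
                  (by norm_num)
              have h3 : 2 * (η / (4 * N) * (2 * N * u)) = η * u := by
                field_simp
                norm_num
              linarith only [h2, h3])
            (by
              intro a b hab hb
              have hbN : b ≤ N := by
                by_contra hcon
                have h1 : (N + 1) * u ≤ b * u := Nat.mul_le_mul_right _ (by omega)
                have h2 : (N + 1) * u = N * u + u := by ring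
                omega
              have := hste J F A v2' hA0 hSb a b hab hbN
              rw [← hu] at this
              exact this)
            (by
              intro k hk
              by_cases hz : Zm F (1 / (2 * w)) (0 + 2 * e₀ + e₀ + u * k + s₀)
                  (0 + 2 * e₀ + e₀ + u * (k + 1)) B₁
              · refine Or.inl ?_
                have h1 := hOV' J (0 + 2 * e₀) (Pp 0 e₀ L') (0 + 2 * e₀ + e₀ + u * k + s₀)
                  (0 + 2 * e₀ + e₀ + u * (k + 1)) G₀ H₀ (hlab.sub hB1A) (by omega)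
                  (by
                    have h2 : (1 : ℝ) / (4 * N) * J ≤ u / 2 := by
                      rw [div_mul_eq_mul_div, one_mul, div_le_iff₀ (by positivity)]
                      linarith only [hJNr]
                    push_cast
                    linarith only [hNr, t1, t4, hUt, hUtu, h2])
                  (by unfold Pp; omega) hPJ le_rfl hz
                refine le_trans h1 ?_
                have h2 : η / (2 * N) * J ≤ η / (2 * N) * (2 * N * u) :=
                  mul_le_mul_of_nonneg_left hJNr (by positivity)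
                refine h2.trans (le_of_eq ?_)
                field_simp
              · exact Or.inr hz)
            (by
              refine rate_of_tl hA0 hm hr'0 hr'1 hr'2 hc hCr1 hPJ hJP ?_ ?_ ?_ hTl
              · rw [e7]
                have h1 : J ≤ (N + 1) * u := by
                  have : (N + 1) * u = N * u + u := by ring
                  omega
                refine h1.trans ?_
                rw [← mul_assoc]
                exact Nat.mul_le_mul_right _ (by omega)
              · refine le_trans ?_ (le_trans e5 (by unfold Pp; omega))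
                exact Nat.mul_le_mul_right _ (Nat.le_add_right _ _)
              · have h1 : r' / (8 * N) * J ≤ r' / (8 * N) * (2 * N * u) :=
                  mul_le_mul_of_nonneg_left hJNr (by positivity)
                have h2 : r' / (8 * N) * (2 * N * u) = r' / 4 * u := by
                  field_simp
                  ring
                have h3 : (u : ℝ) ≤ e₀ := by
                  have : u ≤ e₀ := by rw [he₀]; exact Nat.le_mul_of_pos_left _ (by omega)
                  exact_mod_cast this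
                have h4 : r' / 4 * u ≤ r' / 4 * e₀ := mul_le_mul_of_nonneg_left h3 (by positivity)
                linarith only [h1, h2, h4])
          exact by
           refine ⟨A', hA1'.trans hB1A, ?_, ClG.mono le_rfl le_rfl e8 hA3'⟩
           -- the final probability
           have hCc : (0 : ℝ) < 4 * (Cc + 1) := by positivity
           have h1 : 3 / 4 * Pe F.p B₁ ≤ 4 * (Cc + 1) * Pe F.p A' := by
             have := Pe_nonneg hp' A'
             linarith only [hA2', this]
           have h2 : Real.exp (-(κ / 2 * J)) * (4 * (Cc + 1)) ≤ 1 := by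
             refine exp_mul_le_one ?_
             linarith only [v7]
           have h3 := hexp _ hζ3
           have h4 : Real.exp (-(κ * J)) = Real.exp (-(κ / 2 * J)) * Real.exp (-(κ / 2 * J)) := by
             rw [← Real.exp_add]
             congr 1
             ring
           have h5 : 4 * (Cc + 1) * (Real.exp (-(κ * J)) * Pe F.p A) ≤ 4 * (Cc + 1) * Pe F.p A' := by
             refine le_trans ?_ (h3.trans h1)
             have h6 : 4 * ((Cc : ℝ) + 1) * (Real.exp (-(κ * J)) * Pe F.p A) =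
                 Real.exp (-(κ / 2 * J)) * (4 * (Cc + 1)) * (Real.exp (-(κ / 2 * J)) * Pe F.p A) := by
               rw [h4]
               ring
             rw [h6]
             exact mul_le_of_le_one_left (mul_nonneg (Real.exp_pos _).le (Pe_nonneg hp' A)) h2
           exact le_of_mul_le_mul_left h5 hCc

end Pool.FLF
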