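import Pool.Agent.H99.LST.CRD
import Pool.Agent.H78.KST.OUT3

/-!
# The closed label from a count
-/

set_option autoImplicit false

namespace Pool.FLF

open Finset Real
open Pool.Agent.H49.Ent Pool.Agent.H32.Dense Pool.STK Pool.KA Pool.KSAT Pool.K2S Pool.KS3
open Pool.KAL Pool.PB Pool.KST

variable {m J n : ℕ}

/-- Closed labels of a restricted family. -/
lemma cls_sub {F : Fam m J} {B : F.Ω → Prop} {hB : 0 < Pe F.p B} {i₁ : Fin m} {r b w P : ℕ}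
    {E : {ω // B ω} → Prop} (h : Cls (Fam.sub F B hB) i₁ r b w P E) :
    Cls F i₁ r b w P (fun ω => ∃ h : B ω, E ⟨ω, h⟩) := by
  obtain ⟨V, z, z', f, h⟩ := h
  exact ⟨V, z, z', f, fun ω hω => h ⟨ω, hω.1⟩ hω.2⟩

/-- Polynomial labels of a restricted family. -/
lemma lab_sub {F : Fam m J} {B : F.Ω → Prop} {hB : 0 < Pe F.p B} {i₁ : Fin m} {r K a w P : ℕ}
    {E : {ω // B ω} → Prop} (h : Lab (Fam.sub F B hB) i₁ r K a w P E) :
    Lab F i₁ r K a w P (fun ω => ∃ h : B ω, E ⟨ω, h⟩) := by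
  obtain ⟨G, H, h1, h2, h3⟩ := h
  exact ⟨G, H, h1, h2, fun ω hω => h3 ⟨ω, hω.1⟩ hω.2⟩

/-- Closed labels of the restricted family from closed labels. -/
lemma sub_cls {F : Fam m J} {B : F.Ω → Prop} {hB : 0 < Pe F.p B} {i₁ : Fin m} {r b w P : ℕ}
    (h : Cls F i₁ r b w P B) : Cls (Fam.sub F B hB) i₁ r b w P (fun _ => True) := by
  obtain ⟨V, z, z', f, h⟩ := h
  exact ⟨V, z, z', f, fun ω _ => h ω.1 ω.2⟩

/-- The number of an element of a finite set. -/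
noncomputable def rnk {V : Type} (s : Finset V) (v : V) : ℕ :=
  open Classical in if h : v ∈ s then (s.equivFin ⟨v, h⟩ : ℕ) else 0

/-- The element of a finite set with a given number. -/
noncomputable def unrnk (s : Finset ℕ) (k : ℕ) : ℕ :=
  if h : k < s.card then ((s.equivFin.symm ⟨k, h⟩ : s) : ℕ) else 0

lemma rnk_lt {V : Type} {s : Finset V} {v : V} (h : v ∈ s) : rnk s v < s.card := by
  unfold rnk
  rw [dif_pos h]
  exact (s.equivFin ⟨v, h⟩).2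

lemma unrnk_rnk {s : Finset ℕ} {v : ℕ} (h : v ∈ s) : unrnk s (rnk s v) = v := by
  have h1 := rnk_lt h
  unfold unrnk
  rw [dif_pos h1]
  have h2 : (⟨rnk s v, h1⟩ : Fin s.card) = s.equivFin ⟨v, h⟩ := by
    apply Fin.ext
    simp only [rnk]
    rw [dif_pos h]
  rw [h2, Equiv.symm_apply_apply]

/-- **The closed label, from a count.** On the event `A` the labels agree and the cell of the
coordinate `i₁` is one of at most `Kc` values which depend on the label and the base. -/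
theorem out_card (F : Fam m J) {w L r q : ℕ} (h : w + L = r) (hq : q ≤ L)
    (i₁ : Fin m) (cl : ((Fin m → ℝ) × (Fin m → ℝ)) × F.ζ × ℕ → Fin m → ℤ) {Y : Type}
    (y : (Fin m → ℤ) × (ℕ × F.ζ) → Y)
    (sl : ((Fin m → ℝ) × (Fin m → ℝ)) × F.ζ × ℕ → Option Y)
    {Γ : Type} (base : (Fin m → ℤ) × (ℕ × F.ζ) → Γ)
    (hbase : ∀ ξ : (Fin m → ℤ) × (ℕ × F.ζ), base (Function.update ξ.1 i₁ 0, ξ.2) = base ξ)
    (S : Γ × Y → Finset ℕ) (Kc : ℕ) (hS : ∀ g, (S g).card ≤ Kc) (A : F.Ω → Prop)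
    (hA0 : 0 < Pe F.p A)
    (hA : ∀ ω, A ω → F.X w ω = cl (slam F w ω) ∧ some (y (ptr F r ω)) = sl (slam F w ω) ∧
      (F.X r ω i₁ % 2 ^ L).toNat / 2 ^ q ∈ S (base (ptr F r ω), y (ptr F r ω))) :
    ∃ B : F.Ω → Prop, Sub B A ∧ Pe F.p A ≤ Kc * Pe F.p B ∧ Cls F i₁ r 1 w (r - q) B := by
  classical
  have h0 := F.isLaw.nonneg
  obtain ⟨ω₀, hω₀, hp₀⟩ : ∃ ω, A ω ∧ 0 < F.p ω := by
    by_contra hcon
    push Not at hcon
    refine absurd hA0 (not_lt.mpr ?_)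
    rw [Pe_eq]
    refine Finset.sum_nonpos fun ω _ => ?_
    split_ifs with hh
    · exact hcon ω hh
    · exact le_rfl
  have hKc0 : 0 < Kc := by
    have h1 := (hA ω₀ hω₀).2.2
    exact lt_of_lt_of_le (Finset.card_pos.mpr ⟨_, h1⟩) (hS _)
  obtain ⟨v, hv, hPv⟩ := pigeon F.isLaw (A := A)
    (fun ω => rnk (S (base (ptr F r ω), y (ptr F r ω))) ((F.X r ω i₁ % 2 ^ L).toNat / 2 ^ q))
    (Finset.range Kc) ⟨0, Finset.mem_range.mpr hKc0⟩ (by
      intro ω hω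
      rw [Finset.mem_range]
      exact lt_of_lt_of_le (rnk_lt (hA ω hω).2.2) (hS _))
  rw [Finset.card_range] at hPv
  obtain ⟨B, hBd⟩ : ∃ B : F.Ω → Prop, B = fun ω => A ω ∧
    rnk (S (base (ptr F r ω), y (ptr F r ω))) ((F.X r ω i₁ % 2 ^ L).toNat / 2 ^ q) = v := ⟨_, rfl⟩
  rw [← hBd] at hPv
  have hKr : (0 : ℝ) < Kc := by exact_mod_cast hKc0
  have hB0 : 0 < Pe F.p B := lt_of_lt_of_le (div_pos hA0 hKr) hPv
  have hval : ∀ ω, B ω → (F.X r ω i₁ % 2 ^ L).toNat / 2 ^ q =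
      unrnk (S (base (ptr F r ω), y (ptr F r ω))) v := by
    intro ω hω
    rw [hBd] at hω
    rw [← hω.2]
    exact (unrnk_rnk (hA ω hω.1).2.2).symm
  have hBA : Sub B A := fun ω hω => by rw [hBd] at hω; exact hω.1
  obtain ⟨E, hE, hcls⟩ := out_cls (Fam.sub F B hB0) h hq i₁ cl
    (fun ω => (hA ω.1 (hBA _ ω.2)).1) y sl base hbase 0 0 one_pos
    (by
      refine le_of_eq ?_
      rw [Pe_eq]
      refine Finset.sum_eq_zero fun ω _ => ?_
      rw [if_neg]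
      exact fun hne => hne (hA ω.1 (hBA _ ω.2)).2.1)
    (by
      refine le_of_eq (CH_eq_zero (Fam.sub F B hB0).isLaw.nonneg ?_)
      intro ω ω' _ _ hh
      have h1 := hval ω.1 ω.2
      have h2 := hval ω'.1 ω'.2
      have h3 : (base (ptr F r ω.1), y (ptr F r ω.1)) =
        (base (ptr F r ω'.1), y (ptr F r ω'.1)) := hh
      change (F.X r ω.1 i₁ % 2 ^ L).toNat / 2 ^ q = (F.X r ω'.1 i₁ % 2 ^ L).toNat / 2 ^ q
      rw [h1, h2, h3])
  refine ⟨fun ω => ∃ h : B ω, E ⟨ω, h⟩, fun ω hω => hBA ω hω.1, ?_, cls_sub hcls⟩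
  rw [sub_Pe hB0 E]
  have e1 : (1 - (0 : ℝ)) * Real.exp (-(0 / (1 - 0))) = 1 := by norm_num
  rw [e1] at hE
  have e2 : Pe F.p B * 1 ≤ Pe F.p B * Pe (sp F.p B) E := mul_le_mul_of_nonneg_left hE hB0.le
  rw [div_le_iff₀ hKr] at hPv
  nlinarith

/-- **From the macro step to the closed label.** -/
theorem out_fam (F : Fam m J) (i₁ : Fin m) {w L P r q Kc : ℕ} (h : w + L = P) (hPr : P ≤ r)
    (hq : q ≤ L) {Z Y : Type}
    (cl : ((Fin m → ℝ) × (Fin m → ℝ)) × F.ζ × ℕ → Fin m → ℤ)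
    (z : F.Ω → Z) (zx : (Fin m → ℤ) × (ℕ × F.ζ) → Z) (y : Z → Y)
    (sl : ((Fin m → ℝ) × (Fin m → ℝ)) × F.ζ × ℕ → Option Y)
    (S : (Fin m → ℕ) × Y → Finset ℕ) (hS : ∀ g, (S g).card ≤ Kc) (A : F.Ω → Prop)
    (hA0 : 0 < Pe F.p A)
    (hA : ∀ ω, A ω → z ω = zx (ptr F r ω) ∧ F.X w ω = cl (slam F w ω) ∧
      some (y (z ω)) = sl (slam F w ω) ∧
      ppos L (chI i₁) (trp F P ω) none / 2 ^ q ∈
        S (bas (fun ξ : ((Fin m → ℤ) × (ℕ × F.ζ)) × Z => ppos L (chI i₁) ξ.1)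
          (trp F P ω, z ω), y (z ω))) :
    ∃ B : F.Ω → Prop, Sub B A ∧ Pe F.p A ≤ Kc * Pe F.p B ∧ Cls F i₁ r 1 w (P - q) B := by
  classical
  obtain ⟨t, ht⟩ : ∃ t, t = r - P := ⟨_, rfl⟩
  obtain ⟨base, hbd⟩ : ∃ base : (Fin m → ℤ) × (ℕ × F.ζ) → (Fin m → ℕ),
    base = fun ξ j => if j = i₁ then ξ.2.1 / 2 ^ (J - P) % 2 ^ L else
      (ξ.1 j / 2 ^ t % 2 ^ L).toNat := ⟨_, rfl⟩
  have hXP : ∀ ω j, (ptr F r ω).1 j / 2 ^ t = F.X P ω j := fun ω j =>
    Xr_div F (w := P) (L := t) (r := r) (by omega) ω j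
  have hb : ∀ ω, base (ptr F r ω) = bas (fun ξ : ((Fin m → ℤ) × (ℕ × F.ζ)) × Z =>
      ppos L (chI i₁) ξ.1) (trp F P ω, z ω) := by
    intro ω
    rw [hbd]
    funext j
    unfold bas ppos chI
    simp only
    by_cases hj : j = i₁
    · simp only [Option.elim, if_pos hj]
      rfl
    · simp only [Option.elim, if_neg hj]
      rw [hXP ω j]
      rfl
  obtain ⟨B, hB1, hB2, hB3⟩ := out_card F (w := w) (L := L + t) (r := r) (q := q + t)
    (by omega) (by omega) i₁ cl (fun ξ => y (zx ξ)) sl base (by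
      intro ξ
      rw [hbd]
      funext j
      simp only
      by_cases hj : j = i₁
      · rw [if_pos hj, if_pos hj]
      · rw [if_neg hj, if_neg hj, Function.update_of_ne hj]) S Kc hS A hA0 (by
      intro ω hω
      obtain ⟨a1, a2, a3, a4⟩ := hA ω hω
      rw [← a1, hb ω]
      refine ⟨a2, a3, ?_⟩
      have e1 : (F.X r ω i₁ % 2 ^ (L + t)).toNat / 2 ^ (q + t) =
          ppos L (chI i₁) (trp F P ω) none / 2 ^ q := by
        have e2 : ppos L (chI i₁) (trp F P ω) none = (F.X P ω i₁ % 2 ^ L).toNat := rfl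
        have e3 : (F.X r ω i₁ % 2 ^ (L + t)).toNat / 2 ^ t = (F.X P ω i₁ % 2 ^ L).toNat := by
          rw [emod_div_pow]
          rw [← hXP ω i₁]
          rfl
        rw [e2, ← e3, Nat.div_div_eq_div_mul, ← pow_add, Nat.add_comm t q]
      rw [e1]
      exact a4)
  refine ⟨B, hB1, hB2, ?_⟩
  rw [show P - q = r - (q + t) by omega]
  exact hB3

end Pool.FLF
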