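import Pool.Agent.H99.LST.Iface
import Pool.Agent.H99.LST.OUTC
import Pool.Agent.H37.STPA.Reg2

/-!
# Exact labels, second version

The data of an exact label of a restricted family.
-/

set_option autoImplicit false

namespace Pool.FLF

open Finset Real
open Pool.Agent.H49.Ent Pool.Agent.H32.Dense Pool.STK Pool.KA Pool.KSAT Pool.K2S Pool.KS3
open Pool.KAL Pool.PB Pool.KST

variable {m J : ℕ}

/-- **Exact labels**, for a given polynomial label. -/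
theorem exact_labelW (m K : ℕ) : ∃ c : ℝ, 0 < c ∧
    ∀ (J : ℕ) (F : Fam m J) (i₁ : Fin m) (r w L P : ℕ) (A : F.Ω → Prop)
      (G₀ : (Fin m → ℤ) × (ℕ × F.ζ) → MvPolynomial (Fin m) ℝ)
      (H₀ : ((Fin m → ℝ) × (Fin m → ℝ)) × F.ζ × ℕ → MvPolynomial (Fin m) ℝ), w + L = P → P ≤ J →
      w ≤ r → LabW F i₁ r K w w P G₀ H₀ A →
      ∃ B : F.Ω → Prop, Sub B A ∧ c * Pe F.p A ≤ Pe F.p B ∧
        ∃ (Z : Type) (zx : (Fin m → ℤ) × (ℕ × F.ζ) → Z)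
          (zs : ((Fin m → ℝ) × (Fin m → ℝ)) × F.ζ × ℕ → Z) (cz : Z → ℕ × (Fin m → ℤ))
          (cζ : Z → F.ζ)
          (cl : ((Fin m → ℝ) × (Fin m → ℝ)) × F.ζ × ℕ → Fin m → ℤ)
          (G : Z → MvPolynomial (Fin m) ℝ), ∀ ω, B ω →
            zx (ptr F r ω) = zs (slam F w ω) ∧
            cz (zx (ptr F r ω)) = (F.T1 w ω, F.X w ω) ∧ cζ (zx (ptr F r ω)) = F.Z ω ∧
            F.X w ω = cl (slam F w ω) ∧
            RegG (G (zx (ptr F r ω))) (fun _ => 0) 1 K (3 + 2 * m + 2 * m ^ 2) ∧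
            |rp (2 ^ L) (ppos L (chI i₁)) (trp F P ω) none -
              MvPolynomial.eval (fun j => rp (2 ^ L) (ppos L (chI i₁)) (trp F P ω) (some j))
                (G (zx (ptr F r ω)))| ≤ (3 + 2 * m + 2 * m ^ 2) / 2 ^ L ∧
            ∀ y : Fin m → ℝ, (∀ j, |y j| ≤ 1) → |MvPolynomial.eval y (G (zx (ptr F r ω))) -
              MvPolynomial.eval y (grI i₁ w (F.T1 w ω, F.X w ω) (G₀ (ptr F r ω)))| ≤
                1 / 2 ^ L := by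
  classical
  obtain ⟨bx, hbx⟩ : ∃ bx, bx = expBox (Fin m) K := ⟨_, rfl⟩
  obtain ⟨s, hs⟩ : ∃ s : ℕ, (bx.card : ℝ) ≤ 2 ^ s := by
    refine ⟨bx.card, ?_⟩
    exact_mod_cast Nat.lt_two_pow_self.le
  obtain ⟨c, hc, hround⟩ := round_lab m K s
  refine ⟨c / 3 ^ m, by positivity, ?_⟩
  intro J F i₁ r w L P A G₀ H₀ hwL hPJ hwr hlab
  have hw : w ≤ J := by omega
  have hL0 : (0 : ℝ) < 2 ^ L := by positivity
  have hLs0 : (0 : ℝ) < 2 ^ (L + s) := by positivity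
  obtain ⟨B₁, hB1, hP1, cl, hcl⟩ := cell_event F hw A
  obtain ⟨hG₀, hH₀, hGH⟩ := hlab
  have hcelx : ∀ ω, celx J w r (ptr F r ω) = (F.T1 w ω, F.X w ω) := fun ω => celx_ptr F hwr ω
  have hT : ∀ ω, (slam F w ω).2.2 = F.T1 w ω := fun _ => rfl
  -- the rescaled graphs
  obtain ⟨Gx, hGx⟩ : ∃ Gx : (Fin m → ℤ) × (ℕ × F.ζ) → MvPolynomial (Fin m) ℝ,
    Gx = fun ξ => grI i₁ w (celx J w r ξ) (G₀ ξ) := ⟨_, rfl⟩
  obtain ⟨Hl, hHl⟩ : ∃ Hl : ((Fin m → ℝ) × (Fin m → ℝ)) × F.ζ × ℕ → MvPolynomial (Fin m) ℝ,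
    Hl = fun l => grI i₁ w (l.2.2, cl l) (H₀ l) := ⟨_, rfl⟩
  have hGxe : ∀ ω, Gx (ptr F r ω) = grI i₁ w (F.T1 w ω, F.X w ω) (G₀ (ptr F r ω)) := by
    intro ω
    rw [hGx]
    simp only
    rw [hcelx ω]
  have hHle : ∀ ω, B₁ ω → Hl (slam F w ω) = grI i₁ w (F.T1 w ω, F.X w ω) (H₀ (slam F w ω)) := by
    intro ω hω
    rw [hHl]
    simp only
    rw [hT ω, ← hcl ω hω]
  have hdGx : ∀ ξ, (Gx ξ).totalDegree ≤ K := fun ξ => by
    rw [hGx]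
    exact totalDegree_grI i₁ w _ (hG₀ ξ)
  have hdHl : ∀ l, (Hl l).totalDegree ≤ K := fun l => by
    rw [hHl]
    exact totalDegree_grI i₁ w _ (hH₀ l)
  obtain ⟨v, B, hBB1, hPB, hBv⟩ := hround F.Ω ((Fin m → ℤ) × (ℕ × F.ζ))
    (((Fin m → ℝ) × (Fin m → ℝ)) × F.ζ × ℕ) F.p (ptr F r) (slam F w) Gx Hl L B₁ F.isLaw hdGx hdHl
    (by
      intro ω hω y hy
      rw [hGxe ω, hHle ω hω]
      exact lab_near F i₁ hwL hw ω (fun b hb => ((hGH ω (hB1 ω hω)).2 b hb).2) hy)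
  refine ⟨B, hBB1.trans hB1, ?_, ?_⟩
  · refine le_trans (le_of_eq ?_) ((mul_le_mul_of_nonneg_left hP1 hc.le).trans hPB)
    ring
  -- the label
  have hzz : ∀ ω, B ω → zxE i₁ J w r (L + s) G₀ (ptr F r ω) =
      zsE i₁ w (L + s) cl H₀ v (slam F w ω) := by
    intro ω hω
    unfold zxE zsE
    refine Prod.ext ?_ (Prod.ext rfl ?_)
    · simp only
      rw [hcelx ω, hT ω, ← hcl ω (hBB1 ω hω)]
    · have h1 := hBv ω hω
      rw [hGx, hHl] at h1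
      exact h1
  obtain ⟨G, hG⟩ : ∃ G : (ℕ × (Fin m → ℤ)) × (F.ζ × ((Fin m →₀ ℕ) → ℤ)) →
      MvPolynomial (Fin m) ℝ, ∀ ω, B ω → ∃ ω', B ω' ∧
        zxE i₁ J w r (L + s) G₀ (ptr F r ω') = zxE i₁ J w r (L + s) G₀ (ptr F r ω) ∧
        G (zxE i₁ J w r (L + s) G₀ (ptr F r ω)) = Gx (ptr F r ω') := by
    refine ⟨fun z => if h : ∃ ω, B ω ∧ zxE i₁ J w r (L + s) G₀ (ptr F r ω) = z then
      Gx (ptr F r h.choose) else 0, fun ω hω => ?_⟩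
    have hex : ∃ ω', B ω' ∧ zxE i₁ J w r (L + s) G₀ (ptr F r ω') =
        zxE i₁ J w r (L + s) G₀ (ptr F r ω) := ⟨ω, hω, rfl⟩
    refine ⟨hex.choose, hex.choose_spec.1, hex.choose_spec.2, ?_⟩
    simp only
    rw [dif_pos hex]
  refine ⟨_, zxE i₁ J w r (L + s) G₀, zsE i₁ w (L + s) cl H₀ v, fun z => z.1, fun z => z.2.1, cl,
    G, fun ω hω => ⟨hzz ω hω, hcelx ω, rfl, hcl ω (hBB1 ω hω), ?_⟩⟩
  obtain ⟨ω', hω', hz', hGz⟩ := hG ω hω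
  have hff : fco (L + s) Gx (ptr F r ω') = fco (L + s) Gx (ptr F r ω) := by
    have h1 := congrArg (fun z => z.2.2) hz'
    unfold zxE at h1
    rw [hGx]
    exact h1
  have hC1 : (2 : ℝ) * m ≤ 3 + 2 * m + 2 * m ^ 2 := by
    have : (0 : ℝ) ≤ 3 + 2 * m ^ 2 := by positivity
    linarith
  have hreg : RegG (Gx (ptr F r ω')) (fun _ => 0) 1 K (2 * m) := by
    rw [hGxe ω']
    exact lab_reg F i₁ hw (hG₀ _) ω' (fun b hb => ((hGH ω' (hB1 ω' (hBB1 ω' hω'))).2 b hb).1)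
  rw [hGz]
  have h1g : ∀ y : Fin m → ℝ, (∀ j, |y j| ≤ 1) →
      |MvPolynomial.eval y (Gx (ptr F r ω)) - MvPolynomial.eval y (Gx (ptr F r ω'))| ≤
        1 / 2 ^ L := by
    intro y hyu'
    rw [← map_sub]
    have h2 := eval_near_unit (K := K) (R := Gx (ptr F r ω) - Gx (ptr F r ω'))
      ((MvPolynomial.totalDegree_sub _ _).trans (max_le (hdGx _) (hdGx _)))
      (t := 1 / 2 ^ (L + s)) (by
        intro α _
        rw [MvPolynomial.coeff_sub]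
        have h3 : ⌊(2 : ℝ) ^ (L + s) * MvPolynomial.coeff α (Gx (ptr F r ω'))⌋ =
            ⌊(2 : ℝ) ^ (L + s) * MvPolynomial.coeff α (Gx (ptr F r ω))⌋ := congrFun hff α
        have h4 := Int.abs_sub_lt_one_of_floor_eq_floor h3
        rw [← mul_sub, abs_mul, abs_of_pos hLs0, abs_sub_comm] at h4
        rw [le_div_iff₀ hLs0]
        linarith) (y := y) hyu'
    refine h2.trans ?_
    rw [← hbx, pow_add, mul_one_div, div_le_div_iff₀ (by positivity) hL0, one_mul]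
    calc (bx.card : ℝ) * 2 ^ L ≤ 2 ^ s * 2 ^ L := mul_le_mul_of_nonneg_right hs hL0.le
      _ = _ := by ring
  refine ⟨⟨hreg.deg, fun y hy i => (hreg.slope y hy i).trans hC1⟩, ?_, fun y hy => by
    rw [abs_sub_comm, ← hGxe ω]; exact h1g y hy⟩
  -- the sample is on the graph
  have hyu : ∀ j, 0 ≤ rp (2 ^ L) (ppos L (chI i₁)) (trp F P ω) (some j) ∧
      rp (2 ^ L) (ppos L (chI i₁)) (trp F P ω) (some j) ≤ 1 := fun j => base_unit F i₁ L P ω j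
  obtain ⟨y, hy⟩ : ∃ y : Fin m → ℝ,
    y = fun j => rp (2 ^ L) (ppos L (chI i₁)) (trp F P ω) (some j) := ⟨_, rfl⟩
  have hyu' : ∀ j, |y j| ≤ 1 := by
    intro j
    rw [hy, abs_of_nonneg (hyu j).1]
    exact (hyu j).2
  have h1 : |MvPolynomial.eval y (Gx (ptr F r ω)) - MvPolynomial.eval y (Gx (ptr F r ω'))| ≤
      1 / 2 ^ L := by
    rw [← map_sub]
    have h2 := eval_near_unit (K := K) (R := Gx (ptr F r ω) - Gx (ptr F r ω'))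
      ((MvPolynomial.totalDegree_sub _ _).trans (max_le (hdGx _) (hdGx _)))
      (t := 1 / 2 ^ (L + s)) (by
        intro α _
        rw [MvPolynomial.coeff_sub]
        have h3 : ⌊(2 : ℝ) ^ (L + s) * MvPolynomial.coeff α (Gx (ptr F r ω'))⌋ =
            ⌊(2 : ℝ) ^ (L + s) * MvPolynomial.coeff α (Gx (ptr F r ω))⌋ := congrFun hff α
        have h4 := Int.abs_sub_lt_one_of_floor_eq_floor h3
        rw [← mul_sub, abs_mul, abs_of_pos hLs0, abs_sub_comm] at h4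
        rw [le_div_iff₀ hLs0]
        linarith) (y := y) hyu'
    refine h2.trans ?_
    rw [← hbx, pow_add, mul_one_div, div_le_div_iff₀ (by positivity) hL0, one_mul]
    calc (bx.card : ℝ) * 2 ^ L ≤ 2 ^ s * 2 ^ L := mul_le_mul_of_nonneg_right hs hL0.le
      _ = _ := by ring
  have h9 : |rp (2 ^ L) (ppos L (chI i₁)) (trp F P ω) none -
      MvPolynomial.eval y (Gx (ptr F r ω))| ≤ (2 + 2 * m ^ 2) / 2 ^ L := by
    rw [hGxe ω, hy]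
    have h5 := hGH ω (hB1 ω (hBB1 ω hω))
    exact lab_dist F i₁ hwL hPJ ω h5.1 (fun b hb => (h5.2 b hb).1)
  have h11 : rp (2 ^ L) (ppos L (chI i₁)) (trp F P ω) none -
      MvPolynomial.eval y (Gx (ptr F r ω')) =
      (rp (2 ^ L) (ppos L (chI i₁)) (trp F P ω) none - MvPolynomial.eval y (Gx (ptr F r ω))) +
      (MvPolynomial.eval y (Gx (ptr F r ω)) - MvPolynomial.eval y (Gx (ptr F r ω'))) := by ring
  rw [← hy, h11]
  refine (abs_add_le _ _).trans ((add_le_add h9 h1).trans ?_)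
  rw [← add_div]
  refine div_le_div_of_nonneg_right ?_ hL0.le
  have : (0 : ℝ) ≤ 2 * m := by positivity
  linarith

/-- The data of an exact label on the event `A`: `zx` is a function of the point of resolution `r`
with the exact time, `zt` with the time up to `2 ^ (-r)`, `zs` a function of the line and of the
window `w`. The cells of the windows `w'`, `w`, `w₂` are functions of the line. -/
structure XL (F : Fam m J) (i₁ : Fin m) (r w' w w₂ P K : ℕ) (C₀ : ℝ)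
    (G₀ : (Fin m → ℤ) × (ℕ × F.ζ) → MvPolynomial (Fin m) ℝ) (A : F.Ω → Prop) {Z : Type}
    (zx zt : (Fin m → ℤ) × (ℕ × F.ζ) → Z)
    (zs : ((Fin m → ℝ) × (Fin m → ℝ)) × F.ζ × ℕ → Z) (cz : Z → ℕ × (Fin m → ℤ)) (cζ : Z → F.ζ)
    (cl' cl₂ : ((Fin m → ℝ) × (Fin m → ℝ)) × F.ζ × ℕ → Fin m → ℤ)
    (G : Z → MvPolynomial (Fin m) ℝ) : Prop where
  lab : ∀ ω, A ω → zx (ptr F r ω) = zs (slam F w ω)
  tru : ∀ ω, A ω → zt (trp F r ω) = zs (slam F w ω)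
  cell : ∀ ω, A ω → cz (zx (ptr F r ω)) = (F.T1 w ω, F.X w ω)
  side : ∀ ω, A ω → cζ (zx (ptr F r ω)) = F.Z ω
  reg : ∀ ω, A ω → RegG (G (zx (ptr F r ω))) (fun _ => 0) 1 K C₀
  near : ∀ ω, A ω → |rp (2 ^ (P - w)) (ppos (P - w) (chI i₁)) (trp F P ω) none -
      MvPolynomial.eval (fun j => rp (2 ^ (P - w)) (ppos (P - w) (chI i₁)) (trp F P ω) (some j))
        (G (zx (ptr F r ω)))| ≤ C₀ / 2 ^ (P - w)
  germ : ∀ ω, A ω → ∀ y : Fin m → ℝ, (∀ j, |y j| ≤ 1) →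
      |MvPolynomial.eval y (G (zx (ptr F r ω))) -
        MvPolynomial.eval y (grI i₁ w (F.T1 w ω, F.X w ω) (G₀ (ptr F r ω)))| ≤ 1 / 2 ^ (P - w)
  long : ∀ ω, A ω → F.X w' ω = cl' (slam F w' ω)
  subc : ∀ ω, A ω → F.X w₂ ω = cl₂ (slam F w₂ ω)

theorem XL.sub {F : Fam m J} {i₁ : Fin m} {r w' w w₂ P K : ℕ} {C₀ : ℝ}
    {G₀ : (Fin m → ℤ) × (ℕ × F.ζ) → MvPolynomial (Fin m) ℝ} {A B : F.Ω → Prop} {Z : Type}
    {zx zt : (Fin m → ℤ) × (ℕ × F.ζ) → Z}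
    {zs : ((Fin m → ℝ) × (Fin m → ℝ)) × F.ζ × ℕ → Z} {cz : Z → ℕ × (Fin m → ℤ)}
    {cζ : Z → F.ζ} {cl' cl₂ : ((Fin m → ℝ) × (Fin m → ℝ)) × F.ζ × ℕ → Fin m → ℤ}
    {G : Z → MvPolynomial (Fin m) ℝ} (h : XL F i₁ r w' w w₂ P K C₀ G₀ A zx zt zs cz cζ cl' cl₂ G)
    (hB : Sub B A) : XL F i₁ r w' w w₂ P K C₀ G₀ B zx zt zs cz cζ cl' cl₂ G :=
  ⟨fun ω hω => h.lab ω (hB ω hω), fun ω hω => h.tru ω (hB ω hω), fun ω hω => h.cell ω (hB ω hω),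
    fun ω hω => h.side ω (hB ω hω), fun ω hω => h.reg ω (hB ω hω), fun ω hω => h.near ω (hB ω hω),
    fun ω hω => h.germ ω (hB ω hω), fun ω hω => h.long ω (hB ω hω),
    fun ω hω => h.subc ω (hB ω hω)⟩

/-- There is an exact label on `A`. -/
def XLE (F : Fam m J) (i₁ : Fin m) (r w' w w₂ P K : ℕ) (C₀ : ℝ)
    (G₀ : (Fin m → ℤ) × (ℕ × F.ζ) → MvPolynomial (Fin m) ℝ) (A : F.Ω → Prop) : Prop :=
  ∃ (Z : Type) (zx zt : (Fin m → ℤ) × (ℕ × F.ζ) → Z)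
    (zs : ((Fin m → ℝ) × (Fin m → ℝ)) × F.ζ × ℕ → Z) (cz : Z → ℕ × (Fin m → ℤ)) (cζ : Z → F.ζ)
    (cl' cl₂ : ((Fin m → ℝ) × (Fin m → ℝ)) × F.ζ × ℕ → Fin m → ℤ)
    (G : Z → MvPolynomial (Fin m) ℝ), XL F i₁ r w' w w₂ P K C₀ G₀ A zx zt zs cz cζ cl' cl₂ G

theorem XLE.sub {F : Fam m J} {i₁ : Fin m} {r w' w w₂ P K : ℕ} {C₀ : ℝ}
    {G₀ : (Fin m → ℤ) × (ℕ × F.ζ) → MvPolynomial (Fin m) ℝ} {A B : F.Ω → Prop}
    (h : XLE F i₁ r w' w w₂ P K C₀ G₀ A) (hB : Sub B A) : XLE F i₁ r w' w w₂ P K C₀ G₀ B := by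
  obtain ⟨Z, zx, zt, zs, cz, cζ, cl', cl₂, G, h⟩ := h
  exact ⟨Z, zx, zt, zs, cz, cζ, cl', cl₂, G, h.sub hB⟩

/-- **The exact label of a polynomial label.** -/
theorem xle_of_labW (m K : ℕ) : ∃ c : ℝ, 0 < c ∧
    ∀ (J : ℕ) (F : Fam m J) (i₁ : Fin m) (r w' w w₂ P : ℕ) (A : F.Ω → Prop) (e e' s : ℝ)
      (G₀ : (Fin m → ℤ) × (ℕ × F.ζ) → MvPolynomial (Fin m) ℝ)
      (H₀ : ((Fin m → ℝ) × (Fin m → ℝ)) × F.ζ × ℕ → MvPolynomial (Fin m) ℝ),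
      w' ≤ w → w ≤ w₂ → w₂ ≤ P → P ≤ r → r ≤ J → LabW F i₁ r K w w P G₀ H₀ A →
      F.Tr → F.Tm e' → F.Rb e → Real.exp (-s) ≤ Pe F.p A →
      ∃ B : F.Ω → Prop, Sub B A ∧ c * Real.exp (-(4 * e + e' + s)) * Pe F.p A ≤ Pe F.p B ∧
        XLE F i₁ r w' w w₂ P K (3 + 2 * m + 2 * m ^ 2) G₀ B := by
  classical
  obtain ⟨c, hc, hex⟩ := exact_labelW m K
  obtain ⟨t, ht⟩ : ∃ t : ℝ, t = c / 9 ^ m := ⟨_, rfl⟩
  have ht0 : 0 < t := by rw [ht]; positivity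
  refine ⟨t ^ 2 / 3 ^ m, by positivity, ?_⟩
  intro J F i₁ r w' w w₂ P A e e' s G₀ H₀ h1 h2 h3 h4 h5 hlab hTr hTm hRb hs
  have hA0 : 0 < Pe F.p A := lt_of_lt_of_le (Real.exp_pos _) hs
  obtain ⟨B₁, hB1, hP1, Z, zx, zs, cz, cζ, cl, G, hx⟩ := hex J F i₁ r w (P - w) P A G₀ H₀
    (by omega) (by omega) (by omega) hlab
  obtain ⟨B₂, hB2, hP2, cl', hcl'⟩ := cell_event F (w := w') (by omega) B₁
  obtain ⟨B₃, hB3, hP3, cl₂, hcl₂⟩ := cell_event F (w := w₂) (by omega) B₂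
  have hP3' : t * Pe F.p A ≤ Pe F.p B₃ := by
    have e9 : (9 : ℝ) ^ m = 3 ^ m * 3 ^ m := by rw [← mul_pow]; norm_num
    have e3 : (0 : ℝ) ≤ 3 ^ m := by positivity
    rw [ht, e9, div_mul_eq_mul_div, ← div_div]
    exact (div_le_div_of_nonneg_right ((div_le_div_of_nonneg_right hP1 e3).trans hP2) e3).trans hP3
  have hB30 : 0 < Pe F.p B₃ := lt_of_lt_of_le (mul_pos ht0 hA0) hP3'
  have hs3 : Real.exp (-(s - Real.log t)) ≤ Pe F.p B₃ := by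
    refine le_trans ?_ hP3'
    have e1 : -(s - Real.log t) = Real.log t + -s := by ring
    rw [e1, Real.exp_add, Real.exp_log ht0]
    exact mul_le_mul_of_nonneg_left hs ht0.le
  have hT3 := Pool.STPA.sub_Tm_of_reg hTr hTm hRb hB30 hs3
  obtain ⟨B₄, zt, hB4, hP4, hzt⟩ := trunc_time F h5 (show w ≤ r by omega) hB30 hT3 zx zs
    (fun ω hω => (hx ω (hB2 ω (hB3 ω hω))).1)
  refine ⟨B₄, fun ω hω => hB1 ω (hB2 ω (hB3 ω (hB4 ω hω))), ?_, Z, zx, zt, zs, cz, cζ, cl', cl₂, G,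
    ?_⟩
  · refine le_trans ?_ hP4
    have e1 : -(4 * e + e' + (s - Real.log t)) = Real.log t + -(4 * e + e' + s) := by ring
    rw [e1, Real.exp_add, Real.exp_log ht0]
    have e2 : t * Real.exp (-(4 * e + e' + s)) / 3 ^ m * (t * Pe F.p A) ≤
        t * Real.exp (-(4 * e + e' + s)) / 3 ^ m * Pe F.p B₃ :=
      mul_le_mul_of_nonneg_left hP3' (by positivity)
    refine le_trans (le_of_eq ?_) e2
    ring
  · have hsub : ∀ ω, B₄ ω → B₁ ω := fun ω hω => hB2 ω (hB3 ω (hB4 ω hω))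
    refine ⟨fun ω hω => (hx ω (hsub ω hω)).1, hzt, fun ω hω => (hx ω (hsub ω hω)).2.1,
      fun ω hω => (hx ω (hsub ω hω)).2.2.1, fun ω hω => (hx ω (hsub ω hω)).2.2.2.2.1,
      fun ω hω => (hx ω (hsub ω hω)).2.2.2.2.2.1, fun ω hω => (hx ω (hsub ω hω)).2.2.2.2.2.2,
      fun ω hω => hcl' ω (hB3 ω (hB4 ω hω)), fun ω hω => hcl₂ ω (hB4 ω hω)⟩

end Pool.FLF
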