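import Pool.Agent.H99.LST.Ent
import Pool.Agent.H99.LST.XLB
import Pool.Agent.H13.K2S.Rows
import Pool.Agent.H82.KSP.TRC
import Pool.Agent.H72.KJ.Stmts

/-!
# Rates of the passive coordinate

The rows of the passive coordinate given the base coordinates, in terms of the rows of the
position given the exact time.
-/

set_option autoImplicit false

namespace Pool.FLF

open Finset Real
open Pool.Agent.H49.Ent Pool.Agent.H32.Dense Pool.STK Pool.KA Pool.KSAT Pool.K2S Pool.KS3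
open Pool.KAL Pool.PB Pool.KST Pool.KA.TRC Pool.K2S.Rows

variable {m J : ℕ}

/-- The passive coordinate at the row `R`. -/
noncomputable def rf (F : Fam m J) (i₁ : Fin m) (R : ℕ) (ω : F.Ω) : ℤ := F.X R ω i₁

/-- The condition of the rows `(R₁, R₂]`: the base coordinates up to `R₂`, the passive coordinate
up to `R₁`, the side information. -/
noncomputable def rg (F : Fam m J) (i₁ : Fin m) (R₁ R₂ : ℕ) (ω : F.Ω) :
    (Fin m → ℤ) × (ℤ × F.ζ) := (bcel F i₁ R₂ ω, (F.X R₁ ω i₁, F.Z ω))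

lemma bcel_self (F : Fam m J) (i₁ : Fin m) {R : ℕ} (hR : R ≤ J) (ω : F.Ω) :
    bcel F i₁ R ω i₁ = (F.T1 R ω : ℤ) := by
  have h1 := T1_real F hR ω
  have h2 : bcel F i₁ R ω i₁ = ⌊(2 : ℝ) ^ R * bp F i₁ ω i₁⌋ := rfl
  rw [h2, Int.floor_eq_iff]
  unfold bp
  rw [Function.update_self]
  push_cast
  constructor <;> linarith only [h1, h1.1, h1.2]

lemma bcel_ne (F : Fam m J) (i₁ : Fin m) (R : ℕ) (ω : F.Ω) {j : Fin m} (hj : j ≠ i₁) :
    bcel F i₁ R ω j = F.X R ω j := by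
  have h2 : bcel F i₁ R ω j = ⌊(2 : ℝ) ^ R * bp F i₁ ω j⌋ := rfl
  rw [h2]
  unfold bp
  rw [Function.update_of_ne hj]
  rfl

/-- The coarse digits of the position. -/
lemma X_coarse (F : Fam m J) {w R : ℕ} (h : w ≤ R) {ω ω' : F.Ω} {i : Fin m}
    (hX : F.X R ω i = F.X R ω' i) : F.X w ω i = F.X w ω' i := by
  rw [← Xr_div F (w := w) (L := R - w) (r := R) (by omega) ω i,
    ← Xr_div F (w := w) (L := R - w) (r := R) (by omega) ω' i, hX]

lemma T1_coarse (F : Fam m J) {w R : ℕ} (h : w ≤ R) (hR : R ≤ J) {ω ω' : F.Ω}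
    (hX : F.T1 R ω = F.T1 R ω') : F.T1 w ω = F.T1 w ω' := by
  have h4 := T1_div F (w := w) (K := R - w) (by omega) ω
  have h5 := T1_div F (w := w) (K := R - w) (by omega) ω'
  rw [show w + (R - w) = R by omega] at h4 h5
  rw [h4, h5, hX]

lemma bcel_coarse (F : Fam m J) (i₁ : Fin m) {w R : ℕ} (h : w ≤ R) {ω ω' : F.Ω}
    (hX : bcel F i₁ R ω = bcel F i₁ R ω') : bcel F i₁ w ω = bcel F i₁ w ω' :=
  Pool.STK.B58.fl_fine h hX

lemma bcel_eq (F : Fam m J) (i₁ : Fin m) {R : ℕ} {ω ω' : F.Ω} (hR : R ≤ J)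
    (hT : F.T1 R ω = F.T1 R ω') (hX : ∀ j, j ≠ i₁ → F.X R ω j = F.X R ω' j) :
    bcel F i₁ R ω = bcel F i₁ R ω' := by
  funext j
  by_cases hj : j = i₁
  · rw [hj, bcel_self F i₁ hR, bcel_self F i₁ hR, hT]
  · rw [bcel_ne F i₁ R ω hj, bcel_ne F i₁ R ω' hj, hX j hj]

lemma T1_of_bcel (F : Fam m J) (i₁ : Fin m) {R : ℕ} {ω ω' : F.Ω} (hR : R ≤ J)
    (h : bcel F i₁ R ω = bcel F i₁ R ω') : F.T1 R ω = F.T1 R ω' := by
  have h1 := congrFun h i₁
  rw [bcel_self F i₁ hR, bcel_self F i₁ hR] at h1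
  exact_mod_cast h1

lemma X_of_bcel (F : Fam m J) (i₁ : Fin m) {R : ℕ} {ω ω' : F.Ω} {j : Fin m} (hj : j ≠ i₁)
    (h : bcel F i₁ R ω = bcel F i₁ R ω') : F.X R ω j = F.X R ω' j := by
  have h1 := congrFun h j
  rwa [bcel_ne F i₁ R ω hj, bcel_ne F i₁ R ω' hj] at h1

lemma T1_of_T (F : Fam m J) {R : ℕ} {ω ω' : F.Ω} (h : F.T ω = F.T ω') :
    F.T1 R ω = F.T1 R ω' := by
  unfold Fam.T1
  rw [h]

/-- The entropy of the exact time given the window and more. -/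
theorem T_le (F : Fam m J) {R : ℕ} {U : Type} (c : F.Ω → U)
    (hc : Det F.p c (F.T1 R)) : CH F.p F.T c ≤ (J - R : ℕ) * Real.log 2 := by
  have hp := F.isLaw.nonneg
  have a1 := CH_div F.isLaw F.T c (J - R)
  have a2 : CH F.p F.T c ≤ CH F.p F.T (fun ω => (F.T ω / 2 ^ (J - R), c ω)) := by
    refine CH_mono_cond hp fun ω ω' a b e => ?_
    exact Prod.ext (hc ω ω' a b e) e
  exact a2.trans a1

/-- The exact time is uniform given the window and the position. -/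
theorem T_ge (F : Fam m J) {e : ℝ} (hT : F.Tm e) {R : ℕ} (hR : R ≤ J) {U : Type} (c : F.Ω → U)
    (hc : Det F.p (fun ω => (slam F R ω, F.X R ω)) c) :
    (J - R : ℕ) * Real.log 2 - (e + cc m) ≤ CH F.p F.T c := by
  have hp := F.isLaw.nonneg
  have h2 : (J - R : ℕ) * Real.log 2 - e ≤ CH F.p F.T (slam F R) := by
    have a1 := CH_le_add hp F.T (F.T1 R) (fun ω => (F.l ω, F.Z ω))
    have a2 : CH F.p (F.T1 R) (fun ω => (F.l ω, F.Z ω)) ≤ R * Real.log 2 := by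
      refine CH_lt F.isLaw (F.T1 R) _ R fun ω => ?_
      unfold Fam.T1
      rw [Nat.div_lt_iff_lt_mul (by positivity), ← pow_add]
      have h1 := F.tim ω
      have e1 : R + (J - R) = J := by omega
      rwa [e1]
    have a3 : CH F.p F.T (fun ω => (F.T1 R ω, (F.l ω, F.Z ω))) = CH F.p F.T (slam F R) := by
      refine CH_congr hp ?_ ?_ ?_ ?_
      · intro ω ω' _ _ hh
        exact (Prod.ext_iff.mp hh).1
      · intro ω ω' _ _ hh
        exact (Prod.ext_iff.mp hh).1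
      · intro ω ω' _ _ hh
        simp only [Prod.mk.injEq] at hh
        exact Prod.ext hh.2.1 (Prod.ext hh.2.2 hh.1)
      · intro ω ω' _ _ hh
        have h1 := Prod.ext_iff.mp hh
        have h2 := Prod.ext_iff.mp h1.2
        exact Prod.ext h2.2 (Prod.ext h1.1 h2.1)
    have a4 : (J : ℝ) = R + (J - R : ℕ) := by
      rw [Nat.cast_sub hR]; ring
    unfold Fam.Tm at hT
    rw [a4] at hT
    rw [a3] at a1
    linarith only [hT, a1, a2]
  have h3 := CH_le_add hp F.T (F.X R) (slam F R)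
  have h4 := CH_X_c F hR (slam F R) (by
    intro ω ω' _ _ hh
    have h1 := Prod.ext_iff.mp hh
    have h2 := Prod.ext_iff.mp h1.2
    have h5 : F.l ω = F.l ω' := h1.1
    have h6 : F.T1 R ω = F.T1 R ω' := h2.2
    have : F.x1 R ω = F.x1 R ω' := by
      funext i
      unfold Fam.x1
      have e1 : F.u ω = F.u ω' := congrArg Prod.fst h5
      have e2 : F.d ω = F.d ω' := congrArg Prod.snd h5
      rw [e1, e2, h6]
    refine Prod.ext (Prod.ext h6 ?_) h2.1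
    change fl R (F.x1 R ω) = fl R (F.x1 R ω')
    rw [this])
  have h5 : CH F.p F.T (fun ω => (F.X R ω, slam F R ω)) ≤ CH F.p F.T c := by
    refine CH_mono_cond hp fun ω ω' a b hh => ?_
    refine hc ω ω' a b ?_
    have h1 := Prod.ext_iff.mp hh
    exact Prod.ext h1.2 h1.1
  linarith only [h2, h3, h4, h5]

/-- **The exact time can be dropped** from the condition. -/
theorem tcut (F : Fam m J) {e : ℝ} (hT : F.Tm e) {R : ℕ} (hR : R ≤ J) {S U : Type} (f : F.Ω → S)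
    (c : F.Ω → U) (hc : Det F.p c (F.T1 R))
    (hf : Det F.p (fun ω => (slam F R ω, F.X R ω)) (fun ω => (f ω, c ω))) :
    CH F.p f c ≤ CH F.p f (fun ω => (F.T ω, c ω)) + (e + cc m) := by
  have hp := F.isLaw.nonneg
  have h1 := T_le F c hc
  have h2 := T_ge F hT hR (fun ω => (f ω, c ω)) hf
  have h3 := CH_bayes hp f F.T c
  linarith only [h1, h2, h3]

/-- The rows of the base coordinates given the exact time. -/
theorem base_rows_le (F : Fam m J) (i₁ : Fin m) {R₁ R₂ : ℕ} (h : R₁ ≤ R₂) (hR : R₂ ≤ J) :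
    CH F.p (bcel F i₁ R₂) (fun ω => (F.X R₁ ω, F.W ω)) ≤
      ((m : ℝ) - 1) * (((R₂ : ℝ) - R₁) * Real.log 2) := by
  classical
  have hp := F.isLaw
  have hm : 1 ≤ m := Fin.pos i₁
  obtain ⟨S, hS⟩ : ∃ S : (Fin m → ℤ) × (ℕ × F.ζ) → Finset (Fin m → ℤ), S = fun c =>
    Fintype.piFinset fun j => if j = i₁ then {((c.2.1 / 2 ^ (J - R₂) : ℕ) : ℤ)} else
      Finset.Ico (2 ^ (R₂ - R₁) * c.1 j) (2 ^ (R₂ - R₁) * c.1 j + 2 ^ (R₂ - R₁)) := ⟨_, rfl⟩
  have h1 := CH_le_card hp.nonneg hp.sum_one (bcel F i₁ R₂) (fun ω => (F.X R₁ ω, F.W ω)) S (by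
    intro ω _
    rw [hS]
    simp only
    rw [Fintype.mem_piFinset]
    intro j
    by_cases hj : j = i₁
    · rw [if_pos hj, Finset.mem_singleton, hj, bcel_self F i₁ hR]
      rfl
    · rw [if_neg hj, bcel_ne F i₁ R₂ ω hj, Finset.mem_Ico]
      have h1 := Xr_emod F (w := R₁) (L := R₂ - R₁) (r := R₂) (by omega) ω j
      have h2 : 0 ≤ F.X R₂ ω j % 2 ^ (R₂ - R₁) := Int.emod_nonneg _ (by positivity)
      have h3 : F.X R₂ ω j % 2 ^ (R₂ - R₁) < 2 ^ (R₂ - R₁) :=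
        Int.emod_lt_of_pos _ (by positivity)
      constructor <;> linarith)
  refine h1.trans (le_of_eq ?_)
  have h2 : ∀ c, ((S c).card : ℝ) = (2 : ℝ) ^ ((R₂ - R₁) * (m - 1)) := by
    intro c
    rw [hS]
    simp only
    rw [Fintype.card_piFinset, ← Finset.mul_prod_erase _ _ (Finset.mem_univ i₁), if_pos rfl,
      Finset.card_singleton, one_mul]
    have h3 : ∀ j ∈ univ.erase i₁, (if j = i₁ then ({((c.2.1 / 2 ^ (J - R₂) : ℕ) : ℤ)} :
        Finset ℤ) else Finset.Ico (2 ^ (R₂ - R₁) * c.1 j)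
          (2 ^ (R₂ - R₁) * c.1 j + 2 ^ (R₂ - R₁))).card = 2 ^ (R₂ - R₁) := by
      intro j hj
      rw [if_neg (Finset.ne_of_mem_erase hj), Int.card_Ico]
      have : (2 : ℤ) ^ (R₂ - R₁) * c.1 j + 2 ^ (R₂ - R₁) - 2 ^ (R₂ - R₁) * c.1 j =
          ((2 ^ (R₂ - R₁) : ℕ) : ℤ) := by push_cast; ring
      rw [this, Int.toNat_natCast]
    rw [Finset.prod_congr rfl h3, Finset.prod_const, Finset.card_erase_of_mem (Finset.mem_univ _),
      Finset.card_univ, Fintype.card_fin]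
    push_cast
    rw [← pow_mul]
  have h3 : (fun ω => Real.log ((S (F.X R₁ ω, F.W ω)).card : ℝ)) =
      fun _ : F.Ω => ((R₂ - R₁ : ℕ) * (m - 1 : ℕ) : ℝ) * Real.log 2 := by
    funext ω
    rw [h2, Real.log_pow]
    push_cast
    ring
  rw [h3, Ex_const hp.sum_one, Nat.cast_sub h, Nat.cast_sub hm]
  push_cast
  ring

/-- **(T2)** The rows of the position are controlled by the rows of the passive coordinate. -/
theorem rows_le_rf (F : Fam m J) (i₁ : Fin m) {R₁ R₂ : ℕ} (h : R₁ ≤ R₂) (hR : R₂ ≤ J) :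
    CH F.p (F.X R₂) (fun ω => (F.X R₁ ω, F.W ω)) ≤
      ((m : ℝ) - 1) * (((R₂ : ℝ) - R₁) * Real.log 2) +
        CH F.p (rf F i₁ R₂) (rg F i₁ R₁ R₂) := by
  have hp := F.isLaw.nonneg
  have h1 := CH_le_add hp (F.X R₂) (bcel F i₁ R₂) (fun ω => (F.X R₁ ω, F.W ω))
  have h2 := base_rows_le F i₁ h hR
  have h3 : CH F.p (F.X R₂) (fun ω => (bcel F i₁ R₂ ω, (F.X R₁ ω, F.W ω))) ≤
      CH F.p (rf F i₁ R₂) (rg F i₁ R₁ R₂) := by
    refine (CH_mono_left hp (X' := rf F i₁ R₂) ?_).trans (CH_mono_cond hp ?_)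
    · intro ω ω' _ _ hh
      simp only [Prod.mk.injEq] at hh
      obtain ⟨e1, e2, e3⟩ := hh
      funext j
      by_cases hj : j = i₁
      · rw [hj]
        exact e1
      · exact X_of_bcel F i₁ hj e2
    · intro ω ω' _ _ hh
      simp only [Prod.mk.injEq] at hh
      obtain ⟨e1, e2, e3⟩ := hh
      refine Prod.ext e1 (Prod.ext ?_ ?_)
      · exact congrFun e2 i₁
      · exact (Prod.ext_iff.mp e3).2
  linarith only [h1, h2, h3]

/-- The rows of the base coordinates are full given the label. -/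
theorem base_rows_ge (F : Fam m J) (i₁ : Fin m) {w P R₁ R₂ : ℕ} (h1 : w ≤ R₁)
    (h3 : R₂ ≤ P) {U : Type} (z : F.Ω → U) {ef : ℝ} (hz : Det F.p z (bcel F i₁ w))
    (hf : m * (((P : ℝ) - w) * Real.log 2) - ef ≤ CH F.p (bcel F i₁ P) z) :
    m * (((R₂ : ℝ) - R₁) * Real.log 2) - ef ≤
      CH F.p (bcel F i₁ R₂) (fun ω => (bcel F i₁ R₁ ω, z ω)) := by
  have hp := F.isLaw.nonneg
  have a1 := CH_le_add hp (bcel F i₁ P) (bcel F i₁ R₁) z
  have a2 := CH_le_add hp (bcel F i₁ P) (bcel F i₁ R₂) (fun ω => (bcel F i₁ R₁ ω, z ω))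
  have a3 : CH F.p (bcel F i₁ R₁) z ≤ m * (((R₁ : ℝ) - w) * Real.log 2) := by
    have b1 := CH_floor F.isLaw (bp F i₁) z w (R₁ - w)
    rw [show w + (R₁ - w) = R₁ by omega, Nat.cast_sub h1] at b1
    refine le_trans (CH_mono_cond hp ?_) b1
    intro ω ω' a b hh
    exact Prod.ext (hz ω ω' a b hh) hh
  have a4 : CH F.p (bcel F i₁ P) (fun ω => (bcel F i₁ R₂ ω, (bcel F i₁ R₁ ω, z ω))) ≤
      m * (((P : ℝ) - R₂) * Real.log 2) := by
    have b1 := CH_floor F.isLaw (bp F i₁) (fun ω => (bcel F i₁ R₁ ω, z ω)) R₂ (P - R₂)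
    rw [show R₂ + (P - R₂) = P by omega, Nat.cast_sub h3] at b1
    exact b1
  have e1 : (m : ℝ) * (((P : ℝ) - w) * Real.log 2) = m * (((R₁ : ℝ) - w) * Real.log 2) +
      m * (((R₂ : ℝ) - R₁) * Real.log 2) + m * (((P : ℝ) - R₂) * Real.log 2) := by ring
  linarith only [hf, a1, a2, a3, a4]

/-- **(T1)** The rows of the passive coordinate are controlled by the rows of the position. -/
theorem rf_le_rows (F : Fam m J) (i₁ : Fin m) {e : ℝ} (hT : F.Tm e) {w P R₁ R₂ : ℕ} (h1 : w ≤ R₁)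
    (h2 : R₁ ≤ R₂) (h3 : R₂ ≤ P) (hP : P ≤ J) {U : Type} (z : F.Ω → U) {ef eN : ℝ}
    (hz : Det F.p z (bcel F i₁ w)) (hzZ : Det F.p z F.Z)
    (hf : m * (((P : ℝ) - w) * Real.log 2) - ef ≤ CH F.p (bcel F i₁ P) z)
    (hN : CH F.p (rf F i₁ R₁) (fun ω => (bcel F i₁ R₁ ω, z ω)) ≤ eN) :
    CH F.p (rf F i₁ R₂) (rg F i₁ R₁ R₂) ≤ CH F.p (F.X R₂) (fun ω => (F.X R₁ ω, F.W ω)) -
      ((m : ℝ) - 1) * (((R₂ : ℝ) - R₁) * Real.log 2) + (ef + eN + 2 * (e + cc m)) := by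
  have hp := F.isLaw.nonneg
  have hR : R₂ ≤ J := h3.trans hP
  -- the determinations
  have dX : Det F.p (fun ω => (slam F R₂ ω, F.X R₂ ω)) (bcel F i₁ R₂) := by
    intro ω ω' _ _ hh
    simp only [Prod.mk.injEq] at hh
    have e1 : F.T1 R₂ ω = F.T1 R₂ ω' := congrArg (fun v => v.2.2) hh.1
    exact bcel_eq F i₁ hR e1 fun j _ => congrFun hh.2 j
  have dZ : Det F.p (fun ω => (slam F R₂ ω, F.X R₂ ω)) F.Z := by
    intro ω ω' _ _ hh
    simp only [Prod.mk.injEq] at hh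
    exact congrArg (fun v => v.2.1) hh.1
  -- (1)
  have s1 := tcut F hT hR (rf F i₁ R₂) (rg F i₁ R₁ R₂)
    (by
      intro ω ω' _ _ hh
      exact T1_of_bcel F i₁ hR (Prod.ext_iff.mp hh).1)
    (by
      intro ω ω' a b hh
      have e0 := hh
      simp only [Prod.mk.injEq] at hh
      refine Prod.ext (congrFun hh.2 i₁) (Prod.ext (dX ω ω' a b e0) (Prod.ext ?_
        (dZ ω ω' a b e0)))
      exact X_coarse F h2 (congrFun hh.2 i₁))
  -- (2)
  have s2 : CH F.p (F.X R₂) (fun ω => (F.X R₁ ω, F.W ω)) =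
      CH F.p (bcel F i₁ R₂) (fun ω => (F.X R₁ ω, F.W ω)) +
      CH F.p (F.X R₂) (fun ω => (bcel F i₁ R₂ ω, (F.X R₁ ω, F.W ω))) := by
    rw [← CH_chain hp]
    refine CH_congr hp ?_ ?_ (fun _ _ _ _ h => h) (fun _ _ _ _ h => h)
    · intro ω ω' _ _ hh
      simp only [Prod.mk.injEq] at hh
      refine Prod.ext hh.1 (bcel_eq F i₁ hR (T1_of_T F (Prod.ext_iff.mp hh.2.2).1)
        fun j _ => congrFun hh.1 j)
    · intro ω ω' _ _ hh
      simp only [Prod.mk.injEq] at hh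
      exact hh.1.1
  have s3 : CH F.p (rf F i₁ R₂) (fun ω => (F.T ω, rg F i₁ R₁ R₂ ω)) ≤
      CH F.p (F.X R₂) (fun ω => (bcel F i₁ R₂ ω, (F.X R₁ ω, F.W ω))) := by
    have t1 : CH F.p (rf F i₁ R₂) (fun ω => (F.T ω, rg F i₁ R₁ R₂ ω)) ≤
        CH F.p (rf F i₁ R₂) (fun ω => (bcel F i₁ R₂ ω, (F.X R₁ ω, F.W ω))) := by
      refine CH_mono_cond hp ?_
      intro ω ω' _ _ hh
      simp only [Prod.mk.injEq, rg] at hh
      obtain ⟨a1, a2, a3, a4⟩ := hh
      refine Prod.ext a2 (Prod.ext ?_ (Prod.ext a1 a4))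
      funext j
      by_cases hj : j = i₁
      · rw [hj]
        exact a3
      · exact X_coarse F h2 (X_of_bcel F i₁ hj a2)
    refine t1.trans (CH_mono_left hp ?_)
    intro ω ω' _ _ hh
    exact congrFun (Prod.ext_iff.mp hh).1 i₁
  -- (3)
  have s4 : m * (((R₂ : ℝ) - R₁) * Real.log 2) - ef - eN ≤
      CH F.p (bcel F i₁ R₂) (fun ω => (bcel F i₁ R₁ ω, (F.X R₁ ω i₁, F.Z ω))) := by
    have t1 := base_rows_ge F i₁ h1 h3 z hz hf
    have t2 := CH_bayes hp (bcel F i₁ R₂) (rf F i₁ R₁) (fun ω => (bcel F i₁ R₁ ω, z ω))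
    have t3 := CH_nonneg hp (rf F i₁ R₁) (fun ω => (bcel F i₁ R₂ ω, (bcel F i₁ R₁ ω, z ω)))
    have t4 : CH F.p (bcel F i₁ R₂) (fun ω => (rf F i₁ R₁ ω, (bcel F i₁ R₁ ω, z ω))) ≤
        CH F.p (bcel F i₁ R₂) (fun ω => (bcel F i₁ R₁ ω, (F.X R₁ ω i₁, F.Z ω))) := by
      refine CH_mono_cond hp ?_
      intro ω ω' a b hh
      simp only [Prod.mk.injEq] at hh
      exact Prod.ext hh.2.1 (Prod.ext hh.1 (hzZ ω ω' a b hh.2.2))
    linarith only [hN, t1, t2, t3, t4]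
  have hR1 : R₁ ≤ J := h2.trans hR
  have s5 : CH F.p (bcel F i₁ R₂) (fun ω => (bcel F i₁ R₁ ω, (F.X R₁ ω i₁, F.Z ω))) ≤
      CH F.p (bcel F i₁ R₂) (fun ω => (F.X R₁ ω, F.W ω)) +
        (((R₂ : ℝ) - R₁) * Real.log 2 + (e + cc m)) := by
    have t1 := T_le F (R := R₁) (fun ω => (bcel F i₁ R₁ ω, (F.X R₁ ω i₁, F.Z ω))) (by
      intro ω ω' _ _ hh
      exact T1_of_bcel F i₁ hR1 (Prod.ext_iff.mp hh).1)
    have t2 := T_ge F hT hR (fun ω => (bcel F i₁ R₂ ω, (bcel F i₁ R₁ ω,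
        (F.X R₁ ω i₁, F.Z ω)))) (by
      intro ω ω' a b hh
      have e0 := hh
      simp only [Prod.mk.injEq] at hh
      have e1 := dX ω ω' a b e0
      refine Prod.ext e1 (Prod.ext (bcel_coarse F i₁ h2 e1) (Prod.ext ?_ (dZ ω ω' a b e0)))
      exact X_coarse F h2 (congrFun hh.2 i₁))
    have t3 := CH_bayes hp (bcel F i₁ R₂) F.T (fun ω => (bcel F i₁ R₁ ω, (F.X R₁ ω i₁, F.Z ω)))
    have t4 : CH F.p (bcel F i₁ R₂) (fun ω => (F.T ω, (bcel F i₁ R₁ ω,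
        (F.X R₁ ω i₁, F.Z ω)))) ≤ CH F.p (bcel F i₁ R₂) (fun ω => (F.X R₁ ω, F.W ω)) := by
      refine CH_mono_cond hp ?_
      intro ω ω' _ _ hh
      simp only [Prod.mk.injEq] at hh
      obtain ⟨a1, a2, a3, a4⟩ := hh
      refine Prod.ext ?_ (Prod.ext a1 a4)
      funext j
      by_cases hj : j = i₁
      · rw [hj]
        exact a3
      · exact X_of_bcel F i₁ hj a2
    rw [Nat.cast_sub hR1] at t1
    rw [Nat.cast_sub hR] at t2
    have e1 : ((J : ℝ) - R₁) * Real.log 2 =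
        ((J : ℝ) - R₂) * Real.log 2 + ((R₂ : ℝ) - R₁) * Real.log 2 := by ring
    linarith only [t1, t2, t3, t4]
  have e1 : (m : ℝ) * (((R₂ : ℝ) - R₁) * Real.log 2) =
      ((m : ℝ) - 1) * (((R₂ : ℝ) - R₁) * Real.log 2) + ((R₂ : ℝ) - R₁) * Real.log 2 := by ring
  linarith only [s1, s2, s3, s4, s5]

lemma crI_bcel (F : Fam m J) (i₁ : Fin m) {R : ℕ} (hR : R ≤ J) (ω : F.Ω) (j : Fin m) :
    crI i₁ R (F.T1 R ω, F.X R ω) j = (bcel F i₁ R ω j : ℝ) / 2 ^ R := by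
  unfold crI
  by_cases hj : j = i₁
  · subst hj
    rw [Function.update_self, bcel_self F j hR]
    push_cast
    rfl
  · rw [Function.update_of_ne hj, bcel_ne F i₁ R ω hj]

/-- **Thinness of the rows of the passive coordinate given the label.** -/
theorem rf_thin (F : Fam m J) (i₁ : Fin m) {w L P R : ℕ} (h : w + L = P) (hP : P ≤ J)
    (hw : w ≤ R) (hR : R ≤ P) {Z : Type} (z : F.Ω → Z) (cz : Z → ℕ × (Fin m → ℤ))
    (G : Z → MvPolynomial (Fin m) ℝ) {C₀ : ℝ} {K : ℕ} (hC₀ : 0 ≤ C₀)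
    (hcz : ∀ ω, cz (z ω) = (F.T1 w ω, F.X w ω))
    (hreg : ∀ ω, RegG (G (z ω)) (fun _ => 0) 1 K C₀)
    (hgr : ∀ ω, |rp (2 ^ L) (ppos L (chI i₁)) (trp F P ω) none - MvPolynomial.eval
      (fun j => rp (2 ^ L) (ppos L (chI i₁)) (trp F P ω) (some j)) (G (z ω))| ≤ C₀ / 2 ^ L) :
    CH F.p (rf F i₁ R) (fun ω => (bcel F i₁ R ω, z ω)) ≤
      Real.log (2 * ((m + 1) * C₀ + 1) + 1) := by
  have h0 := F.isLaw.nonneg
  obtain ⟨k, hk⟩ : ∃ k, w + k = R := ⟨R - w, by omega⟩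
  obtain ⟨l, hl⟩ : ∃ l, R + l = P := ⟨P - R, by omega⟩
  have hL : L = k + l := by omega
  have h2k : (0 : ℝ) < 2 ^ k := by positivity
  have h2l : (0 : ℝ) < 2 ^ l := by positivity
  have h2w : (0 : ℝ) < 2 ^ w := by positivity
  have h2R : (2 : ℝ) ^ R = 2 ^ w * 2 ^ k := by rw [← hk, pow_add]
  have h2P : (2 : ℝ) ^ P = 2 ^ w * 2 ^ k * 2 ^ l := by rw [← hl, pow_add, h2R]
  have h2L : (2 : ℝ) ^ L = 2 ^ k * 2 ^ l := by rw [hL, pow_add]
  obtain ⟨ct, hct⟩ : ∃ ct : (Fin m → ℤ) × Z → ℝ, ct = fun c => 2 ^ k * ((cz c.2).2 i₁ : ℝ) +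
    2 ^ k * MvPolynomial.eval (fun j => 2 ^ w * ((c.1 j : ℝ) / 2 ^ R - crI i₁ w (cz c.2) j))
      (G c.2) := ⟨_, rfl⟩
  obtain ⟨A, hA⟩ : ∃ A : ℝ, A = (m + 1) * C₀ + 1 := ⟨_, rfl⟩
  have hA0 : 0 ≤ A := by rw [hA]; positivity
  obtain ⟨S, hS⟩ : ∃ S : (Fin m → ℤ) × Z → Finset ℤ, S = fun c =>
    Finset.Icc ⌈ct c - A⌉ ⌊ct c + A⌋ := ⟨_, rfl⟩
  have hin : ∀ ω, rf F i₁ R ω ∈ S (bcel F i₁ R ω, z ω) := by
    intro ω
    obtain ⟨u, hu⟩ : ∃ u : Fin m → ℝ,
      u = fun j => rp (2 ^ L) (ppos L (chI i₁)) (trp F P ω) (some j) := ⟨_, rfl⟩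
    obtain ⟨y, hy⟩ : ∃ y : Fin m → ℝ, y = fun j => 2 ^ w * ((bcel F i₁ R ω j : ℝ) / 2 ^ R -
      crI i₁ w (cz (z ω)) j) := ⟨_, rfl⟩
    have hy1 : ∀ j, y j = rp (2 ^ k) (ppos k (chI i₁)) (trp F R ω) (some j) := by
      intro j
      rw [hy]
      simp only
      rw [hcz ω, ← crI_bcel F i₁ (by omega) ω j, ← base_cell F i₁ hk (by omega) ω j]
      field_simp
      ring
    have huy : ∀ j, u j - y j = 1 / 2 ^ k * rp (2 ^ l) (ppos l (chI i₁)) (trp F P ω) (some j) := by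
      intro j
      have a1 := base_cell F i₁ h hP ω j
      have a2 := base_cell F i₁ hk (by omega) ω j
      have a3 := base_cell F i₁ hl hP ω j
      have a4 : rp (2 ^ L) (ppos L (chI i₁)) (trp F P ω) (some j) = u j := by rw [hu]
      rw [← hy1 j] at a2
      rw [a4] at a1
      rw [h2R] at a3
      have a5 : 1 / 2 ^ w * (u j - y j) = 1 / (2 ^ w * 2 ^ k) *
          rp (2 ^ l) (ppos l (chI i₁)) (trp F P ω) (some j) := by linarith only [a1, a2, a3]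
      have a6 : u j - y j = 2 ^ w * (1 / 2 ^ w * (u j - y j)) := by field_simp
      rw [a6, a5]
      field_simp
    have hmu : u ∈ cube (fun _ => 0) 1 := by
      intro j
      have := base_unit F i₁ L P ω j
      rw [hu]
      simp only [zero_add]
      exact this
    have hmy : y ∈ cube (fun _ => 0) 1 := by
      intro j
      have := base_unit F i₁ k R ω j
      rw [hy1 j]
      simp only [zero_add]
      exact this
    have h1 := (hreg ω).lipU hmu hmy (ρ := 1 / 2 ^ k) (by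
      intro j
      have a1 := base_unit F i₁ l P ω j
      rw [huy j, abs_of_nonneg (mul_nonneg (by positivity) a1.1)]
      exact mul_le_of_le_one_right (by positivity) a1.2)
    have h2 := hgr ω
    obtain ⟨un, hun⟩ : ∃ un, un = rp (2 ^ L) (ppos L (chI i₁)) (trp F P ω) none := ⟨_, rfl⟩
    have h3 := pas_cell F i₁ h ω
    rw [← hun] at h2 h3
    rw [← hu] at h2
    have h4 := Xr_emod F hl ω i₁
    have h5 : (0 : ℤ) ≤ F.X P ω i₁ % 2 ^ l := Int.emod_nonneg _ (by positivity)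
    have h6 : F.X P ω i₁ % 2 ^ l < 2 ^ l := Int.emod_lt_of_pos _ (by positivity)
    have h7 : (2 : ℝ) ^ l * F.X R ω i₁ ≤ F.X P ω i₁ := by
      have : (2 : ℤ) ^ l * F.X R ω i₁ ≤ F.X P ω i₁ := by linarith only [h4, h5]
      exact_mod_cast this
    have h8 : (F.X P ω i₁ : ℝ) ≤ 2 ^ l * F.X R ω i₁ + 2 ^ l := by
      have : F.X P ω i₁ ≤ (2 : ℤ) ^ l * F.X R ω i₁ + 2 ^ l := by linarith only [h4, h6]
      exact_mod_cast this
    -- the passive coordinate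
    have h9 : 2 ^ k * un = (F.X P ω i₁ : ℝ) / 2 ^ l - 2 ^ k * F.X w ω i₁ := by
      rw [h2P] at h3
      have a1 : un = 2 ^ w * ((F.X w ω i₁ : ℝ) / 2 ^ w + 1 / 2 ^ w * un) - F.X w ω i₁ := by
        field_simp
        ring
      rw [a1, h3]
      field_simp
    have h10 : |(F.X R ω i₁ : ℝ) - (2 ^ k * F.X w ω i₁ + 2 ^ k * un)| ≤ 1 := by
      rw [h9, abs_le]
      have a1 : (F.X R ω i₁ : ℝ) ≤ F.X P ω i₁ / 2 ^ l := by
        rw [le_div_iff₀ h2l]
        linarith only [h7]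
      have a2 : (F.X P ω i₁ : ℝ) / 2 ^ l ≤ F.X R ω i₁ + 1 := by
        rw [div_le_iff₀ h2l]
        linarith only [h8]
      constructor <;> linarith
    have h11 : |2 ^ k * un - 2 ^ k * MvPolynomial.eval u (G (z ω))| ≤ C₀ := by
      rw [← mul_sub, abs_mul, abs_of_pos h2k]
      rw [h2L] at h2
      have a1 : C₀ / (2 ^ k * 2 ^ l) ≤ C₀ / 2 ^ k := by
        refine div_le_div_of_nonneg_left hC₀ h2k ?_
        exact le_mul_of_one_le_right h2k.le (one_le_pow₀ (by norm_num))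
      have a2 := mul_le_mul_of_nonneg_left (h2.trans a1) h2k.le
      rwa [mul_div_cancel₀ _ h2k.ne'] at a2
    have h12 : |2 ^ k * MvPolynomial.eval u (G (z ω)) -
        2 ^ k * MvPolynomial.eval y (G (z ω))| ≤ m * C₀ := by
      rw [← mul_sub, abs_mul, abs_of_pos h2k]
      have a2 := mul_le_mul_of_nonneg_left h1 h2k.le
      refine a2.trans (le_of_eq ?_)
      field_simp
    have hct1 : ct (bcel F i₁ R ω, z ω) =
        2 ^ k * F.X w ω i₁ + 2 ^ k * MvPolynomial.eval y (G (z ω)) := by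
      rw [hct, hy]
      simp only
      rw [hcz ω]
    rw [abs_le] at h10 h11 h12
    rw [hS]
    simp only
    rw [hct1, Finset.mem_Icc, Int.ceil_le, Int.le_floor, hA]
    unfold rf
    constructor <;> nlinarith only [h10, h11, h12, h10.1, h10.2, h11.1, h11.2, h12.1, h12.2]
  refine (CH_le_card h0 F.isLaw.sum_one _ _ S fun ω _ => hin ω).trans ?_
  refine (Ex_mono h0 fun ω _ => ?_).trans (le_of_eq (Ex_const F.isLaw.sum_one _))
  have hpos : 0 < (S (bcel F i₁ R ω, z ω)).card := Finset.card_pos.mpr ⟨_, hin ω⟩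
  refine Real.log_le_log (by exact_mod_cast hpos) ?_
  rw [hS, ← hA]
  exact card_near _ _ hA0

end Pool.FLF
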