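import Pool.Agent.H99.LST.OVT

/-!
# Own-visibility of the exact label, with a small entropy
-/

set_option autoImplicit false

namespace Pool.FLF

open Finset Real
open Pool.Agent.H49.Ent Pool.Agent.H32.Dense Pool.STK Pool.KA Pool.KSAT Pool.K2S Pool.KS3
open Pool.KAL Pool.PB Pool.KST Pool.KA.TRC Pool.K2S.Rows Pool.OVN

variable {m J : ℕ}

/-- The entropy of a vector of integers which is near another one. -/
theorem CH_vec_nearE {Ω T : Type} [Fintype Ω] {p : Ω → ℝ} (hp : IsLaw p) {K : ℕ} (c₀ : ℕ)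
    (f h : Ω → (Fin m →₀ ℕ) → ℤ) (c : Ω → T)
    (hout : ∀ ω α, α ∉ expBox (Fin m) K → f ω α = 0)
    (hnear : ∀ ω α, |f ω α - h ω α| ≤ (c₀ : ℤ)) :
    CH p f c ≤ CH p h c + (expBox (Fin m) K).card * Real.log (2 * c₀ + 1) := by
  have h1 : CH p f c ≤ CH p (fun ω => (f ω, h ω)) c :=
    CH_mono_left hp.nonneg (fun ω ω' _ _ hh => by
      simp only [Prod.mk.injEq] at hh
      exact hh.1.1)
  have h2 : CH p (fun ω => (f ω, h ω)) c = CH p h c + CH p f (fun ω => (h ω, c ω)) :=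
    CH_chain hp.nonneg f h c
  have h3 := CH_vec_near hp (K := K) c₀ f h (fun ω => (h ω, c ω))
    (fun ω ω' _ _ hh => by
      simp only [Prod.mk.injEq] at hh
      exact hh.1) hout hnear
  linarith

/-- **Own-visibility of the exact label**, with a small entropy. -/
theorem OV_famE (m K : ℕ) : ∃ (s₀ : ℕ) (Co : ℝ), 0 ≤ Co ∧
    ∀ (J : ℕ) (F : Fam m J) (i₁ : Fin m) (R w' w u w₂ A L P r r' : ℕ) (e eo : ℝ) (Z : Type)
      (z : F.Ω → Z) (zs : ((Fin m → ℝ) × (Fin m → ℝ)) × F.ζ × ℕ → Z)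
      (G : Z → MvPolynomial (Fin m) ℝ)
      (wzz : Z × (Option (Fin m) → ℕ) → ℕ × ((Fin m → ℤ) × F.ζ))
      (G₀ : (Fin m → ℤ) × (ℕ × F.ζ) → MvPolynomial (Fin m) ℝ),
      w' + A = P → w₂ + L = P → w' ≤ w → w + u = w₂ → P ≤ J → F.Tm e →
      (∀ ω, wzz (zx2 L (fun ξ : ((Fin m → ℤ) × (ℕ × F.ζ)) × Z => ppos A (chI i₁) ξ.1) Prod.snd
        (trp F P ω, z ω)) = (F.T1 w' ω, (F.X w' ω, F.Z ω))) →
      (∀ ω, z ω = zs (slam F w ω)) → (∀ y, (G₀ y).totalDegree ≤ K) →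
      (∀ ω, (G (z ω)).totalDegree ≤ K) →
      (∀ ω, ∀ y : Fin m → ℝ, (∀ j, |y j| ≤ 1) → |MvPolynomial.eval y (G (z ω)) -
        MvPolynomial.eval y (grI i₁ w (F.T1 w ω, F.X w ω) (G₀ (ptr F R ω)))| ≤
          1 / 2 ^ (P - w)) →
      r + s₀ ≤ r' → r' ≤ L →
      CH F.p (kod F i₁ R w (w₂ + r + s₀) G₀) (ptr F (w₂ + r')) ≤ eo →
      Pool.KJ.OV F.p (fun ω => (trp F P ω, z ω)) L
        (fun ξ : ((Fin m → ℤ) × (ℕ × F.ζ)) × Z => ppos A (chI i₁) ξ.1)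
        (fun ξ => wzz (zx2 L (fun ξ : ((Fin m → ℤ) × (ℕ × F.ζ)) × Z =>
          ppos A (chI i₁) ξ.1) Prod.snd ξ))
        (zx2 L (fun ξ : ((Fin m → ℤ) × (ℕ × F.ζ)) × Z => ppos A (chI i₁) ξ.1) Prod.snd)
        (G2 u G) r r' (e + cc m + Co + eo) := by
  classical
  obtain ⟨c₀, hc₀⟩ := fco_kod m K
  obtain ⟨bx, hbx⟩ : ∃ bx, bx = expBox (Fin m) K := ⟨_, rfl⟩
  obtain ⟨s₀, hs₀⟩ : ∃ s : ℕ, (bx.card : ℝ) ≤ 2 ^ s := by
    refine ⟨bx.card, ?_⟩
    exact_mod_cast Nat.lt_two_pow_self.le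
  refine ⟨s₀, bx.card * Real.log (2 * c₀ + 1), ?_, ?_⟩
  · have : (0 : ℝ) ≤ Real.log (2 * c₀ + 1) := Real.log_nonneg (by
      have : (0 : ℝ) ≤ c₀ := Nat.cast_nonneg _
      linarith)
    positivity
  intro J F i₁ R w' w u w₂ A L P r r' e eo Z z zs G wzz G₀ hA hL hww hu hP hT hwz hz hG₀ hG
    hger hr hr' hΦ
  have h0 := F.isLaw.nonneg
  obtain ⟨k, hk⟩ : ∃ k, k = u + r + s₀ := ⟨_, rfl⟩
  have h2k : (0 : ℝ) < 2 ^ k := by positivity
  refine ⟨(Fin m →₀ ℕ) → ℤ, fun ζ => fco k G ζ.1, ?_, ?_⟩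
  · -- the code determines the leaf
    intro ω ω' _ _ hcel hcd y hy
    have hcel' : cel (2 ^ L) (fun ξ : ((Fin m → ℤ) × (ℕ × F.ζ)) × Z => ppos A (chI i₁) ξ.1)
        (trp F P ω, z ω) = cel (2 ^ L) (fun ξ : ((Fin m → ℤ) × (ℕ × F.ζ)) × Z =>
          ppos A (chI i₁) ξ.1) (trp F P ω', z ω') := funext hcel
    obtain ⟨b, hb⟩ : ∃ b, b = cel (2 ^ L) (fun ξ : ((Fin m → ℤ) × (ℕ × F.ζ)) × Z =>
      ppos A (chI i₁) ξ.1) (trp F P ω', z ω') := ⟨_, rfl⟩
    simp only [zx2] at hcd ⊢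
    rw [hcel', ← hb]
    simp only [G2]
    rw [eval_rsG, eval_rsG]
    have hs : (0 : ℝ) < 1 / 2 ^ u := by positivity
    rw [← sub_div, sub_sub_sub_cancel_right, abs_div, abs_of_pos hs, div_le_iff₀ hs]
    rw [← map_sub]
    have hyu : ∀ j, |sco u b (some j) + 1 / 2 ^ u * y j| ≤ 1 := by
      intro j
      have h1 := hy j
      have h2 := sco_nonneg (u := u) b (some j)
      have h3 := sco_le (u := u) b (some j)
      simp only [zero_add] at h1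
      have h4 : 0 ≤ 1 / 2 ^ u * y j := mul_nonneg hs.le h1.1
      have h5 : 1 / 2 ^ u * y j ≤ 1 / 2 ^ u := mul_le_of_le_one_right hs.le h1.2
      rw [abs_of_nonneg (by linarith)]
      linarith
    have h6 := eval_near_unit (K := K) (R := G (z ω) - G (z ω'))
      ((MvPolynomial.totalDegree_sub _ _).trans (max_le (hG _) (hG _)))
      (t := 1 / 2 ^ k) (by
        intro α _
        rw [MvPolynomial.coeff_sub]
        have h3 : ⌊(2 : ℝ) ^ k * MvPolynomial.coeff α (G (z ω))⌋ =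
            ⌊(2 : ℝ) ^ k * MvPolynomial.coeff α (G (z ω'))⌋ := congrFun hcd α
        have h4 := Int.abs_sub_lt_one_of_floor_eq_floor h3
        rw [← mul_sub, abs_mul, abs_of_pos h2k] at h4
        rw [le_div_iff₀ h2k]
        linarith) (y := fun j => sco u b (some j) + 1 / 2 ^ u * y j) hyu
    refine h6.trans ?_
    rw [← hbx, hk]
    calc (bx.card : ℝ) * (1 / 2 ^ (u + r + s₀)) ≤ 2 ^ s₀ * (1 / 2 ^ (u + r + s₀)) :=
          mul_le_mul_of_nonneg_right hs₀ (by positivity)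
      _ = 1 / 2 ^ r * (1 / 2 ^ u) := by
        rw [pow_add, pow_add]
        field_simp
  · -- the entropy of the code
    have hP2 : w₂ + r' ≤ J := by omega
    have hw2 : w' ≤ w₂ := by omega
    obtain ⟨x, hx⟩ : ∃ x : F.Ω → ((Fin m → ℤ) × (ℕ × F.ζ)) × Z,
      x = fun ω => (trp F P ω, z ω) := ⟨_, rfl⟩
    obtain ⟨pos, hpos⟩ : ∃ pos : ((Fin m → ℤ) × (ℕ × F.ζ)) × Z → Option (Fin m) → ℕ,
      pos = fun ξ => ppos A (chI i₁) ξ.1 := ⟨_, rfl⟩
    -- the condition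
    have hdet : ∀ ω ω', (Pool.KJ.Yr L (fun ξ : ((Fin m → ℤ) × (ℕ × F.ζ)) × Z =>
        ppos A (chI i₁) ξ.1) r' (trp F P ω, z ω), (Pool.KJ.Nr L
        (fun ξ : ((Fin m → ℤ) × (ℕ × F.ζ)) × Z => ppos A (chI i₁) ξ.1) r' (trp F P ω, z ω),
        (F.T1 w' ω, (F.X w' ω, F.Z ω)))) = (Pool.KJ.Yr L
        (fun ξ : ((Fin m → ℤ) × (ℕ × F.ζ)) × Z =>
        ppos A (chI i₁) ξ.1) r' (trp F P ω', z ω'), (Pool.KJ.Nr L
        (fun ξ : ((Fin m → ℤ) × (ℕ × F.ζ)) × Z => ppos A (chI i₁) ξ.1) r' (trp F P ω', z ω'),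
        (F.T1 w' ω', (F.X w' ω', F.Z ω')))) →
        bcel F i₁ (w₂ + r') ω = bcel F i₁ (w₂ + r') ω' ∧
        F.X (w₂ + r') ω i₁ = F.X (w₂ + r') ω' i₁ ∧ F.Z ω = F.Z ω' := by
      intro ω ω' hh
      simp only [Prod.mk.injEq] at hh
      obtain ⟨h1, h2, h3, h4, h5⟩ := hh
      refine ⟨?_, ?_, h5⟩
      · refine ppos_inj_some F i₁ (w := w') (s := w₂ + r' - w') (by omega) hP2 h3
          (fun j => congrFun h4 j) fun i => ?_
        rw [← Yr_fam F i₁ hA hL hw2 hP z hr' ω i, ← Yr_fam F i₁ hA hL hw2 hP z hr' ω' i]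
        exact congrFun h1 i
      · refine ppos_inj_none F i₁ (w := w') (s := w₂ + r' - w') (by omega) (congrFun h4 i₁) ?_
        rw [← Nr_fam F i₁ hA hL hw2 hP z hr' ω, ← Nr_fam F i₁ hA hL hw2 hP z hr' ω']
        exact h2
    have e1 : (fun ω => (Pool.KJ.Yr L (fun ξ : ((Fin m → ℤ) × (ℕ × F.ζ)) × Z =>
        ppos A (chI i₁) ξ.1) r' (trp F P ω, z ω), (Pool.KJ.Nr L
        (fun ξ : ((Fin m → ℤ) × (ℕ × F.ζ)) × Z => ppos A (chI i₁) ξ.1) r' (trp F P ω, z ω),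
        wzz (zx2 L (fun ξ : ((Fin m → ℤ) × (ℕ × F.ζ)) × Z => ppos A (chI i₁) ξ.1) Prod.snd
          (trp F P ω, z ω))))) = fun ω => (Pool.KJ.Yr L
        (fun ξ : ((Fin m → ℤ) × (ℕ × F.ζ)) × Z =>
        ppos A (chI i₁) ξ.1) r' (trp F P ω, z ω), (Pool.KJ.Nr L
        (fun ξ : ((Fin m → ℤ) × (ℕ × F.ζ)) × Z => ppos A (chI i₁) ξ.1) r' (trp F P ω, z ω),
        (F.T1 w' ω, (F.X w' ω, F.Z ω)))) := by
      funext ω
      rw [hwz]
    have e2 : (fun ω => fco k G (zx2 L (fun ξ : ((Fin m → ℤ) × (ℕ × F.ζ)) × Z =>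
        ppos A (chI i₁) ξ.1) Prod.snd (trp F P ω, z ω)).1) = fun ω => fco k G (z ω) := rfl
    simp only
    rw [e1, e2]
    obtain ⟨c₂, hc₂⟩ : ∃ c₂ : F.Ω → (Fin m → ℕ) × (ℕ × (ℕ × ((Fin m → ℤ) × F.ζ))),
      c₂ = fun ω => (Pool.KJ.Yr L
        (fun ξ : ((Fin m → ℤ) × (ℕ × F.ζ)) × Z =>
        ppos A (chI i₁) ξ.1) r' (trp F P ω, z ω), (Pool.KJ.Nr L
        (fun ξ : ((Fin m → ℤ) × (ℕ × F.ζ)) × Z => ppos A (chI i₁) ξ.1) r' (trp F P ω, z ω),
        (F.T1 w' ω, (F.X w' ω, F.Z ω)))) := ⟨_, rfl⟩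
    have hdet' : ∀ ω ω', c₂ ω = c₂ ω' → bcel F i₁ (w₂ + r') ω = bcel F i₁ (w₂ + r') ω' ∧
        F.X (w₂ + r') ω i₁ = F.X (w₂ + r') ω' i₁ ∧ F.Z ω = F.Z ω' := by
      intro ω ω' hh
      rw [hc₂] at hh
      exact hdet ω ω' hh
    rw [← hc₂]
    have s1 := tcut F hT hP2 (fun ω => fco k G (z ω)) c₂
      (by
        intro ω ω' _ _ hh
        exact T1_of_bcel F i₁ hP2 (hdet' ω ω' hh).1)
      (by
        intro ω ω' _ _ hh
        simp only [Prod.mk.injEq] at hh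
        obtain ⟨h1, h2⟩ := hh
        have h3 : F.T1 (w₂ + r') ω = F.T1 (w₂ + r') ω' := congrArg (fun v => v.2.2) h1
        have h4 : F.Z ω = F.Z ω' := congrArg (fun v => v.2.1) h1
        refine Prod.ext ?_ ?_
        · simp only
          rw [hz ω, hz ω', slam_coarse F (show w ≤ w₂ + r' by omega) hP2 ω,
            slam_coarse F (show w ≤ w₂ + r' by omega) hP2 ω', h1]
        · rw [hc₂]
          simp only
          have h5 : bcel F i₁ (w₂ + r') ω = bcel F i₁ (w₂ + r') ω' :=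
            bcel_eq F i₁ hP2 h3 fun j _ => congrFun h2 j
          refine Prod.ext ?_ (Prod.ext ?_ (Prod.ext ?_ (Prod.ext ?_ h4)))
          · funext i
            simp only
            rw [Yr_fam F i₁ hA hL hw2 hP z hr' ω i, Yr_fam F i₁ hA hL hw2 hP z hr' ω' i]
            exact ppos_of_bcel F i₁ hP2 h5 i
          · simp only
            rw [Nr_fam F i₁ hA hL hw2 hP z hr' ω, Nr_fam F i₁ hA hL hw2 hP z hr' ω']
            exact ppos_of_X F i₁ (congrFun h2 i₁)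
          · exact T1_coarse F (by omega) hP2 h3
          · funext j
            exact X_coarse F (by omega) (congrFun h2 j))
    have hkc : ∀ ω ω', F.T ω = F.T ω' → c₂ ω = c₂ ω' →
        ptr F (w₂ + r') ω = ptr F (w₂ + r') ω' := by
      intro ω ω' h1 h2
      obtain ⟨h3, h4, h5⟩ := hdet' ω ω' h2
      have h6 : F.X (w₂ + r') ω = F.X (w₂ + r') ω' := by
        funext j
        by_cases hj : j = i₁
        · rw [hj]
          exact h4
        · exact X_of_bcel F i₁ hj h3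
      exact Prod.ext h6 (Prod.ext h1 h5)
    have s2 := CH_vec_nearE F.isLaw (K := K) c₀ (fun ω => fco k G (z ω))
      (fun ω α => kod F i₁ R w (w + k) G₀ ω α - (if α = 0 then 2 ^ k * F.X w ω i₁ else 0))
      (fun ω => (F.T ω, c₂ ω))
      (by
        intro ω α hα
        have h0 : MvPolynomial.coeff α (G (z ω)) = 0 := by
          by_contra hne
          exact hα (support_subset_expBox (G (z ω)) K (hG ω)
            (MvPolynomial.mem_support_iff.mpr hne))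
        unfold fco
        rw [h0, mul_zero, Int.floor_zero])
      (by
        intro ω α
        exact hc₀ J F i₁ R w k (P - w) G₀ G (z ω) ω (by omega) (by omega) hG₀ (hG ω)
          (hger ω) α)
    rw [← hbx] at s2
    -- the entropy of the sheet
    have s3 : CH F.p (fun ω (α : Fin m →₀ ℕ) => kod F i₁ R w (w + k) G₀ ω α -
        (if α = 0 then 2 ^ k * F.X w ω i₁ else 0)) (fun ω => (F.T ω, c₂ ω)) ≤ eo := by
      have e3 : w + k = w₂ + r + s₀ := by omega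
      rw [e3]
      refine le_trans ?_ hΦ
      have t1 : CH F.p (fun ω (α : Fin m →₀ ℕ) => kod F i₁ R w (w₂ + r + s₀) G₀ ω α -
          (if α = 0 then 2 ^ k * F.X w ω i₁ else 0)) (fun ω => (F.T ω, c₂ ω)) ≤
          CH F.p (kod F i₁ R w (w₂ + r + s₀) G₀) (fun ω => (F.T ω, c₂ ω)) := by
        refine CH_mono_left h0 ?_
        intro ω ω' _ _ hh
        simp only [Prod.mk.injEq] at hh
        obtain ⟨h1, h2, h3⟩ := hh
        have h4 := congrArg (fun v => v.1) (hkc ω ω' h2 h3)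
        have h5 : F.X w ω i₁ = F.X w ω' i₁ :=
          X_coarse F (show w ≤ w₂ + r' by omega) (congrFun h4 i₁)
        funext α
        simp only
        rw [h1, h5]
      refine t1.trans (CH_mono_cond h0 ?_)
      intro ω ω' _ _ hh
      simp only [Prod.mk.injEq] at hh
      exact hkc ω ω' hh.1 hh.2
    linarith

end Pool.FLF
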