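import Pool.Agent.H99.LST.STL
import Pool.Agent.H35.K2S.Prod

/-!
# The lossy step in a class of families
-/

set_option autoImplicit false

namespace Pool.FLF

open Finset Real
open Pool.Agent.H49.Ent Pool.Agent.H32.Dense Pool.STK Pool.KA Pool.KSAT Pool.K2S Pool.KS3
open Pool.KAL Pool.PB Pool.KST Pool.KA.TRC Pool.K2S.Rows Pool.OVN Pool.KAF

variable {m J : ℕ}

/-- `exp (-x) C ≤ 1` for `x ≥ C`. -/
lemma exp_mul_le_one {x C : ℝ} (h : C ≤ x) : Real.exp (-x) * C ≤ 1 := by
  rw [Real.exp_neg, inv_mul_le_iff₀ (Real.exp_pos _), mul_one]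
  linarith [Real.add_one_le_exp x]

/-- A finite number of functions with small conditional entropies are functions on a large
event. -/
theorem fns_event (F : Fam m J) {A : F.Ω → Prop} (hA : 0 < Pe F.p A) (n : ℕ) (cnd : Fin n → Prop)
    {S T : Type} [Nonempty S] (c : Fin n → F.Ω → S) (g : Fin n → F.Ω → T) {δ : ℝ} (hδ : 0 < δ)
    (h : ∀ i, cnd i → CH (Pool.Agent.H49.Ent.cond F.p A True) (c i) (g i) ≤ δ) :
    ∃ A₁ : F.Ω → Prop, Sub A₁ A ∧ Real.exp (-(2 * n ^ 2 * δ)) / 2 * Pe F.p A ≤ Pe F.p A₁ ∧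
      ∀ i, cnd i → ∃ Φ : T → S, ∀ ω, A₁ ω → c i ω = Φ (g i ω) := by
  classical
  obtain ⟨s₀⟩ := ‹Nonempty S›
  obtain ⟨c', hc'⟩ : ∃ c' : Fin n → F.Ω → S, c' = fun i => if cnd i then c i else fun _ => s₀ :=
    ⟨_, rfl⟩
  obtain ⟨ζ, hζ⟩ := exists_fns_of_CH (n := n) (S := fun _ => S) (T := fun _ => T)
    (isLaw_cond F.isLaw hA) c' g hδ (by
      intro i
      by_cases hi : cnd i
      · have : c' i = c i := by rw [hc']; simp only [if_pos hi]
        rw [this]
        exact h i hi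
      · have : c' i = fun _ => s₀ := by rw [hc']; simp only [if_neg hi]
        rw [this]
        refine le_trans (Cnt.CH_le (h := 0) F.isLaw hA ⟨fun _ => {s₀}, fun _ => ?_, fun _ _ =>
          Finset.mem_singleton_self _⟩) hδ.le
        rw [Real.exp_zero, Finset.card_singleton, Nat.cast_one])
  rw [Pe_cond, le_div_iff₀ hA] at hζ
  refine ⟨fun ω => A ω ∧ ∀ i : Fin n, c' i ω = ζ i (g i ω), fun ω hω => hω.1, hζ, ?_⟩
  intro i hi
  refine ⟨ζ i, fun ω hω => ?_⟩
  have h1 := hω.2 i
  have : c' i = c i := by rw [hc']; simp only [if_pos hi]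
  rw [this] at h1
  exact h1

/-- **The lossy step in a class of families**, without the passage to polynomial labels. -/
theorem step_clg {D j w Cj Cr Cc K E M : ℕ} {c η₁ : ℝ} {κ₀ N₀ m₀ : ℕ} (hm : 1 ≤ m)
    (hcho : (j + m).choose m < (D + m + 1).choose (m + 1)) (hj : 6 * m * D ≤ j) (hw : 1 ≤ w)
    (hCr : j + 1 ≤ Cr) (hE : 1 ≤ E) (hM : 1 ≤ M) (hc : 0 < c) (hη₁ : 0 < η₁) (hκ₀ : 1 ≤ κ₀)
    (hJ : JSI m D (j + 1) w (3 + 2 * m + 2 * m ^ 2) c Cj Cr Cc K E M η₁ κ₀ N₀ m₀)
    {S : FCl m} (hS : SPS S (m - 2)) (hO : OVF S) {h₁ : ℝ} (hh₁ : 0 < h₁) {N i ρ : ℕ}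
    (hN : 0 < N) (h2d : 2 * M ≤ i) (hL : i + M + 1 + (Cr + Cj) * M ≤ ρ) (hρN : ρ ≤ N)
    (hLE : ρ ≤ i + M + 1 + E * M) (i₁ : Fin m) {κ₁ : ℝ} (hκ₁ : 0 < κ₁) :
    Clg S (fun J F A => Ch F i₁ ⌊h₁ * J⌋₊ A →
      CH (Pool.Agent.H49.Ent.cond F.p A True) (F.X ((ρ - 1) * (J / N)))
        (fun ω => (F.X ((ρ - 1 - Cr * M) * (J / N)) ω, F.W ω)) ≤
          (m - 2 * c) * (Cr * ((M * (J / N) : ℕ) : ℝ) * Real.log 2) →
      Bl F i₁ N K ρ i (ρ - 1) A →
      ∃ A' : F.Ω → Prop, Sub A' A ∧ Real.exp (-(κ₁ * J)) * Pe F.p A ≤ Pe F.p A' ∧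
        Cls F i₁ (ρ * (J / N)) 1 ((i - 2 * M) * (J / N)) ((ρ - 1 - (Cr + Cj) * M) * (J / N)) A') := by
  classical
  obtain ⟨s₀, η, U, hη, hcore⟩ := core_ev m D j w Cj Cr Cc K E M c η₁ κ₀ N₀ m₀ hm hcho hj hw hCr
    hE hM hc hη₁ hκ₀ hJ
  obtain ⟨cx, hcx, hxle⟩ := xle_of_labW m K
  have hNr : (0 : ℝ) < N := by exact_mod_cast hN
  have hN1 : (1 : ℝ) ≤ N := by exact_mod_cast hN
  have hmr : (1 : ℝ) ≤ m := by exact_mod_cast hm
  have hwr : (1 : ℝ) ≤ w := by exact_mod_cast hw
  -- the list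
  obtain ⟨η₂, hη₂⟩ : ∃ η₂, η₂ = η / (4 * N) := ⟨_, rfl⟩
  have hη₂0 : 0 < η₂ := by rw [hη₂]; positivity
  obtain ⟨Mc, hMc⟩ := exists_nat_ge (((m : ℝ) + 1) / η₂)
  rw [div_le_iff₀ hη₂0] at hMc
  refine Clg.step (entL i₁ N Mc η₂) fun κ₂ hκ₂ => ?_
  obtain ⟨J₁, hste⟩ := ste_of_list (i₁ := i₁) (N := N) (Mc := Mc) hη₂0 hκ₂ hMc
  -- the scale of the spread
  obtain ⟨g, hg⟩ : ∃ g, g = min (h₁ / 2) (η / (4 * m * N)) := ⟨_, rfl⟩
  have hg0 : 0 < g := by rw [hg]; exact lt_min (by positivity) (by positivity)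
  have hg1 : g ≤ h₁ / 2 := by rw [hg]; exact min_le_left _ _
  have hg2 : g ≤ η / (4 * m * N) := by rw [hg]; exact min_le_right _ _
  obtain ⟨ψ, hψ, hspc⟩ := hS g hg0
  obtain ⟨c₁, hc₁⟩ := pow_unbounded_of_one_lt
    (m.factorial * (6 * (3 + 2 * (m : ℝ) + 2 * m ^ 2)) ^ m * (4 * m) ^ m) (by norm_num : (1 : ℝ) < 2)
  -- the small quantities
  obtain ⟨ζ, hζ⟩ : ∃ ζ, ζ = min (min (ψ / 2) (κ₂ / 2)) (min (κ₁ / 2) (η / (4 * N))) := ⟨_, rfl⟩
  have hζ0 : 0 < ζ := by
    rw [hζ]
    exact lt_min (lt_min (by positivity) (by positivity)) (lt_min (by positivity) (by positivity))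
  have hζ1 : ζ ≤ ψ / 2 := by rw [hζ]; exact (min_le_left _ _).trans (min_le_left _ _)
  have hζ2 : ζ ≤ κ₂ / 2 := by rw [hζ]; exact (min_le_left _ _).trans (min_le_right _ _)
  exact by
   have hζ3 : ζ ≤ κ₁ / 2 := by rw [hζ]; exact (min_le_right _ _).trans (min_le_left _ _)
   have hζ4 : ζ ≤ η / (4 * N) := by rw [hζ]; exact (min_le_right _ _).trans (min_le_right _ _)
   obtain ⟨ε₁, hε₁⟩ : ∃ ε₁, ε₁ = ζ / (16 * N ^ 2) := ⟨_, rfl⟩
   have hε₁0 : 0 < ε₁ := by rw [hε₁]; positivity
   obtain ⟨τ, hτ⟩ : ∃ τ, τ = ζ / 16 := ⟨_, rfl⟩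
   have hτ0 : 0 < τ := by rw [hτ]; positivity
   have hov := hO K (1 / (2 * w)) h₁ (1 / (4 * N)) ε₁ (by positivity) hh₁ (by positivity) hε₁0 i₁
   -- the threshold
   obtain ⟨TT, hTT⟩ : ∃ TT : ℝ, TT = 2 * N * (1 + |U| + m₀ + 2 * s₀ + 2 * c₁ / η) + J₁ + N +
     2 / h₁ + 8 / (ψ * η) + 16 / (cx * ζ) + 8 * (Cc + 1) / κ₁ := ⟨_, rfl⟩
   obtain ⟨J₂, hJ₂⟩ := exists_nat_ge TT
   refine Clg.mono (J₂ := J₂) ((hspc.and hov).and (Clg.of (S := S) (τ := τ) hτ0 0
     (Φ := fun J F A => S.St τ F A) (fun _ _ _ _ h => h))) ?_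
   rintro J hJ F A ⟨⟨hSp, hOV⟩, hSt⟩ hSb hCh hrate hBl
   have hp := F.isLaw
   have hJr : TT ≤ J := hJ₂.trans (by exact_mod_cast hJ)
   have t1 : 0 ≤ |U| := abs_nonneg _
   have t2 : (0 : ℝ) ≤ m₀ := Nat.cast_nonneg _
   have t3 : (0 : ℝ) ≤ s₀ := Nat.cast_nonneg _
   have t4 : 0 ≤ 2 * c₁ / η := by positivity
   have t5 : (0 : ℝ) ≤ J₁ := Nat.cast_nonneg _
   have t6 : 0 ≤ 2 / h₁ := by positivity
   have t7 : 0 ≤ 8 / (ψ * η) := by positivity
   have t8 : 0 ≤ 16 / (cx * ζ) := by positivity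
   have t9 : 0 ≤ 8 * ((Cc : ℝ) + 1) / κ₁ := by positivity
   obtain ⟨Ut, hUt⟩ : ∃ Ut, Ut = 1 + |U| + m₀ + 2 * s₀ + 2 * c₁ / η := ⟨_, rfl⟩
   have hUt0 : 0 < Ut := by rw [hUt]; linarith only [t1, t4]
   have t0 : 0 ≤ 2 * N * Ut := by positivity
   rw [← hUt] at hTT
   have v1 : 2 * N * Ut ≤ J := by linarith only [hNr, hJr, t6, t7, t8, t9, hTT]
   exact by
    have v2 : (J₁ : ℝ) ≤ J := by linarith only [hNr, hJr, t6, t7, t8, t9, hTT, t0]
    have v3 : (N : ℝ) ≤ J := by linarith only [hJr, t6, t7, t8, t9, hTT, t0]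
    have v4 : 2 / h₁ ≤ J := by linarith only [hNr, hJr, t7, t8, t9, hTT, t0]
    have v5 : 8 / (ψ * η) ≤ J := by linarith only [hNr, hJr, t6, t8, t9, hTT, t0]
    have v6 : 16 / (cx * ζ) ≤ J := by linarith only [hNr, hJr, t6, t7, t9, hTT, t0]
    have v7 : 8 * ((Cc : ℝ) + 1) / κ₁ ≤ J := by linarith only [hNr, hJr, t6, t7, t8, hTT, t0]
    have hJ0 : (0 : ℝ) ≤ J := Nat.cast_nonneg J
    have v2' : J₁ ≤ J := by exact_mod_cast v2
    have v3' : N ≤ J := by exact_mod_cast v3
    rw [div_le_iff₀ hh₁] at v4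
    rw [div_le_iff₀ (by positivity)] at v5 v6
    rw [div_le_iff₀ hκ₁] at v7
    -- the mesh
    obtain ⟨u, hu⟩ : ∃ u, u = J / N := ⟨_, rfl⟩
    rw [← hu] at hrate ⊢
    have hu1 : 1 ≤ u := by rw [hu]; exact Nat.div_pos v3' hN
    have hJN : J ≤ 2 * N * u := by
      have h1 := Nat.div_add_mod J N
      have h2 := Nat.mod_lt J hN
      rw [← hu] at h1
      have h3 : N * 1 ≤ N * u := Nat.mul_le_mul_left _ hu1
      have h4 : 2 * N * u = N * u + N * u := by ring
      omega
    have hJNr : (J : ℝ) ≤ 2 * N * u := by exact_mod_cast hJN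
    have hNuJ : N * u ≤ J := by rw [hu]; exact Nat.mul_div_le J N
    have hUtu : Ut ≤ u := by
      have h1 : 2 * N * Ut ≤ 2 * N * u := v1.trans hJNr
      exact le_of_mul_le_mul_left h1 (by positivity)
    have hu1r : (1 : ℝ) ≤ u := by exact_mod_cast hu1
    have w1 : U ≤ u := by linarith only [t4, hUt, hUtu, le_abs_self U]
    exact by
     have w2 : (m₀ : ℝ) ≤ u := by linarith only [t1, t4, hUt, hUtu]
     have w3 : 2 * (s₀ : ℝ) ≤ u := by linarith only [t1, t4, hUt, hUtu]
     have w4 : 2 * c₁ / η ≤ u := by linarith only [t1, hUt, hUtu]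
     rw [div_le_iff₀ hη] at w4
     have w2' : m₀ ≤ u := by exact_mod_cast w2
     have w3' : 2 * s₀ ≤ u := by exact_mod_cast w3
     -- the numbers
     obtain ⟨e₀, he₀⟩ : ∃ e₀, e₀ = M * u := ⟨_, rfl⟩
     obtain ⟨w', hw'⟩ : ∃ w', w' = (i - 2 * M) * u := ⟨_, rfl⟩
     obtain ⟨L', hL'⟩ : ∃ L', L' = (ρ - 1 - i - M) * u := ⟨_, rfl⟩
     obtain ⟨r, hr⟩ : ∃ r, r = ρ * u := ⟨_, rfl⟩
     have e1 : w' + 2 * e₀ = i * u := by
       rw [hw', he₀, ← mul_assoc, ← Nat.add_mul, Nat.sub_add_cancel h2d]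
     have e2 : w' + 2 * e₀ + e₀ = (i + M) * u := by
       rw [e1, he₀]
       ring
     have e3 : Pp w' e₀ L' = (ρ - 1) * u := by
       have h1 : Pp w' e₀ L' = (w' + 2 * e₀ + e₀) + L' := by unfold Pp; omega
       rw [h1, e2, hL', ← Nat.add_mul]
       congr 1
       omega
     have e4 : r = Pp w' e₀ L' + u := by
       rw [e3, hr]
       have : ρ = ρ - 1 + 1 := by omega
       nth_rewrite 1 [this]
       ring
     have hrJ : r ≤ J := by
       rw [hr]
       exact (Nat.mul_le_mul_right _ hρN).trans hNuJ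
     have e5 : (Cr + Cj) * e₀ ≤ L' := by
       rw [he₀, hL', ← mul_assoc]
       exact Nat.mul_le_mul_right _ (by omega)
     exact by
      have e6 : L' ≤ E * e₀ := by
        rw [he₀, hL', ← mul_assoc]
        exact Nat.mul_le_mul_right _ (by omega)
      have e7 : Pp w' e₀ L' - Cr * e₀ = (ρ - 1 - Cr * M) * u := by
        rw [e3, he₀, ← mul_assoc, ← Nat.sub_mul]
      have e8 : Pp w' e₀ L' - (Cr + Cj) * e₀ = (ρ - 1 - (Cr + Cj) * M) * u := by
        rw [e3, he₀, ← mul_assoc, ← Nat.sub_mul]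
      -- the probability of `A`
      have hA : Real.exp (-(τ * J)) ≤ Pe F.p A := hSt.2
      have hA0 : 0 < Pe F.p A := lt_of_lt_of_le (Real.exp_pos _) hA
      -- the label
      unfold Bl at hBl
      rw [← hu, ← hr, ← e1, ← e3] at hBl
      obtain ⟨G₀, H₀, hlab⟩ := lab_iff.1 hBl
      -- own-visibility
      obtain ⟨A₁, hA1, hP1, hfn⟩ := fns_event F hA0 N
        (fun k => u * ((k : ℕ) + 1) ≤ L' ∧ Zm F (1 / (2 * w)) (w' + 2 * e₀ + e₀ + u * (k : ℕ) + s₀)
          (w' + 2 * e₀ + e₀ + u * ((k : ℕ) + 1)) A)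
        (fun k => kod F i₁ r (w' + 2 * e₀) (w' + 2 * e₀ + e₀ + u * (k : ℕ) + s₀) G₀)
        (fun k => ptr F (w' + 2 * e₀ + e₀ + u * ((k : ℕ) + 1))) (δ := ε₁ * J)
        (by
          have : (0 : ℝ) < J := by linarith only [hNr, hJr, t6, t7, t8, t9, hTT, t0]
          positivity)
        (by
          rintro k ⟨hk, hZm⟩
          refine hOV hCh r (w' + 2 * e₀) (Pp w' e₀ L') _ _ G₀ H₀ hlab (by omega) ?_ ?_ (by omega) hrJ
            hZm
          · have h1 : (1 : ℝ) / (4 * N) * J ≤ u / 2 := by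
              rw [div_mul_eq_mul_div, one_mul, div_le_iff₀ (by positivity)]
              linarith only [hJNr]
            push_cast
            linarith only [t1, t4, hUt, hUtu, h1]
          · unfold Pp
            omega)
      -- the exact label
      exact by
       obtain ⟨s₁, hs₁⟩ : ∃ s₁ : ℝ, s₁ = τ * J + 2 * N ^ 2 * (ε₁ * J) + Real.log 2 := ⟨_, rfl⟩
       have hl2 : 0 ≤ Real.log 2 := Real.log_nonneg (by norm_num)
       have hl2' : Real.log 2 ≤ 1 := by
         have := Real.log_two_lt_d9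
         linarith only [this]
       have hP1' : Real.exp (-s₁) ≤ Pe F.p A₁ := by
         refine le_trans ?_ hP1
         have h1 : Real.exp (-s₁) = Real.exp (-(2 * N ^ 2 * (ε₁ * J))) / 2 * Real.exp (-(τ * J)) := by
           rw [hs₁, show -(τ * J + 2 * N ^ 2 * (ε₁ * J) + Real.log 2) =
             -(2 * N ^ 2 * (ε₁ * J)) + -(τ * J) + -Real.log 2 by ring, Real.exp_add, Real.exp_add,
             Real.exp_neg (Real.log 2), Real.exp_log (by norm_num)]
           ring
         rw [h1]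
         exact mul_le_mul_of_nonneg_left hA (by positivity)
       have hRb := S.rb hSt.1
       have hTm := S.tm hSt.1
       have hTr := S.tr hSt.1
       obtain ⟨B₁, hB1, hPB, hxl⟩ := hxle J F i₁ r w' (w' + 2 * e₀) (w' + 2 * e₀ + e₀) (Pp w' e₀ L') A₁
         (τ * J) (τ * J) s₁ G₀ H₀ (by omega) (by omega) (by unfold Pp; omega) (by omega) hrJ
         (hlab.sub hA1) hTr hTm hRb hP1'
       -- the probability of `B₁`
       have hεN : 2 * (N : ℝ) ^ 2 * (ε₁ * J) = ζ / 8 * J := by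
         rw [hε₁]
         field_simp
         ring
       have hPB' : Real.exp (-(ζ * J)) * Pe F.p A ≤ 3 / 4 * Pe F.p B₁ := by
         have h1 : cx * Real.exp (-(4 * (τ * J) + τ * J + s₁)) * (Real.exp (-(2 * N ^ 2 * (ε₁ * J))) /
             2 * Pe F.p A) ≤ Pe F.p B₁ :=
           (mul_le_mul_of_nonneg_left hP1 (by positivity)).trans hPB
         have h2 : cx * Real.exp (-(4 * (τ * J) + τ * J + s₁)) *
             (Real.exp (-(2 * N ^ 2 * (ε₁ * J))) / 2 * Pe F.p A) =
             cx / 4 * Real.exp (-(5 / 8 * ζ * J)) * Pe F.p A := by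
           rw [hs₁, hεN, show -(4 * (τ * J) + τ * J + (τ * J + ζ / 8 * J + Real.log 2)) =
             -(6 * τ * J + ζ / 8 * J) + -Real.log 2 by ring, Real.exp_add,
             Real.exp_neg (Real.log 2), Real.exp_log (by norm_num)]
           have h3 : Real.exp (-(6 * τ * J + ζ / 8 * J)) * Real.exp (-(ζ / 8 * J)) =
               Real.exp (-(5 / 8 * ζ * J)) := by
             rw [← Real.exp_add, hτ]
             congr 1
             ring
           rw [← h3]
           ring
         rw [h2] at h1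
         have h4 : Real.exp (-(3 / 8 * ζ * J)) * (16 / (3 * cx)) ≤ 1 := by
           refine exp_mul_le_one ?_
           rw [div_le_iff₀ (by positivity)]
           nlinarith only [v6]
         have h5 : Real.exp (-(3 / 8 * ζ * J)) ≤ 3 / 16 * cx := by
           rw [← le_div_iff₀ (by positivity)] at h4
           refine h4.trans (le_of_eq ?_)
           field_simp
         have h6 : Real.exp (-(ζ * J)) = Real.exp (-(3 / 8 * ζ * J)) * Real.exp (-(5 / 8 * ζ * J)) := by
           rw [← Real.exp_add]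
           congr 1
           ring
         rw [h6]
         have h7 : Real.exp (-(3 / 8 * ζ * J)) * Real.exp (-(5 / 8 * ζ * J)) * Pe F.p A ≤
             3 / 16 * cx * Real.exp (-(5 / 8 * ζ * J)) * Pe F.p A :=
           mul_le_mul_of_nonneg_right (mul_le_mul_of_nonneg_right h5 (Real.exp_pos _).le)
             (Pe_nonneg hp A)
         linarith only [h1, h7]
       exact by
        have hexp : ∀ x : ℝ, ζ ≤ x → Real.exp (-(x * J)) * Pe F.p A ≤ 3 / 4 * Pe F.p B₁ := by
          intro x hx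
          refine le_trans (mul_le_mul_of_nonneg_right (Real.exp_le_exp.2 ?_) (Pe_nonneg hp A)) hPB'
          have : ζ * J ≤ x * J := mul_le_mul_of_nonneg_right hx hJ0
          linarith only [this]
        -- the scale
        obtain ⟨q, hq⟩ : ∃ q, q = ⌊g * J⌋₊ := ⟨_, rfl⟩
        have hq1 : (q : ℝ) ≤ g * J := by rw [hq]; exact Nat.floor_le (by positivity)
        obtain ⟨δ, hδ⟩ : ∃ δ : ℝ, δ = 1 / (4 * m * 2 ^ q) := ⟨_, rfl⟩
        have hq2 : (1 : ℝ) ≤ 2 ^ q := one_le_pow₀ (by norm_num)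
        have hδ0 : 0 < δ := by rw [hδ]; positivity
        obtain ⟨γ, hγ⟩ : ∃ γ : ℕ, γ = m * q + c₁ := ⟨_, rfl⟩
        have hγu : (γ : ℝ) ≤ η * u := by
          rw [hγ]
          push_cast
          have h1 : (m : ℝ) * q ≤ m * (η / (4 * m * N) * (2 * N * u)) := by
            refine mul_le_mul_of_nonneg_left (hq1.trans ?_) (by positivity)
            exact mul_le_mul hg2 hJNr hJ0 (by positivity)
          have h2 : (m : ℝ) * (η / (4 * m * N) * (2 * N * u)) = η * u / 2 := by
            field_simp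
            ring
          linarith only [w4, h1, h2]
        obtain ⟨A', hA1', hA2', hA3'⟩ := hcore J F i₁ u e₀ w' L' r A B₁ ⌊h₁ * J⌋₊ γ ψ g δ (τ * J)
          (τ * J) ((τ + ζ) * J) (Real.exp (-(κ₂ * J / 2))) (2 * (η₂ * J)) G₀ w1 w2' he₀
          ⟨_, by rw [hw', Nat.mul_comm]⟩ ⟨_, by rw [hL', Nat.mul_comm]⟩ e5 e6 e4 hrJ hTr hTm hRb hCh hψ
          hSp hA0 hδ0
          (by
            rw [hδ, div_lt_div_iff₀ (by positivity) (by norm_num)]
            nlinarith only [hmr, hq2])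
          (by
            have h1 : q + 1 ≤ ⌊h₁ * J⌋₊ := by
              refine Nat.le_floor ?_
              push_cast
              have : g * J ≤ h₁ / 2 * J := mul_le_mul_of_nonneg_right hg1 hJ0
              linarith only [v4, hq1, this]
            have h2 : (1 : ℝ) / 2 ^ ⌊h₁ * (J : ℝ)⌋₊ ≤ 1 / 2 ^ (q + 1) := inv_mono h1
            have h3 : 2 * (m : ℝ) * δ = 1 / 2 ^ (q + 1) := by
              rw [hδ, pow_succ]
              field_simp
              norm_num
            have h4 : (1 : ℝ) / 2 ^ (q + 1) + 1 / 2 ^ (q + 1) = 1 / 2 ^ q := by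
              rw [pow_succ]
              field_simp
              norm_num
            rw [← hq]
            linarith only [h2, h3, h4])
          (by
            have h1 : δ ^ m * 2 ^ γ = 2 ^ c₁ / (4 * m) ^ m := by
              rw [hδ, hγ, pow_add, div_pow, one_pow, mul_pow, ← pow_mul, Nat.mul_comm q m]
              field_simp
            rw [h1, le_div_iff₀ (by positivity)]
            exact hc₁.le)
          (hB1.trans hA1) (hexp _ hζ1)
          (by
            have := hexp _ hζ2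
            rw [show κ₂ / 2 * (J : ℝ) = κ₂ * J / 2 by ring] at this
            exact this)
          (by
            rw [Real.exp_le_one_iff]
            have : 0 ≤ κ₂ * J := by positivity
            linarith only [this])
          (by
            refine le_trans ?_ hPB'
            have h1 : Real.exp (-((τ + ζ) * J)) = Real.exp (-(ζ * J)) * Real.exp (-(τ * J)) := by
              rw [← Real.exp_add]
              congr 1
              ring
            rw [h1]
            exact mul_le_mul_of_nonneg_left hA (Real.exp_pos _).le)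
          (by positivity) hlab.1 hxl
          (by
            have h1 : 4 * (τ * J) + τ * J + (τ + ζ) * J ≤ 2 * ζ * J := by
              rw [hτ]
              have : 0 ≤ ζ * J := by positivity
              linarith only [this]
            have h2 : 2 * ζ * J ≤ 2 * (η / (4 * N)) * (2 * N * u) :=
              mul_le_mul (by linarith only [hζ4]) hJNr hJ0 (by positivity)
            have h3 : 2 * (η / (4 * N)) * (2 * N * u) = η * u := by
              field_simp
              norm_num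
            linarith only [h1, h2, h3])
          hγu
          (by
            have h1 : Real.exp (-(ψ / 4 * J)) * (2 / η) ≤ 1 := by
              refine exp_mul_le_one ?_
              rw [div_le_iff₀ hη]
              nlinarith only [v5]
            rw [mul_div_assoc', div_le_iff₀ hη] at h1
            linarith only [h1])
          (by
            have h2 : 2 * (η₂ * J) ≤ 2 * (η / (4 * N) * (2 * N * u)) := by
              rw [hη₂]
              exact mul_le_mul_of_nonneg_left (mul_le_mul_of_nonneg_left hJNr (by positivity))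
                (by norm_num)
            have h3 : 2 * (η / (4 * N) * (2 * N * u)) = η * u := by
              field_simp
              norm_num
            linarith only [h2, h3])
          (by
            intro a b hab hb
            have hbN : b ≤ N := by
              have h1 : b * u ≤ N * u := by
                rw [hr] at hb
                exact hb.trans (Nat.mul_le_mul_right _ hρN)
              exact Nat.le_of_mul_le_mul_right h1 hu1
            have := hste J F A v2' hA0 hSb a b hab hbN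
            rw [← hu] at this
            exact this)
          (by
            intro k hk
            by_cases hz : Zm F (1 / (2 * w)) (w' + 2 * e₀ + e₀ + u * k + s₀)
                (w' + 2 * e₀ + e₀ + u * (k + 1)) A
            · have hkN : k < N := by
                have h1 : u * (k + 1) ≤ u * N := by
                  refine hk.trans ?_
                  rw [hL', Nat.mul_comm]
                  exact Nat.mul_le_mul_left _ (by omega)
                have := Nat.le_of_mul_le_mul_left h1 hu1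
                omega
              obtain ⟨Φ, hΦ⟩ := hfn ⟨k, hkN⟩ ⟨hk, hz⟩
              exact Or.inl ⟨Φ, fun ω hω => hΦ ω (hB1 ω hω)⟩
            · exact Or.inr hz)
          (by
            rw [e7, e3]
            refine hrate.trans (le_of_eq ?_)
            rw [he₀])
        exact by
         rw [e8, hr] at hA3'
         refine ⟨A', hA1'.trans (hB1.trans hA1), ?_, by rw [hw'] at hA3'; exact hA3'⟩
         -- the final probability
         have hCc : (0 : ℝ) < 4 * (Cc + 1) := by positivity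
         have h1 : 3 / 4 * Pe F.p B₁ ≤ 4 * (Cc + 1) * Pe F.p A' := by
           have := Pe_nonneg hp A'
           linarith only [hA2', this]
         have h2 : Real.exp (-(κ₁ / 2 * J)) * (4 * (Cc + 1)) ≤ 1 := by
           refine exp_mul_le_one ?_
           linarith only [v7]
         have h3 := hexp _ hζ3
         have h4 : Real.exp (-(κ₁ * J)) = Real.exp (-(κ₁ / 2 * J)) * Real.exp (-(κ₁ / 2 * J)) := by
           rw [← Real.exp_add]
           congr 1
           ring
         have h5 : 4 * (Cc + 1) * (Real.exp (-(κ₁ * J)) * Pe F.p A) ≤ 4 * (Cc + 1) * Pe F.p A' := by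
           refine le_trans ?_ (h3.trans h1)
           have h6 : 4 * ((Cc : ℝ) + 1) * (Real.exp (-(κ₁ * J)) * Pe F.p A) =
               Real.exp (-(κ₁ / 2 * J)) * (4 * (Cc + 1)) * (Real.exp (-(κ₁ / 2 * J)) * Pe F.p A) := by
             rw [h4]
             ring
           rw [h6]
           exact mul_le_of_le_one_left (mul_nonneg (Real.exp_pos _).le (Pe_nonneg hp A)) h2
         exact le_of_mul_le_mul_left h5 hCc

end Pool.FLF
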