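import Pool.Agent.H99.LST.CORE

/-!
# The list of the stable entropies
-/

set_option autoImplicit false

namespace Pool.FLF

open Finset Real
open Pool.Agent.H49.Ent Pool.Agent.H32.Dense Pool.STK Pool.KA Pool.KSAT Pool.K2S Pool.KS3
open Pool.KAL Pool.PB Pool.KST Pool.KA.TRC Pool.K2S.Rows Pool.OVN Pool.KAF

variable {m J : ℕ}

/-- A list of properties indexed by a finite type. -/
noncomputable def plOf {ι : Type} [Fintype ι]
    (P : ∀ (J : ℕ) (F : Fam m J), ι → (F.Ω → Prop) → Prop)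
    (h : ∀ (J : ℕ) (F : Fam m J) (i : ι), Hered (P J F i)) : PList m where
  n := Fintype.card ι
  Q := fun J F i => P J F ((Fintype.equivFin ι).symm i)
  her := fun J F i => h J F _

theorem plOf_sb {ι : Type} [Fintype ι] {P : ∀ (J : ℕ) (F : Fam m J), ι → (F.Ω → Prop) → Prop}
    {h : ∀ (J : ℕ) (F : Fam m J) (i : ι), Hered (P J F i)} {F : Fam m J} {κ : ℝ}
    {A : F.Ω → Prop} (hs : (plOf P h).Sb F κ A) (i : ι) : Stb F.p (κ * J) A (P J F i) := by
  have h1 := hs (Fintype.equivFin ι i)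
  have h2 : (plOf P h).Q J F (Fintype.equivFin ι i) = P J F i := by
    change P J F ((Fintype.equivFin ι).symm (Fintype.equivFin ι i)) = P J F i
    rw [Equiv.symm_apply_apply]
  rw [h2] at h1
  exact h1

/-- **Stable entropies**, second form. -/
theorem ste_of_stb {Ω S T : Type} [Fintype Ω] {p : Ω → ℝ} (hp : IsLaw p) {f : Ω → S} {g : Ω → T}
    {A : Ω → Prop} {κ η : ℝ} (hκ : 0 ≤ κ) (hη : 0 ≤ η) {M : ℕ} (hA : 0 < Pe p A)
    (hM : Cnt f g (M * η) A) (hs : ∀ k : ℕ, k ≤ M → Stb p κ A (Cnt f g (k * η))) :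
    StE p (Real.exp (-(κ / 2))) (η + Real.exp (-(κ / 2)) * (M * η)) f g A := by
  obtain ⟨h, h0, h1, h2⟩ := ent_stb hp hη hA hM hs
  have hθ : Real.exp (-(κ / 2)) ≤ 1 := by
    rw [Real.exp_le_one_iff]
    linarith
  have hθ0 : 0 < Real.exp (-(κ / 2)) := Real.exp_pos _
  have hMη : 0 ≤ M * η := by positivity
  rcases le_or_gt h (M * η) with hle | hlt
  · refine ⟨h, h1, fun B hB hP => ?_⟩
    have h3 := h2 B hB hP
    have h4 : Real.exp (-(κ / 2)) * h ≤ Real.exp (-(κ / 2)) * (M * η) :=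
      mul_le_mul_of_nonneg_left hle hθ0.le
    linarith
  · refine ⟨M * η, hM, fun B hB hP => ?_⟩
    have h3 := h2 B hB hP
    have h4 : (1 - Real.exp (-(κ / 2))) * (M * η) ≤ (1 - Real.exp (-(κ / 2))) * h :=
      mul_le_mul_of_nonneg_left hlt.le (by linarith)
    linarith

/-- The digits of a position given the coarser digits. -/
theorem cnt_X (F : Fam m J) {a b : ℕ} (hab : a ≤ b) (A : F.Ω → Prop) :
    Cnt (F.X b) (fun ω => (F.X a ω, F.W ω)) (m * ((b : ℝ) - a)) A := by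
  classical
  refine ⟨fun t => Fintype.piFinset fun i => Finset.Ico (2 ^ (b - a) * t.1 i)
    (2 ^ (b - a) * t.1 i + 2 ^ (b - a)), fun t => ?_, fun ω _ => ?_⟩
  · rw [Fintype.card_piFinset]
    have h1 : ∀ i : Fin m, (Finset.Ico ((2 : ℤ) ^ (b - a) * t.1 i)
        (2 ^ (b - a) * t.1 i + 2 ^ (b - a))).card = 2 ^ (b - a) := by
      intro i
      rw [Int.card_Ico, add_sub_cancel_left]
      norm_cast
    rw [Finset.prod_congr rfl fun i _ => h1 i, Finset.prod_const, Finset.card_univ,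
      Fintype.card_fin, ← pow_mul]
    push_cast
    rw [← Nat.cast_sub hab, ← Real.exp_log (show (0 : ℝ) < 2 ^ ((b - a) * m) by positivity),
      Real.log_pow]
    refine Real.exp_le_exp.2 ?_
    push_cast
    have h2 : Real.log 2 ≤ 1 := by
      have := Real.log_two_lt_d9
      linarith
    have h3 : (0 : ℝ) ≤ ((b - a : ℕ) : ℝ) * m := by positivity
    calc ((b - a : ℕ) : ℝ) * m * Real.log 2 ≤ ((b - a : ℕ) : ℝ) * m * 1 :=
          mul_le_mul_of_nonneg_left h2 h3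
      _ = m * ((b - a : ℕ) : ℝ) := by ring
  · rw [Fintype.mem_piFinset]
    intro i
    rw [Finset.mem_Ico]
    have h1 := Xr_div F (w := a) (L := b - a) (r := b) (by omega) ω i
    have h3 : (0 : ℤ) < 2 ^ (b - a) := by positivity
    have h4 := Int.emod_add_mul_ediv (F.X b ω i) (2 ^ (b - a))
    have h5 := Int.emod_nonneg (F.X b ω i) h3.ne'
    have h6 := Int.emod_lt_of_pos (F.X b ω i) h3
    simp only
    rw [← h1]
    constructor <;> linarith

/-- The digits of the passive coordinate. -/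
theorem cnt_rf (F : Fam m J) (i₁ : Fin m) {a b : ℕ} (hab : a ≤ b) (A : F.Ω → Prop) :
    Cnt (rf F i₁ b) (rg F i₁ a b) ((b : ℝ) - a) A := by
  classical
  refine ⟨fun t => Finset.Ico (2 ^ (b - a) * t.2.1) (2 ^ (b - a) * t.2.1 + 2 ^ (b - a)),
    fun t => ?_, fun ω _ => ?_⟩
  · rw [Int.card_Ico, add_sub_cancel_left]
    have h0 : ((2 : ℤ) ^ (b - a)).toNat = 2 ^ (b - a) := by norm_cast
    rw [h0]
    push_cast
    rw [← Nat.cast_sub hab, ← Real.exp_log (show (0 : ℝ) < 2 ^ (b - a) by positivity),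
      Real.log_pow]
    refine Real.exp_le_exp.2 ?_
    have h2 : Real.log 2 ≤ 1 := by
      have := Real.log_two_lt_d9
      linarith
    have h3 : (0 : ℝ) ≤ ((b - a : ℕ) : ℝ) := by positivity
    calc ((b - a : ℕ) : ℝ) * Real.log 2 ≤ ((b - a : ℕ) : ℝ) * 1 :=
          mul_le_mul_of_nonneg_left h2 h3
      _ = _ := by ring
  · unfold rf rg
    rw [Finset.mem_Ico]
    have h1 := Xr_div F (w := a) (L := b - a) (r := b) (by omega) ω i₁
    have h3 : (0 : ℤ) < 2 ^ (b - a) := by positivity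
    have h4 := Int.emod_add_mul_ediv (F.X b ω i₁) (2 ^ (b - a))
    have h5 := Int.emod_nonneg (F.X b ω i₁) h3.ne'
    have h6 := Int.emod_lt_of_pos (F.X b ω i₁) h3
    simp only
    rw [← h1]
    constructor <;> linarith

/-- The properties of the list. -/
noncomputable def entQ (i₁ : Fin m) (N Mc : ℕ) (η : ℝ) (J : ℕ) (F : Fam m J)
    (v : Fin (N + 1) × Fin (N + 1) × Fin (Mc + 1) × Bool) : (F.Ω → Prop) → Prop :=
  if v.2.2.2 = true then
    Cnt (F.X ((v.2.1 : ℕ) * (J / N))) (fun ω => (F.X ((v.1 : ℕ) * (J / N)) ω, F.W ω))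
      ((v.2.2.1 : ℕ) * (η * J))
  else
    Cnt (rf F i₁ ((v.2.1 : ℕ) * (J / N))) (rg F i₁ ((v.1 : ℕ) * (J / N)) ((v.2.1 : ℕ) * (J / N)))
      ((v.2.2.1 : ℕ) * (η * J))

theorem entQ_hered (i₁ : Fin m) (N Mc : ℕ) (η : ℝ) (J : ℕ) (F : Fam m J)
    (v : Fin (N + 1) × Fin (N + 1) × Fin (Mc + 1) × Bool) : Hered (entQ i₁ N Mc η J F v) := by
  unfold entQ
  split_ifs
  · exact Cnt.hered _ _ _
  · exact Cnt.hered _ _ _

/-- The list of the counts. -/
noncomputable def entL (i₁ : Fin m) (N Mc : ℕ) (η : ℝ) : PList m :=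
  plOf (entQ i₁ N Mc η) (entQ_hered i₁ N Mc η)

/-- **The stable entropies of a stable event.** -/
theorem ste_of_list {i₁ : Fin m} {N Mc : ℕ} {η κ : ℝ} (hη : 0 < η) (hκ : 0 < κ)
    (hMc : m + 1 ≤ Mc * η) :
    ∃ J₁ : ℕ, ∀ (J : ℕ) (F : Fam m J) (A : F.Ω → Prop), J₁ ≤ J → 0 < Pe F.p A →
      (entL i₁ N Mc η).Sb F κ A → ∀ a b : ℕ, a ≤ b → b ≤ N →
        StE F.p (Real.exp (-(κ * J / 2))) (2 * (η * J)) (F.X (b * (J / N)))
          (fun ω => (F.X (a * (J / N)) ω, F.W ω)) A ∧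
        StE F.p (Real.exp (-(κ * J / 2))) (2 * (η * J)) (rf F i₁ (b * (J / N)))
          (rg F i₁ (a * (J / N)) (b * (J / N))) A := by
  obtain ⟨J₁, hJ₁⟩ := exists_nat_ge (2 * Mc / κ)
  refine ⟨J₁, fun J F A hJ hA hs a b hab hb => ?_⟩
  have hJr : (0 : ℝ) ≤ J := Nat.cast_nonneg J
  have hθ : Real.exp (-(κ * J / 2)) * (Mc * (η * J)) ≤ η * J := by
    have h1 : (J₁ : ℝ) ≤ J := by exact_mod_cast hJ
    have h2 : 2 * Mc / κ ≤ J := hJ₁.trans h1
    rw [div_le_iff₀ hκ] at h2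
    have h3 : (Mc : ℝ) ≤ Real.exp (κ * J / 2) := by
      have := Real.add_one_le_exp (κ * J / 2)
      linarith
    have h4 : Real.exp (-(κ * J / 2)) * Mc ≤ 1 := by
      rw [Real.exp_neg, inv_mul_le_iff₀ (Real.exp_pos _), mul_one]
      exact h3
    calc Real.exp (-(κ * J / 2)) * (Mc * (η * J)) = Real.exp (-(κ * J / 2)) * Mc * (η * J) := by
          ring
      _ ≤ 1 * (η * J) := mul_le_mul_of_nonneg_right h4 (by positivity)
      _ = _ := one_mul _
  have hba : (((b * (J / N) : ℕ) : ℝ)) - ((a * (J / N) : ℕ) : ℝ) ≤ J := by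
    have h1 : b * (J / N) ≤ J := (Nat.mul_le_mul_right _ hb).trans (Nat.mul_div_le J N)
    have h2 : ((b * (J / N) : ℕ) : ℝ) ≤ J := by exact_mod_cast h1
    have h3 : (0 : ℝ) ≤ ((a * (J / N) : ℕ) : ℝ) := Nat.cast_nonneg _
    linarith
  have hle : a * (J / N) ≤ b * (J / N) := Nat.mul_le_mul_right _ hab
  have hM1 : (m : ℝ) * J ≤ Mc * (η * J) := by
    have : ((m : ℝ) + 1) * J ≤ Mc * η * J := mul_le_mul_of_nonneg_right hMc hJr
    linarith
  have hM2 : (J : ℝ) ≤ Mc * (η * J) := by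
    have h1 : ((m : ℝ) + 1) * J ≤ Mc * η * J := mul_le_mul_of_nonneg_right hMc hJr
    have h2 : (0 : ℝ) ≤ m * J := by positivity
    linarith
  constructor
  · have h1 := ste_of_stb F.isLaw (f := F.X (b * (J / N)))
      (g := fun ω => (F.X (a * (J / N)) ω, F.W ω)) (A := A) (κ := κ * J) (η := η * J) (M := Mc)
      (by positivity) (by positivity) hA
      ((cnt_X F hle A).mono (by
        have : (m : ℝ) * (((b * (J / N) : ℕ) : ℝ) - ((a * (J / N) : ℕ) : ℝ)) ≤ m * J :=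
          mul_le_mul_of_nonneg_left hba (Nat.cast_nonneg m)
        linarith))
      (by
        intro k hk
        have h2 := plOf_sb hs (⟨a, by omega⟩, ⟨b, by omega⟩, ⟨k, by omega⟩, true)
        simpa only [entQ, if_true] using h2)
    obtain ⟨h, h3, h4⟩ := h1
    exact ⟨h, h3, fun B hB hP => by linarith [h4 B hB hP]⟩
  · have h1 := ste_of_stb F.isLaw (f := rf F i₁ (b * (J / N)))
      (g := rg F i₁ (a * (J / N)) (b * (J / N))) (A := A) (κ := κ * J) (η := η * J) (M := Mc)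
      (by positivity) (by positivity) hA
      ((cnt_rf F i₁ hle A).mono (by linarith))
      (by
        intro k hk
        have h2 := plOf_sb hs (⟨a, by omega⟩, ⟨b, by omega⟩, ⟨k, by omega⟩, false)
        simpa only [entQ, if_false, Bool.false_eq_true] using h2)
    obtain ⟨h, h3, h4⟩ := h1
    exact ⟨h, h3, fun B hB hP => by linarith [h4 B hB hP]⟩

end Pool.FLF
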