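import Pool.Agent.H82.KSP.SUBC

/-!
# The macro step with its parameters: statement
-/

set_option autoImplicit false

namespace Pool.KS3

open Finset Real Module
open Pool.Agent.H49.Ent Pool.Agent.H32.Dense Pool.STK Pool.KAF Pool.KAL Pool.KST

/-- Row PAR. The scale is `J`, the step is `e₀ ~ J / E`. `D`, `j`, `Cp`, `Cq` do not depend on the
class `k₀`, on `E` and on the allowed error `κ`; `η₁` and the auxiliary parameters `κ₀`, `N₀`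
do. First part: most of the cubes of side `2 ^ (-e₀)` are not bad. Second part: the closed label
for the windows which are `3 e₀` longer; the precision decreases by `Cq e₀`. -/
def PARStmt : Prop :=
  ∀ (n : ℕ) (C₀ : ℝ), 1 ≤ n → 1 ≤ C₀ → ∃ D j Cp : ℕ, ∀ cγ : ℕ, ∃ Cq : ℕ,
    ∀ (k₀ E : ℕ) (κ : ℝ), 1 ≤ E → 0 < κ →
    ∃ (η₁ : ℝ) (κ₀ N₀ J₀ : ℕ), 0 < η₁ ∧
    (∀ (J e₀ a L L' : ℕ) (Ω Λ Ξ Z : Type) [Fintype Ω] (p : Ω → ℝ) (lam : Ω → Λ)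
      (x : Ω → Ξ) (T : Ξ → ℕ) (pos : Ξ → Option (Fin n) → ℕ) (A B : Λ → Option (Fin n) → ℝ)
      (zx : Ξ → Z) (zl : Λ → ℕ → Z) (cz : Z → Option (Fin n) → ℕ)
      (G : Z → MvPolynomial (Fin n) ℝ) (γ : ℕ) (δ ε e₁ e₃ : ℝ) (e : Ξ → ℝ),
      J₀ ≤ J → J ≤ 2 * (E * e₀) → L ≤ J → e₀ + L' = L → (j + 2) * e₀ ≤ L →
      e₁ ≤ η₁ * J → e₃ ≤ η₁ * J → γ ≤ η₁ * J → ε ≤ η₁ →
      StepH n a L C₀ k₀ κ₀ γ N₀ δ ε e₁ e₃ p lam x T pos A B zx zl cz G e →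
      (∑ ω, (open Classical in if Bad (G2 e₀ G (zx2 L' pos zx (x ω))) (fun _ => 0) 1 D
        (2 ^ (e₀ * (j + 2)) / 2 ^ L) then p ω else 0)) ≤ 1 / 4) ∧
    ∀ (J e₀ L L' : ℕ) (Ω Λ Ξ Z β : Type) [Fintype Ω] (p : Ω → ℝ) (lam : Ω → Λ)
      (x : Ω → Ξ) (T : Ξ → ℕ) (pos : Ξ → Option (Fin n) → ℕ) (A B : Λ → Option (Fin n) → ℝ)
      (zx : Ξ → Z) (zl : Λ → ℕ → Z) (cz : Z → Option (Fin n) → ℕ)
      (G : Z → MvPolynomial (Fin n) ℝ) (γ γ' : ℕ) (δ ε e₁ e₃ δ' ψ : ℝ) (e e' : Ξ → ℝ)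
      (bz : Z → β) (bl : Λ → β),
      J₀ ≤ J → J ≤ 2 * (E * e₀) → E * e₀ ≤ J → L ≤ J → e₀ + L' = L → (j + 2) * e₀ ≤ L →
      e₁ ≤ η₁ * J → e₃ ≤ η₁ * J → γ ≤ η₁ * J → ε ≤ η₁ →
      StepH n (3 * e₀) L' C₀ k₀ κ₀ γ N₀ δ ε e₁ e₃ p lam x T pos A B zx zl cz G e →
      (∀ ω, 0 < p ω → ¬ Bad (G (zx (x ω))) (fun _ => 0) 1 D (2 ^ (e₀ * (j + 2)) / 2 ^ L)) →
      (∀ ω, 0 < p ω → bz (zx (x ω)) = bl (lam ω)) →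
      ((3 * e₀ + L' : ℕ) : ℝ) * Real.log 2 - CH p (fun ω => T (x ω)) lam ≤ η₁ * J →
      CH p x (fun ω => (pos (x ω), bz (zx (x ω)))) ≤ (n + 1) * e₀ →
      0 < δ' → (∀ a, 0 ≤ e' a) → NCF p lam x B δ' e' → Cp * e₀ ≤ ψ →
      (∑ ω, (open Classical in if Real.exp (-ψ) < e' (x ω) then p ω else 0)) ≤
        2 * Real.exp (-ψ) →
      n.factorial * (3 * C₀) ^ n ≤ δ' ^ n * 2 ^ γ' → γ' ≤ cγ * e₀ →
      ∃ (Y : Type) (y : Z → Y) (sl : Λ → Option Y) (q : ℕ), q ≤ Cq * e₀ ∧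
        (∑ ω, (open Classical in if some (y (zx (x ω))) ≠ sl (lam ω) then p ω else 0)) ≤
          1 / 2 ∧
        CH p (fun ω => pos (x ω) none / 2 ^ q) (fun ω => (bas pos (x ω), y (zx (x ω)))) ≤ κ * J

end Pool.KS3
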